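import Mathlib

/-!
# Exceptional times under exclusion dynamics and under ordinary dynamical percolation: definitions
-/

set_option autoImplicit false

namespace H934X

open MeasureTheory ProbabilityTheory Filter Topology
open scoped ENNReal

/-- A fair coin. -/
noncomputable def fair : Measure Bool :=
  (2⁻¹ : ℝ≥0∞) • Measure.dirac true + (2⁻¹ : ℝ≥0∞) • Measure.dirac false

instance : IsProbabilityMeasure fair := by
  constructor
  simp [fair, ENNReal.inv_two_add_inv_two]

/-- The product Bernoulli(1/2) measure on `{0,1}^I` (critical percolation). -/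
noncomputable def Pc (I : Type) : Measure (I → Bool) := Measure.infinitePi (fun _ : I => fair)

instance (I : Type) : IsProbabilityMeasure (Pc I) := by
  unfold Pc
  infer_instance

variable {I : Type}

open Classical in
/-- The generator of ordinary dynamical percolation: each bit is replaced by a fresh fair bit at
rate `1`. -/
noncomputable def Lord (f : (I → Bool) → ℝ) (ω : I → Bool) : ℝ :=
  ∑' x : I, ((f (Function.update ω x true) + f (Function.update ω x false)) / 2 - f ω)

open Classical in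
/-- The generator of the exclusion dynamics with kernel `P`: for each unordered pair `{x,y}` the
values at `x` and `y` are swapped at rate `P x y` (the sum runs over ordered pairs, whence the
factor `1/2`). -/
noncomputable def Lex (P : I → I → ℝ) (f : (I → Bool) → ℝ) (ω : I → Bool) : ℝ :=
  1 / 2 * ∑' p : I × I, P p.1 p.2 * (f (ω ∘ Equiv.swap p.1 p.2) - f ω)

variable {Ω : Type}

/-- The `σ`-algebra generated by the process up to time `s`. -/
@[reducible] def past (X : ℝ → Ω → I → Bool) (s : ℝ) : MeasurableSpace Ω :=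
  ⨆ u ∈ Set.Icc (0 : ℝ) s, MeasurableSpace.comap (X u) inferInstance

/-- `X` is a version of the stationary dynamics with generator `L`: it starts from the
Bernoulli(1/2) measure, every bit has right-continuous paths with left limits, and it solves the
martingale problem for `L`: for every function `f` of finitely many bits,
`f (X t) - f (X 0) - ∫_0^t L f (X u) du` is a martingale for the filtration of `X`. -/
structure IsDyn [MeasurableSpace Ω] (L : ((I → Bool) → ℝ) → (I → Bool) → ℝ) (μ : Measure Ω)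
    (X : ℝ → Ω → I → Bool) : Prop where
  meas : ∀ t, Measurable (X t)
  init : μ.map (X 0) = Pc I
  right : ∀ (ω : Ω) (x : I) (t : ℝ), 0 ≤ t → ∃ ε > 0, ∀ s ∈ Set.Ico t (t + ε), X s ω x = X t ω x
  left : ∀ (ω : Ω) (x : I) (t : ℝ), 0 < t → ∃ b : Bool, ∃ ε > 0, ∀ s ∈ Set.Ioo (t - ε) t,
    X s ω x = b
  mart : ∀ (S : Finset I) (f : (I → Bool) → ℝ), DependsOn f (S : Set I) → ∀ s t : ℝ, 0 ≤ s →
    s ≤ t → ∀ G : Ω → ℝ, Measurable[past X s] G → (∀ ω, |G ω| ≤ 1) →
      ∫ ω, (f (X t ω) - f (X s ω)) * G ω ∂μ = ∫ u in s..t, ∫ ω, L f (X u ω) * G ω ∂μ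

/-! ### A common framework for the two generators -/

/-- Generators `L f = ∑ r i (f ∘ φ i - f)` with measure preserving involutions `φ i` acting on
finitely many bits. -/
structure Gen (I : Type) where
  ι : Type
  cnt : Countable ι
  r : ι → ℝ
  φ : ι → (I → Bool) → (I → Bool)
  tch : ι → Finset I
  C : ℝ
  C_nonneg : 0 ≤ C
  r_nonneg : ∀ i, 0 ≤ r i
  pres : ∀ i, MeasurePreserving (φ i) (Pc I) (Pc I)
  inv : ∀ i ω, φ i (φ i ω) = ω
  loc : ∀ i ω z, z ∉ tch i → φ i ω z = ω z
  dep : ∀ i (S : Finset I), ∃ S' : Finset I, S'.card ≤ S.card ∧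
    ∀ f : (I → Bool) → ℝ, DependsOn f (S : Set I) → DependsOn (f ∘ φ i) (S' : Set I)
  summ : ∀ z, Summable (fun i => open Classical in if z ∈ tch i then r i else 0)
  rate : ∀ z, ∑' i, (open Classical in if z ∈ tch i then r i else 0) ≤ C

/-- The generator. -/
noncomputable def Gen.L (g : Gen I) (f : (I → Bool) → ℝ) (ω : I → Bool) : ℝ :=
  ∑' i, g.r i * (f (g.φ i ω) - f ω)

/-- The generator acting on functionals of functions. -/
noncomputable def Gen.A (g : Gen I) (a : ((I → Bool) → ℝ) → ℝ) (f : (I → Bool) → ℝ) : ℝ :=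
  ∑' i, g.r i * (a (f ∘ g.φ i) - a f)

/-- The energy. -/
noncomputable def Gen.En (g : Gen I) (f : (I → Bool) → ℝ) : ℝ := - ∫ ω, f ω * g.L f ω ∂(Pc I)

/-- Functions with values in `[-1,1]` which depend on at most `k` bits. -/
def Cyl (k : ℕ) (f : (I → Bool) → ℝ) : Prop :=
  (∃ S : Finset I, S.card ≤ k ∧ DependsOn f (S : Set I)) ∧ ∀ ω, |f ω| ≤ 1

/-- `O` only depends on the bits in `S`. -/
def CylSet (S : Finset I) (O : Set (I → Bool)) : Prop :=
  ∀ ω ω' : I → Bool, (∀ x ∈ S, ω x = ω' x) → (ω ∈ O ↔ ω' ∈ O)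

/-- `X` meets `O` during `[0,T]`. -/
def Hit (X : ℝ → Ω → I → Bool) (T : ℝ) (O : Set (I → Bool)) : Set Ω :=
  {ω | ∃ t ∈ Set.Icc (0 : ℝ) T, X t ω ∈ O}

/-- `X` meets `O` at one of the times `k / 2^j`, `k ≤ n`. -/
def HitD (X : ℝ → Ω → I → Bool) (j n : ℕ) (O : Set (I → Bool)) : Set Ω :=
  {ω | ∃ k ≤ n, X ((k : ℝ) / 2 ^ j) ω ∈ O}

/-- The configurations which agree on `S` with a configuration of `K`. -/
def Nb (K : Set (I → Bool)) (S : Finset I) : Set (I → Bool) :=
  {ω | ∃ ω' ∈ K, ∀ x ∈ S, ω x = ω' x}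

/-- Reversible kernels. -/
structure Rev {E : Type} [MeasurableSpace E] (m : Measure E) (κ : Kernel E E) : Prop where
  sym : ∀ A D : Set E, MeasurableSet A → MeasurableSet D →
    ∫⁻ x in A, κ x D ∂m = ∫⁻ x in D, κ x A ∂m

/-- `Z` is a Markov chain with kernel `κ` with respect to the filtration `ℱ`, started from `m`. -/
structure Chain {E : Type} [MeasurableSpace E] [mΩ : MeasurableSpace Ω] (m : Measure E)
    (κ : Kernel E E) (μ : Measure Ω) (Z : ℕ → Ω → E) (ℱ : ℕ → MeasurableSpace Ω) : Prop where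
  le : ∀ k, ℱ k ≤ mΩ
  mono : Monotone ℱ
  adapt : ∀ k, Measurable[ℱ k] (Z k)
  init : μ.map (Z 0) = m
  step : ∀ k B, MeasurableSet[ℱ k] B → ∀ D : Set E, MeasurableSet D →
    μ (B ∩ Z (k + 1) ⁻¹' D) = ∫⁻ ω in B, κ (Z k ω) D ∂μ

end H934X
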