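import Pool.Agent.H934R4.EX.Props

set_option autoImplicit false

namespace H934X

open MeasureTheory ProbabilityTheory Filter Topology
open scoped ENNReal

theorem E11_int {E : Type} [MeasurableSpace E] {m : Measure E} [IsProbabilityMeasure m] {f : E → ℝ}
    (hf : Measurable f) {M : ℝ} (hb : ∀ x, |f x| ≤ M) : Integrable f m :=
  Integrable.of_bound hf.aestronglyMeasurable M (Eventually.of_forall hb)

theorem E11_quad (h5b : St_E5b) {I : Type} [Countable I] (g : Gen I) {Ω : Type} [MeasurableSpace Ω]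
    (μ : Measure Ω) [IsProbabilityMeasure μ] (X : ℝ → Ω → I → Bool) (hX : IsDyn g.L μ X) (j : ℕ)
    (f : (I → Bool) → ℝ) (hf : Measurable f) (hb : ∀ ω, |f ω| ≤ 1) (l : ℝ) :
    ∫ x, f x * (f x - l * ∫ y, f y ∂(condDistrib (X (1 / 2 ^ j)) (X 0) μ x)) ∂(Pc I) =
      (1 - l) * ∫ x, f x ^ 2 ∂(Pc I) +
        l * ∫ ω, f (X 0 ω) * (f (X 0 ω) - f (X (1 / 2 ^ j) ω)) ∂μ := by
  obtain ⟨-, -, h3⟩ := h5b I g Ω μ X hX j
  have h4 := h3 f hf hb
  set κ := condDistrib (X (1 / 2 ^ j)) (X 0) μ with hκ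
  have hm : Measurable (fun x => ∫ y, f y ∂(κ x)) :=
    (hf.stronglyMeasurable.integral_kernel).measurable
  have hκb : ∀ x, |∫ y, f y ∂(κ x)| ≤ 1 := by
    intro x
    have h := norm_integral_le_of_norm_le_const (μ := κ x) (f := f) (C := 1)
      (Eventually.of_forall hb)
    simpa using h
  have hI1 : Integrable (fun x => f x ^ 2) (Pc I) :=
    E11_int (hf.pow_const 2) (M := 1) (fun x => by
      rw [abs_pow]
      exact pow_le_one₀ (abs_nonneg _) (hb x))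
  have hI2 : Integrable (fun x => f x * ∫ y, f y ∂(κ x)) (Pc I) :=
    E11_int (hf.mul hm) (M := 1) (fun x => by
      rw [abs_mul]
      exact mul_le_one₀ (hb x) (abs_nonneg _) (hκb x))
  have e1 : ∫ x, f x * (f x - l * ∫ y, f y ∂(κ x)) ∂(Pc I) =
      ∫ x, f x ^ 2 ∂(Pc I) - l * ∫ x, f x * ∫ y, f y ∂(κ x) ∂(Pc I) := by
    rw [← integral_const_mul, ← integral_sub hI1 (hI2.const_mul l)]
    refine integral_congr_ae (Eventually.of_forall fun x => ?_)
    simp only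
    ring
  have e2 : ∫ x, f x ^ 2 ∂(Pc I) = ∫ ω, f (X 0 ω) ^ 2 ∂μ := by
    rw [← hX.init, integral_map (hX.meas 0).aemeasurable (hf.pow_const 2).aestronglyMeasurable]
  have hI3 : Integrable (fun ω => f (X 0 ω) ^ 2) μ :=
    E11_int ((hf.comp (hX.meas 0)).pow_const 2) (M := 1) (fun x => by
      rw [abs_pow]
      exact pow_le_one₀ (abs_nonneg _) (hb _))
  have hI4 : Integrable (fun ω => f (X 0 ω) * f (X (1 / 2 ^ j) ω)) μ :=
    E11_int ((hf.comp (hX.meas 0)).mul (hf.comp (hX.meas _))) (M := 1) (fun x => by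
      rw [abs_mul]
      exact mul_le_one₀ (hb _) (abs_nonneg _) (hb _))
  have e3 : ∫ ω, f (X 0 ω) * (f (X 0 ω) - f (X (1 / 2 ^ j) ω)) ∂μ =
      ∫ ω, f (X 0 ω) ^ 2 ∂μ - ∫ ω, f (X 0 ω) * f (X (1 / 2 ^ j) ω) ∂μ := by
    rw [← integral_sub hI3 hI4]
    refine integral_congr_ae (Eventually.of_forall fun x => ?_)
    simp only
    ring
  rw [e1, h4, e3, e2]
  ring

theorem E11_ar {a l δ EE EO K1 K2 c q P : ℝ} (hl0 : 0 < l) (hl1 : l < 1) (hδ : 0 < δ)
    (hc : 1 ≤ c) (ha : 0 ≤ a) (hEO : 0 ≤ EO) (hEn : EE ≤ c * EO) (hK1 : 0 ≤ K1) (hK2 : 0 ≤ K2)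
    (i3 : P * (1 - l) ≤ (1 - l) * a + l * (δ * EE + δ ^ 2 * K1))
    (i4 : (1 - l) * a + l * (δ * EO - δ ^ 2 * K2) ≤ (1 - l) * q)
    (i5 : l * δ ^ 2 ≤ δ * (1 - l)) : P * (1 - l) ≤ (c * q + δ * (c * K2 + K1)) * (1 - l) := by
  have hl' : 0 < 1 - l := by linarith
  have j1 : l * (δ * EE) ≤ c * (l * (δ * EO)) := by
    calc l * (δ * EE) ≤ l * (δ * (c * EO)) := by gcongr
      _ = _ := by ring
  have j2 : (1 - l) * a ≤ c * ((1 - l) * a) := le_mul_of_one_le_left (by positivity) hc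
  have j0 : (1 - l) * a + l * (δ * EO) ≤ (1 - l) * q + l * δ ^ 2 * K2 := by linarith
  have j3 : c * ((1 - l) * a + l * (δ * EO)) ≤ c * ((1 - l) * q + l * δ ^ 2 * K2) :=
    mul_le_mul_of_nonneg_left j0 (by linarith)
  have j4 : c * (l * δ ^ 2 * K2) ≤ c * (δ * (1 - l) * K2) := by gcongr
  have j5 : l * δ ^ 2 * K1 ≤ δ * (1 - l) * K1 := by gcongr
  linarith

theorem e11 (h1c : St_E1c) (h5b : St_E5b) (h6 : St_E6) (h7 : St_E7) (h9a : St_E9a) (h9b : St_E9b)
    (h9c : St_E9c) (h10 : St_E10) : St_E11 := by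
  classical
  intro I hI P C hP hsym hsum hC Ω Ω' mΩ mΩ' μ μ' hμ hμ' X Y hX hY S O hO T T'
  obtain ⟨gO, -, hgC, hLO, hEnO⟩ := h9a I hI
  obtain ⟨gE, hEC, hLE, hEnE⟩ := h9b I hI P C hP hsym hsum hC
  obtain ⟨gS, -, -, hLS, -⟩ := h9a ↥S inferInstance
  have hLO' : gO.L = Lord := by funext f ω; exact hLO f ω
  have hLE' : gE.L = Lex P := by funext f ω; exact hLE f ω
  have hLS' : gS.L = Lord := by funext f ω; exact hLS f ω
  have hX' : IsDyn gE.L μ X := by rw [hLE']; exact hX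
  have hY' : IsDyn gO.L μ' Y := by rw [hLO']; exact hY
  set Z : ℝ → Ω' → ↥S → Bool := fun t ω x => Y t ω x with hZdef
  have hZ' : IsDyn gS.L μ' Z := by rw [hLS']; exact h9c I S Ω' μ' Y hY
  set O' : Set (↥S → Bool) := {η | ∃ ω ∈ O, (fun x : ↥S => ω x) = η} with hO'
  have hmem : ∀ ω : I → Bool, (fun x : ↥S => ω x) ∈ O' ↔ ω ∈ O := by
    intro ω
    constructor
    · rintro ⟨ω', h1, h2⟩
      refine (hO ω' ω fun x hx => ?_).mp h1
      exact congrFun h2 ⟨x, hx⟩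
    · intro h
      exact ⟨ω, h, rfl⟩
  have hO'm : MeasurableSet O' := (Set.to_countable O').measurableSet
  obtain ⟨hOm, -, -, -, hT1, hT2⟩ := h10 I Ω μ (Lex P) X hX S O hO T
  obtain ⟨-, -, -, -, hT3, hT4⟩ := h10 I Ω' μ' Lord Y hY S O hO T'
  set k := S.card with hk
  set K1 : ℝ := (2 * (gE.C * k)) ^ 2 with hK1
  set K2 : ℝ := (2 * (gO.C * k)) ^ 2 with hK2
  set c : ℝ := max 1 (4 * C) with hc
  have hc1 : 1 ≤ c := le_max_left _ _
  have hc4 : 4 * C ≤ c := le_max_right _ _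
  -- the main inequality for every `j`
  have hmain : ∀ j : ℕ, μ.real (HitD X j (T * 2 ^ j) O) * Real.exp (-T) ≤
      c * (μ'.real (Hit Y T' O) + Real.exp (-T')) + (1 / 2 ^ j) * (c * K2 + K1) := by
    intro j
    set δ : ℝ := 1 / 2 ^ j with hδ
    have hδ0 : 0 < δ := by positivity
    set l : ℝ := Real.exp (-δ) with hl
    have hl0 : 0 < l := Real.exp_pos _
    have hl1 : l < 1 := by
      rw [hl, Real.exp_lt_one_iff]
      linarith
    have hpow : ∀ N : ℕ, l ^ (N * 2 ^ j) = Real.exp (-N) := by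
      intro N
      rw [hl, ← Real.exp_nat_mul]
      congr 1
      rw [hδ]
      push_cast
      field_simp
    -- ordinary side
    obtain ⟨hr1, hr2, -⟩ := h5b ↥S gS Ω' μ' Z hZ' j
    obtain ⟨-, h, hhm, hh01, hhO, hhn⟩ := h6 (↥S → Bool) (Pc ↥S)
      (condDistrib (Z (1 / 2 ^ j)) (Z 0) μ') hr1 Ω' μ' _ _ hr2 O' hO'm l hl0 hl1
    set f : (I → Bool) → ℝ := fun ω => h (fun x : ↥S => ω x) with hf
    have hfCyl : Cyl k f := by
      refine ⟨⟨S, le_rfl, ?_⟩, ?_⟩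
      · intro ω ω' hω
        simp only [hf]
        congr 1
        funext x
        exact hω x.1 x.2
      · intro ω
        rw [abs_of_nonneg (hh01 _).1]
        exact (hh01 _).2
    have hfm : Measurable f := (h1c I gO k f hfCyl).1
    have hhb : ∀ η, |h η| ≤ 1 := fun η => by
      rw [abs_of_nonneg (hh01 _).1]
      exact (hh01 _).2
    have hq1 := E11_quad h5b gS μ' Z hZ' j h hhm hhb l
    have hn1 := hhn (T' * 2 ^ j)
    rw [hq1, hpow] at hn1
    have hset : {ω | ∃ k ≤ T' * 2 ^ j, (fun k : ℕ => Z ((k : ℝ) / 2 ^ j)) k ω ∈ O'} =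
        HitD Y j (T' * 2 ^ j) O := by
      ext ω
      simp only [HitD, Set.mem_ofPred_eq]
      refine exists_congr fun i => and_congr_right fun _ => ?_
      exact hmem _
    rw [hset] at hn1
    have ha1 : ∫ x, h x ^ 2 ∂(Pc ↥S) = ∫ x, f x ^ 2 ∂(Pc I) := by
      have e1 : ∫ x, h x ^ 2 ∂(Pc ↥S) = ∫ ω, h (Z 0 ω) ^ 2 ∂μ' := by
        rw [← hZ'.init,
          integral_map (hZ'.meas 0).aemeasurable (hhm.pow_const 2).aestronglyMeasurable]
      have e2 : ∫ x, f x ^ 2 ∂(Pc I) = ∫ ω, f (Y 0 ω) ^ 2 ∂μ' := by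
        rw [← hY'.init,
          integral_map (hY'.meas 0).aemeasurable (hfm.pow_const 2).aestronglyMeasurable]
      rw [e1, e2]
    rw [ha1] at hn1
    have hD1 := h7 I gO Ω' μ' Y hY' k f hfCyl δ hδ0.le
    -- exclusion side
    obtain ⟨hs1, hs2, -⟩ := h5b I gE Ω μ X hX' j
    obtain ⟨hE, -⟩ := h6 (I → Bool) (Pc I)
      (condDistrib (X (1 / 2 ^ j)) (X 0) μ) hs1 Ω μ _ _ hs2 O hOm l hl0 hl1
    have hE1 := hE f hfm (fun x => hh01 _) (fun x hx => hhO _ ((hmem x).mpr hx)) (T * 2 ^ j)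
    rw [E11_quad h5b gE μ X hX' j f hfm hfCyl.2 l, hpow] at hE1
    have hset2 : {ω | ∃ k ≤ T * 2 ^ j, (fun k : ℕ => X ((k : ℝ) / 2 ^ j)) k ω ∈ O} =
        HitD X j (T * 2 ^ j) O := rfl
    rw [hset2] at hE1
    have hD2 := h7 I gE Ω μ X hX' k f hfCyl δ hδ0.le
    -- energies
    obtain ⟨-, hen⟩ := hEnE k f hfCyl
    have heo := hEnO k f hfCyl
    set D : ℝ := ∑' x : I, ∫ ω, (f (Function.update ω x (!ω x)) - f ω) ^ 2 ∂(Pc I) with hD
    have hD0 : 0 ≤ D := tsum_nonneg fun x => integral_nonneg fun ω => sq_nonneg _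
    set a : ℝ := ∫ x, f x ^ 2 ∂(Pc I) with ha
    have ha0 : 0 ≤ a := integral_nonneg fun ω => sq_nonneg _
    set DO : ℝ := ∫ ω, f (Y 0 ω) * (f (Y 0 ω) - f (Y δ ω)) ∂μ' with hDO
    set DE : ℝ := ∫ ω, f (X 0 ω) * (f (X 0 ω) - f (X δ ω)) ∂μ with hDE
    rw [abs_le] at hD1 hD2
    have hp' := hT4 j
    set pj := μ.real (HitD X j (T * 2 ^ j) O) with hpj
    set pj' := μ'.real (HitD Y j (T' * 2 ^ j) O) with hpj'
    set p' := μ'.real (Hit Y T' O) with hpp'
    have hl2 : l * δ ≤ 1 - l := by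
      have h1 := Real.add_one_le_exp δ
      have h2 : l * Real.exp δ = 1 := by
        rw [hl, ← Real.exp_add]
        simp
      nlinarith [mul_le_mul_of_nonneg_left h1 hl0.le]
    have hK1' : 0 ≤ K1 := sq_nonneg _
    have hK2' : 0 ≤ K2 := sq_nonneg _
    have hEnO0 : 0 ≤ gO.En f := by rw [heo]; positivity
    have hEn : gE.En f ≤ c * gO.En f := by
      rw [heo]
      calc gE.En f ≤ C * D := hen
        _ = 4 * C * (1 / 4 * D) := by ring
        _ ≤ c * (1 / 4 * D) := by gcongr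
    -- combine
    have i1 : DE ≤ δ * gE.En f + δ ^ 2 * K1 := by linarith [hD2.2]
    have i2 : δ * gO.En f - δ ^ 2 * K2 ≤ DO := by linarith [hD1.1]
    have i3 : pj * Real.exp (-T) * (1 - l) ≤ (1 - l) * a + l * (δ * gE.En f + δ ^ 2 * K1) :=
      hE1.trans (by gcongr)
    have i4 : (1 - l) * a + l * (δ * gO.En f - δ ^ 2 * K2) ≤ (1 - l) * (p' + Real.exp (-T')) := by
      have : (1 - l) * (pj' + Real.exp (-T')) ≤ (1 - l) * (p' + Real.exp (-T')) := by
        apply mul_le_mul_of_nonneg_left _ (by linarith)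
        linarith
      refine le_trans ?_ (hn1.trans this)
      gcongr
    have i5 : l * δ ^ 2 ≤ δ * (1 - l) := by nlinarith
    have hl1' : 0 < 1 - l := by linarith
    have i6 := E11_ar hl0 hl1 hδ0 hc1 ha0 hEnO0 hEn hK1' hK2' i3 i4 i5
    exact le_of_mul_le_mul_right i6 hl1'
  -- the limit
  have hlim : Tendsto (fun j : ℕ => (1 / 2 ^ j : ℝ) * (c * K2 + K1)) atTop (𝓝 0) := by
    have h1 : Tendsto (fun j : ℕ => ((1:ℝ) / 2) ^ j) atTop (𝓝 0) :=
      tendsto_pow_atTop_nhds_zero_of_lt_one (by norm_num) (by norm_num)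
    have h2 : Tendsto (fun j : ℕ => ((1:ℝ) / 2) ^ j * (c * K2 + K1)) atTop
        (𝓝 (0 * (c * K2 + K1))) := h1.mul_const _
    rw [zero_mul] at h2
    refine h2.congr fun j => ?_
    rw [div_pow, one_pow]
  have hfin : μ.real (Hit X T O) * Real.exp (-T) ≤
      c * (μ'.real (Hit Y T' O) + Real.exp (-T')) + 0 := by
    refine le_of_tendsto_of_tendsto (hT1.mul_const _) (tendsto_const_nhds.add hlim)
      (Eventually.of_forall hmain)
  rw [add_zero] at hfin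
  have he : Real.exp (T:ℝ) * Real.exp (-(T:ℝ)) = 1 := by rw [← Real.exp_add]; simp
  calc μ.real (Hit X T O) = Real.exp T * (μ.real (Hit X T O) * Real.exp (-T)) := by
        rw [mul_left_comm, he, mul_one]
    _ ≤ Real.exp T * (c * (μ'.real (Hit Y T' O) + Real.exp (-T'))) := by gcongr
    _ = _ := by ring

end H934X
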