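import Pool.Agent.H934R4.EX.Props

set_option autoImplicit false

namespace H934X

open MeasureTheory Filter Topology
open scoped ENNReal

theorem E12_step {E : Type} (c : Set E → ℝ≥0∞)
    (hcont : ∀ s : ℕ → Set E, Monotone s → c (⋃ n, s n) = ⨆ n, c (s n))
    (f : (ℕ → ℕ) → E) (a : ℝ≥0∞) (k : ℕ) (b : ℕ → ℕ)
    (h : a < c (f '' {α | ∀ i < k, α i ≤ b i})) :
    ∃ N : ℕ, a < c (f '' {α | ∀ i < k + 1, α i ≤ Function.update b k N i}) := by
  have e : f '' {α | ∀ i < k, α i ≤ b i} =
      ⋃ N : ℕ, f '' {α | ∀ i < k + 1, α i ≤ Function.update b k N i} := by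
    rw [← Set.image_iUnion]
    congr 1
    ext α
    simp only [Set.mem_iUnion, Set.mem_ofPred_eq]
    constructor
    · intro h
      refine ⟨α k, fun i hi => ?_⟩
      rcases Nat.lt_succ_iff_lt_or_eq.mp hi with h1 | h1
      · rw [Function.update_of_ne (by omega)]
        exact h i h1
      · subst h1
        rw [Function.update_self]
    · rintro ⟨N, h⟩ i hi
      have := h i (by omega)
      rwa [Function.update_of_ne (by omega)] at this
  have hmono : Monotone (fun N : ℕ => f '' {α | ∀ i < k + 1, α i ≤ Function.update b k N i}) := by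
    intro N N' hN
    apply Set.image_mono
    intro α hα i hi
    refine (hα i hi).trans ?_
    by_cases h1 : i = k
    · subst h1
      rw [Function.update_self, Function.update_self]
      exact hN
    · rw [Function.update_of_ne h1, Function.update_of_ne h1]
  rw [e, hcont _ hmono] at h
  exact lt_iSup_iff.mp h

theorem e12 : St_E12 := by
  classical
  intro E _ c hmono hcont A hA a ha
  rw [AnalyticSet] at hA
  rcases hA with rfl | ⟨f, hf, rfl⟩
  · exact ⟨∅, isCompact_empty, le_rfl, fun U _ _ => ha.trans_le (hmono (Set.empty_subset _))⟩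
  -- the bounds
  have h0 : a < c (f '' {α | ∀ i < 0, α i ≤ (fun _ : ℕ => 0) i}) := by
    have : {α : ℕ → ℕ | ∀ i < 0, α i ≤ (fun _ : ℕ => 0) i} = Set.univ := by
      ext α
      simp
    rw [this, Set.image_univ]
    exact ha
  let B : (k : ℕ) → {b : ℕ → ℕ // a < c (f '' {α | ∀ i < k, α i ≤ b i})} := fun k =>
    Nat.rec ⟨fun _ => 0, h0⟩ (fun k b =>
      ⟨Function.update b.1 k (E12_step c hcont f a k b.1 b.2).choose,
        (E12_step c hcont f a k b.1 b.2).choose_spec⟩) k
  have hB : ∀ k, (B (k + 1)).1 =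
      Function.update (B k).1 k (E12_step c hcont f a k (B k).1 (B k).2).choose := fun k => rfl
  have hstab : ∀ k i, i < k → (B k).1 i = (B (i + 1)).1 i := by
    intro k
    induction k with
    | zero => intro i hi; omega
    | succ k ih =>
      intro i hi
      rcases Nat.lt_succ_iff_lt_or_eq.mp hi with h1 | h1
      · rw [hB, Function.update_of_ne (by omega)]
        exact ih i h1
      · subst h1
        rfl
  set b : ℕ → ℕ := fun i => (B (i + 1)).1 i with hb
  have hk : ∀ k, a < c (f '' {α | ∀ i < k, α i ≤ b i}) := by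
    intro k
    have h1 := (B k).2
    have h2 : {α : ℕ → ℕ | ∀ i < k, α i ≤ (B k).1 i} = {α | ∀ i < k, α i ≤ b i} := by
      ext α
      simp only [Set.mem_ofPred_eq]
      refine forall_congr' fun i => ?_
      constructor
      · intro h hi
        exact (h hi).trans (hstab k i hi).le
      · intro h hi
        exact (h hi).trans (hstab k i hi).ge
    rwa [h2] at h1
  set Cc : Set (ℕ → ℕ) := {α | ∀ i, α i ≤ b i} with hCc
  have hCcomp : IsCompact Cc := by
    have : Cc = Set.pi Set.univ (fun i => Set.Iic (b i)) := by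
      ext α
      simp only [hCc, Set.mem_ofPred_eq, Set.mem_pi, Set.mem_univ, true_implies, Set.mem_Iic]
    rw [this]
    exact isCompact_univ_pi (fun i => (Set.finite_Iic (b i)).isCompact)
  refine ⟨f '' Cc, hCcomp.image hf, Set.image_subset_range _ _, ?_⟩
  intro U hU hKU
  have hV : IsOpen (f ⁻¹' U) := hU.preimage hf
  have hCV : Cc ⊆ f ⁻¹' U := fun α hα => hKU ⟨α, hα, rfl⟩
  obtain ⟨k, hkU⟩ : ∃ k, {α : ℕ → ℕ | ∀ i < k, α i ≤ b i} ⊆ f ⁻¹' U := by
    by_contra hcon
    push Not at hcon
    have h1 : ∀ k, ∃ α : ℕ → ℕ, (∀ i < k, α i ≤ b i) ∧ α ∉ f ⁻¹' U := by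
      intro k
      obtain ⟨α, hα, hα'⟩ := Set.not_subset.mp (hcon k)
      exact ⟨α, hα, hα'⟩
    choose α hα hα' using h1
    have h2 : ∀ k, (fun i => min (α k i) (b i)) ∈ Cc := fun k i => min_le_right _ _
    obtain ⟨β, hβ, φ, hφ, hlim⟩ := hCcomp.tendsto_subseq h2
    have h3 : Tendsto (fun j => α (φ j)) atTop (𝓝 β) := by
      rw [tendsto_pi_nhds] at hlim ⊢
      intro i
      refine (hlim i).congr' ?_
      filter_upwards [eventually_gt_atTop i] with j hj
      have h4 : i < φ j := hj.trans_le (hφ.id_le j)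
      simp only [Function.comp]
      exact min_eq_left (hα (φ j) i h4)
    have h5 := h3.eventually (hV.mem_nhds (hCV hβ))
    obtain ⟨j, hj⟩ := h5.exists
    exact hα' _ hj
  exact (hk k).trans_le (hmono (Set.image_subset_iff.mpr hkU))

end H934X
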