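import Pool.Agent.H934R4.EX.Props

set_option autoImplicit false

namespace H934X

open MeasureTheory ProbabilityTheory Filter Topology
open scoped ENNReal

theorem E14_cyl {I : Type} (K : Set (I → Bool)) (S : Finset I) : CylSet S (Nb K S) := by
  intro ω ω' h
  constructor
  · rintro ⟨η, hη, h1⟩
    exact ⟨η, hη, fun x hx => (h x hx).symm.trans (h1 x hx)⟩
  · rintro ⟨η, hη, h1⟩
    exact ⟨η, hη, fun x hx => (h x hx).trans (h1 x hx)⟩

theorem E14_polish (I : Type) [Countable I] : PolishSpace (I → Bool) := by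
  let _ : MetricSpace (I → Bool) := TopologicalSpace.metrizableSpaceMetric (I → Bool)
  have : CompleteSpace (I → Bool) := complete_of_compact
  infer_instance

theorem e14 (h10 : St_E10) (h11 : St_E11) (h12 : St_E12) (h13 : St_E13) : St_E14 := by
  intro I hI P C hP hsym hsum Ω Ω' mΩ mΩ' μ μ' hμ hμ' X Y hX hY A hA hA0 hpos
  set C' : ℝ := max C 0 with hC'
  have hsum' : ∀ x, Summable (P x) ∧ ∑' y, P x y ≤ C' :=
    fun x => ⟨(hsum x).1, (hsum x).2.trans (le_max_left _ _)⟩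
  have hC0 : 0 ≤ C' := le_max_right _ _
  -- choice of `T`
  have hU : {ω | ∃ t : ℝ, 0 ≤ t ∧ X t ω ∈ A} = ⋃ T : ℕ, Hit X T A := by
    ext ω
    simp only [Set.mem_iUnion, Hit, Set.mem_ofPred_eq, Set.mem_Icc]
    constructor
    · rintro ⟨t, h0, h1⟩
      obtain ⟨n, hn⟩ := exists_nat_ge t
      exact ⟨n, t, ⟨h0, hn⟩, h1⟩
    · rintro ⟨n, t, ⟨h0, -⟩, h1⟩
      exact ⟨t, h0, h1⟩
  obtain ⟨T, hT⟩ : ∃ T : ℕ, 0 < μ (Hit X T A) := by
    by_contra hcon
    push Not at hcon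
    have h1 : μ (⋃ T : ℕ, Hit X T A) = 0 := measure_iUnion_null fun T => le_antisymm (hcon T) bot_le
    rw [hU, h1] at hpos
    exact lt_irrefl _ hpos
  -- Choquet
  obtain ⟨a, ha0, haT⟩ := exists_between hT
  have := E14_polish I
  have hA' : AnalyticSet A := hA.analyticSet
  obtain ⟨K, hK, hKA, hKU⟩ := h12 (I → Bool) (fun B => μ (Hit X T B))
    (fun B B' hB => measure_mono fun ω ⟨t, ht, h⟩ => ⟨t, ht, hB h⟩)
    (fun s hs => by
      have e : Hit X T (⋃ n, s n) = ⋃ n, Hit X T (s n) := by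
        ext ω
        simp only [Hit, Set.mem_iUnion, Set.mem_ofPred_eq]
        constructor
        · rintro ⟨t, ht, n, h⟩
          exact ⟨n, t, ht, h⟩
        · rintro ⟨n, t, ht, h⟩
          exact ⟨t, ht, n, h⟩
      rw [e]
      exact Monotone.measure_iUnion fun n n' hn ω ⟨t, ht, h⟩ => ⟨t, ht, hs hn h⟩) A hA' a haT
  have hK0 : (Pc I) K = 0 := measure_mono_null hKA hA0
  have hat : a ≠ ∞ := (haT.trans_le (prob_le_one)).ne_top
  have ha1 : 0 < a.toReal := ENNReal.toReal_pos ha0.ne' hat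
  set c : ℝ := max 1 (4 * C') with hc
  have hc1 : 0 < c := lt_of_lt_of_le one_pos (le_max_left _ _)
  have hE : 0 < Real.exp T * c := by positivity
  -- choice of `T'`
  obtain ⟨T', hT'⟩ : ∃ T' : ℕ, Real.exp T * c * Real.exp (-(T' : ℝ)) ≤ a.toReal / 2 := by
    have h1 : Tendsto (fun n : ℕ => Real.exp T * c * Real.exp (-(n : ℝ))) atTop
        (𝓝 (Real.exp T * c * 0)) :=
      (Real.tendsto_exp_neg_atTop_nhds_zero.comp tendsto_natCast_atTop_atTop).const_mul _
    rw [mul_zero] at h1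
    exact (h1.eventually (eventually_le_nhds (by positivity))).exists
  set b : ℝ := a.toReal / 2 / (Real.exp T * c) with hb
  have hb0 : 0 < b := by positivity
  have hmain : ∀ S : Finset I, ENNReal.ofReal b ≤ μ' (Hit Y T' (Nb K S)) := by
    intro S
    obtain ⟨-, hcl, -⟩ := h10 I Ω μ (Lex P) X hX S (Nb K S) (E14_cyl K S) T
    have h1 : a < μ (Hit X T (Nb K S)) :=
      hKU _ hcl.isOpen (fun ω hω => ⟨ω, hω, fun x _ => rfl⟩)
    have h2 : a.toReal ≤ μ.real (Hit X T (Nb K S)) :=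
      ENNReal.toReal_mono (measure_ne_top _ _) h1.le
    have h3 := h11 I P C' hP hsym hsum' hC0 Ω Ω' μ μ' X Y hX hY S (Nb K S) (E14_cyl K S) T T'
    have h4 : b ≤ μ'.real (Hit Y T' (Nb K S)) := by
      rw [hb, div_le_iff₀ hE]
      have h5 := h2.trans h3
      rw [mul_add] at h5
      linarith
    exact ENNReal.ofReal_le_of_le_toReal h4
  have h5 := h13 I Ω' μ' Y hY K hK hK0 T' (ENNReal.ofReal b) hmain
  have h6 : 0 < μ' (Hit Y T' K) := lt_of_lt_of_le (ENNReal.ofReal_pos.mpr hb0) h5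
  refine h6.trans_le (measure_mono ?_)
  rintro ω ⟨t, ht, h⟩
  exact ⟨t, ht.1, hKA h⟩

end H934X
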