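import Pool.Agent.H934R4.EX.Main

set_option autoImplicit false

namespace H934X

open MeasureTheory ProbabilityTheory Filter Topology
open scoped ENNReal

/-- Quantitative comparison for all Borel null sets. -/
theorem e15 (h10 : St_E10) (h11 : St_E11) (h12 : St_E12) (h13 : St_E13) :
    ∀ (I : Type) [Countable I] (P : I → I → ℝ) (C : ℝ), (∀ x y, 0 ≤ P x y) →
  (∀ x y, P x y = P y x) → (∀ x, Summable (P x) ∧ ∑' y, P x y ≤ C) → 0 ≤ C →
  ∀ (Ω Ω' : Type) [MeasurableSpace Ω] [MeasurableSpace Ω'] (μ : Measure Ω) (μ' : Measure Ω')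
    [IsProbabilityMeasure μ] [IsProbabilityMeasure μ'] (X : ℝ → Ω → I → Bool)
    (Y : ℝ → Ω' → I → Bool), IsDyn (Lex P) μ X → IsDyn Lord μ' Y →
  ∀ A : Set (I → Bool), MeasurableSet A → (Pc I) A = 0 → ∀ T T' : ℕ,
    μ.real (Hit X T A) ≤ Real.exp T * max 1 (4 * C) * (μ'.real (Hit Y T' A) + Real.exp (-T')) := by
  intro I hI P C hP hsym hsum hC0 Ω Ω' mΩ mΩ' μ μ' hμ hμ' X Y hX hY A hA hA0 T T'
  have := E14_polish I
  have hA' : AnalyticSet A := hA.analyticSet
  set c : ℝ := max 1 (4 * C) with hc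
  have hc1 : 0 < c := lt_of_lt_of_le one_pos (le_max_left _ _)
  have hE : 0 < Real.exp T * c := by positivity
  have hkey : ∀ a : ℝ≥0∞, a < μ (Hit X T A) →
      a.toReal ≤ Real.exp T * c * (μ'.real (Hit Y T' A) + Real.exp (-T')) := by
    intro a haT
    obtain ⟨K, hK, hKA, hKU⟩ := h12 (I → Bool) (fun B => μ (Hit X T B))
      (fun B B' hB => measure_mono fun ω ⟨t, ht, h⟩ => ⟨t, ht, hB h⟩)
      (fun s hs => by
        have e : Hit X T (⋃ n, s n) = ⋃ n, Hit X T (s n) := by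
          ext ω
          simp only [Hit, Set.mem_iUnion, Set.mem_ofPred_eq]
          constructor
          · rintro ⟨t, ht, n, h⟩
            exact ⟨n, t, ht, h⟩
          · rintro ⟨n, t, ht, h⟩
            exact ⟨t, ht, n, h⟩
        rw [e]
        exact Monotone.measure_iUnion fun n n' hn ω ⟨t, ht, h⟩ => ⟨t, ht, hs hn h⟩) A hA' a haT
    have hK0 : (Pc I) K = 0 := measure_mono_null hKA hA0
    set b : ℝ := a.toReal / (Real.exp T * c) - Real.exp (-T') with hb
    have hmain : ∀ S : Finset I, ENNReal.ofReal b ≤ μ' (Hit Y T' (Nb K S)) := by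
      intro S
      obtain ⟨-, hcl, -⟩ := h10 I Ω μ (Lex P) X hX S (Nb K S) (E14_cyl K S) T
      have h1 : a < μ (Hit X T (Nb K S)) :=
        hKU _ hcl.isOpen (fun ω hω => ⟨ω, hω, fun x _ => rfl⟩)
      have h2 : a.toReal ≤ μ.real (Hit X T (Nb K S)) :=
        ENNReal.toReal_mono (measure_ne_top _ _) h1.le
      have h3 := h11 I P C hP hsym hsum hC0 Ω Ω' μ μ' X Y hX hY S (Nb K S) (E14_cyl K S) T T'
      have h4 : b ≤ μ'.real (Hit Y T' (Nb K S)) := by
        have h5 := h2.trans h3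
        have h6 : a.toReal / (Real.exp T * c) ≤
            μ'.real (Hit Y T' (Nb K S)) + Real.exp (-T') := by
          rw [div_le_iff₀ hE]
          linarith
        rw [hb]
        linarith
      exact ENNReal.ofReal_le_of_le_toReal h4
    have h5 := h13 I Ω' μ' Y hY K hK hK0 T' (ENNReal.ofReal b) hmain
    have h6 : ENNReal.ofReal b ≤ μ' (Hit Y T' A) :=
      h5.trans (measure_mono fun ω ⟨t, ht, h⟩ => ⟨t, ht, hKA h⟩)
    have h7 : b ≤ μ'.real (Hit Y T' A) :=
      (ENNReal.ofReal_le_iff_le_toReal (measure_ne_top _ _)).mp h6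
    have h8 : a.toReal / (Real.exp T * c) ≤ μ'.real (Hit Y T' A) + Real.exp (-T') := by
      rw [hb] at h7
      linarith
    rw [div_le_iff₀ hE] at h8
    linarith
  by_contra hcon
  push Not at hcon
  have hpos : 0 ≤ Real.exp T * c * (μ'.real (Hit Y T' A) + Real.exp (-T')) := by positivity
  have h1 : ENNReal.ofReal (Real.exp T * c * (μ'.real (Hit Y T' A) + Real.exp (-T'))) <
      μ (Hit X T A) := by
    rw [ENNReal.ofReal_lt_iff_lt_toReal hpos (measure_ne_top _ _)]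
    exact hcon
  obtain ⟨a, ha1, ha2⟩ := exists_between h1
  have h2 := hkey a ha2
  have h3 : a ≤ ENNReal.ofReal (Real.exp T * c * (μ'.real (Hit Y T' A) + Real.exp (-T'))) := by
    rw [ENNReal.le_ofReal_iff_toReal_le (ha2.trans_le prob_le_one).ne_top hpos]
    exact h2
  exact lt_irrefl _ (ha1.trans_le h3)

/-- The comparison, without hypotheses. -/
theorem main_quant : ∀ (I : Type) [Countable I] (P : I → I → ℝ) (C : ℝ), (∀ x y, 0 ≤ P x y) →
  (∀ x y, P x y = P y x) → (∀ x, Summable (P x) ∧ ∑' y, P x y ≤ C) → 0 ≤ C →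
  ∀ (Ω Ω' : Type) [MeasurableSpace Ω] [MeasurableSpace Ω'] (μ : Measure Ω) (μ' : Measure Ω')
    [IsProbabilityMeasure μ] [IsProbabilityMeasure μ'] (X : ℝ → Ω → I → Bool)
    (Y : ℝ → Ω' → I → Bool), IsDyn (Lex P) μ X → IsDyn Lord μ' Y →
  ∀ A : Set (I → Bool), MeasurableSet A → (Pc I) A = 0 → ∀ T T' : ℕ,
    μ.real (Hit X T A) ≤
      Real.exp T * max 1 (4 * C) * (μ'.real (Hit Y T' A) + Real.exp (-T')) := by
  have h1d : St_E1d := e1d e1a e1b e1c
  have h2 : St_E2 := e2 e1a e1b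
  have h2b : St_E2b := e2b h2
  have h2c : St_E2c := e2c e1a
  have h3 : St_E3 := e3 e1a e1b
  have h4a : St_E4a := e4a e1c h1d
  have h4b : St_E4b := e4b e1c e1e h2b h2c h3 h4a
  have h5 : St_E5 := e5 e1e h2b h2c h4a h4b
  have h5b : St_E5b := e5b h4b h5
  have h7 : St_E7 := e7 e1c h4b
  have h8 : St_E8 := e8 h1d
  have h9a : St_E9a := e9a h8
  have h9b : St_E9b := e9b h8 e1c
  exact e15 e10 (e11 e1c h5b e6 h7 h9a h9b e9c e10) e12 (e13 h4b h9a e10)

end H934X
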