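import Pool.Agent.H934R4.EX.Props

/-!
Task X1 (helper234): basic facts on the generators.
-/

set_option autoImplicit false

namespace H934X

open MeasureTheory ProbabilityTheory Filter Topology
open scoped ENNReal

variable {I : Type}

theorem e1a : St_E1a := by
  intro I g k f i hf
  obtain ⟨⟨S, hS, hfS⟩, hf1⟩ := hf
  obtain ⟨S', hS', h⟩ := g.dep i S
  exact ⟨⟨S', hS'.trans hS, h f hfS⟩, fun ω => hf1 _⟩

open Classical in
/-- The rate of the changes of the bits of `S` (with multiplicity). -/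
noncomputable def X1_V (g : Gen I) (S : Finset I) (i : g.ι) : ℝ :=
  ∑ z ∈ S, if z ∈ g.tch i then g.r i else 0

theorem X1_V_nonneg (g : Gen I) (S : Finset I) (i : g.ι) : 0 ≤ X1_V g S i := by
  apply Finset.sum_nonneg
  intro z _
  split_ifs
  · exact g.r_nonneg i
  · exact le_rfl

theorem X1_V_summable (g : Gen I) (S : Finset I) : Summable (X1_V g S) :=
  summable_sum fun z _ => g.summ z

theorem X1_V_tsum (g : Gen I) {S : Finset I} {k : ℕ} (hS : S.card ≤ k) :
    ∑' i, X1_V g S i ≤ g.C * k := by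
  unfold X1_V
  rw [Summable.tsum_finsetSum fun z _ => g.summ z]
  calc _ ≤ ∑ _z ∈ S, g.C := Finset.sum_le_sum fun z _ => g.rate z
    _ = S.card * g.C := by rw [Finset.sum_const, nsmul_eq_mul]
    _ ≤ g.C * k := by
        rw [mul_comm]
        exact mul_le_mul_of_nonneg_left (by exact_mod_cast hS) g.C_nonneg

theorem X1_comp_eq (g : Gen I) {S : Finset I} {f : (I → Bool) → ℝ}
    (hf : DependsOn f (S : Set I)) {i : g.ι} (h : ∀ z ∈ S, z ∉ g.tch i) : f ∘ g.φ i = f := by
  funext ω
  exact hf fun z hz => g.loc i ω z (h z hz)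

theorem X1_term (g : Gen I) {S : Finset I} {k : ℕ} {f : (I → Bool) → ℝ} (hf : Cyl k f)
    (hfS : DependsOn f (S : Set I)) {a : ((I → Bool) → ℝ) → ℝ} {M : ℝ} (hM : 0 ≤ M)
    (ha : ∀ f, Cyl k f → |a f| ≤ M) (i : g.ι) :
    g.r i * |a (f ∘ g.φ i) - a f| ≤ 2 * M * X1_V g S i := by
  by_cases h : ∀ z ∈ S, z ∉ g.tch i
  · rw [X1_comp_eq g hfS h]
    have := X1_V_nonneg g S i
    simp only [sub_self, abs_zero, mul_zero]
    positivity
  · push Not at h
    obtain ⟨z, hz, hzi⟩ := h
    have h1 : g.r i ≤ X1_V g S i := by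
      classical
      have := Finset.single_le_sum (f := fun z => open Classical in if z ∈ g.tch i then g.r i else 0)
        (fun z _ => by
          split_ifs
          · exact g.r_nonneg i
          · exact le_rfl) hz
      refine le_trans ?_ this
      rw [if_pos hzi]
    have h2 : |a (f ∘ g.φ i) - a f| ≤ 2 * M := by
      have h3 := ha _ (e1a I g k f i hf)
      have h4 := ha _ hf
      calc |a (f ∘ g.φ i) - a f| ≤ |a (f ∘ g.φ i)| + |a f| := abs_sub _ _
        _ ≤ 2 * M := by linarith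
    calc g.r i * |a (f ∘ g.φ i) - a f| ≤ X1_V g S i * (2 * M) :=
          mul_le_mul h1 h2 (abs_nonneg _) (X1_V_nonneg g S i)
      _ = _ := by ring

theorem e1b : St_E1b := by
  intro I g k a M hM ha f hf
  obtain ⟨⟨S, hS, hfS⟩, hf1⟩ := id hf
  have hterm := X1_term g hf hfS hM ha
  have hsum : Summable (fun i => g.r i * |a (f ∘ g.φ i) - a f|) :=
    Summable.of_nonneg_of_le (fun i => mul_nonneg (g.r_nonneg i) (abs_nonneg _)) hterm
      ((X1_V_summable g S).mul_left _)
  have hle : ∑' i, g.r i * |a (f ∘ g.φ i) - a f| ≤ 2 * M * (g.C * k) := by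
    calc _ ≤ ∑' i, 2 * M * X1_V g S i :=
          hsum.tsum_le_tsum hterm ((X1_V_summable g S).mul_left _)
      _ = 2 * M * ∑' i, X1_V g S i := tsum_mul_left
      _ ≤ _ := mul_le_mul_of_nonneg_left (X1_V_tsum g hS) (by positivity)
  refine ⟨hsum, hle, le_trans ?_ hle⟩
  have e : ∀ i, ‖g.r i * (a (f ∘ g.φ i) - a f)‖ = g.r i * |a (f ∘ g.φ i) - a f| := by
    intro i
    rw [Real.norm_eq_abs, abs_mul, abs_of_nonneg (g.r_nonneg i)]
  have h1 : Summable (fun i => ‖g.r i * (a (f ∘ g.φ i) - a f)‖) := by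
    simp only [e]
    exact hsum
  have := norm_tsum_le_tsum_norm h1
  simp only [e] at this
  exact this

/-- Factorisation through finitely many bits. -/
theorem X1_factor {S : Finset I} {f : (I → Bool) → ℝ} (hf : DependsOn f (S : Set I)) :
    ∃ F : (S → Bool) → ℝ, f = F ∘ (fun ω x => ω x.1) := by
  classical
  refine ⟨fun y => f (fun x => if h : x ∈ S then y ⟨x, h⟩ else false), ?_⟩
  funext ω
  simp only [Function.comp]
  apply hf
  intro x hx
  have hx' : x ∈ S := hx
  simp [hx']

theorem X1_measurable {k : ℕ} {f : (I → Bool) → ℝ} (hf : Cyl k f) : Measurable f := by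
  obtain ⟨⟨S, -, hS⟩, -⟩ := hf
  obtain ⟨F, rfl⟩ := X1_factor hS
  exact (measurable_of_countable F).comp
    (measurable_pi_lambda _ fun x => measurable_pi_apply x.1)

theorem X1_continuous {k : ℕ} {f : (I → Bool) → ℝ} (hf : Cyl k f) : Continuous f := by
  obtain ⟨⟨S, -, hS⟩, -⟩ := hf
  obtain ⟨F, rfl⟩ := X1_factor hS
  exact (continuous_of_discreteTopology (f := F)).comp
    (continuous_pi fun x => continuous_apply x.1)

theorem e1c : St_E1c := by
  intro I g k f hf
  obtain ⟨⟨S, hS, hfS⟩, hf1⟩ := id hf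
  have hbd : ∀ (i : g.ι) (ω : I → Bool), ‖g.r i * (f (g.φ i ω) - f ω)‖ ≤ 2 * 1 * X1_V g S i := by
    intro i ω
    have := X1_term g hf hfS zero_le_one (a := fun u => u ω) (fun u hu => hu.2 ω) i
    rw [Real.norm_eq_abs, abs_mul, abs_of_nonneg (g.r_nonneg i)]
    exact this
  have hsV : Summable (fun i => 2 * 1 * X1_V g S i) := (X1_V_summable g S).mul_left _
  refine ⟨X1_measurable hf, X1_continuous hf, ?_, ?_, ?_⟩
  · have := g.cnt
    refine measurable_of_tendsto_metrizable' (f := fun (s : Finset g.ι) ω =>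
      ∑ i ∈ s, g.r i * (f (g.φ i ω) - f ω)) atTop ?_ ?_
    · intro s
      refine Finset.measurable_sum s fun i _ => ?_
      exact measurable_const.mul ((X1_measurable (e1a I g k f i hf)).sub (X1_measurable hf))
    · rw [tendsto_pi_nhds]
      intro ω
      exact (Summable.of_norm_bounded hsV fun i => hbd i ω).hasSum
  · refine continuous_tsum (fun i => ?_) hsV hbd
    exact continuous_const.mul ((X1_continuous (e1a I g k f i hf)).sub (X1_continuous hf))
  · intro ω
    have := (e1b I g k (fun u => u ω) 1 zero_le_one (fun u hu => hu.2 ω) f hf).2.2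
    have e : g.L f ω = g.A (fun u => u ω) f := rfl
    rw [e]
    linarith

end H934X
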