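import Pool.Agent.H934R4.EX.X1

/-!
Task X10 (helper234): the energy identity; ordinary dynamical percolation as a `Gen`.
-/

set_option autoImplicit false

namespace H934X

open MeasureTheory ProbabilityTheory Filter Topology
open scoped ENNReal

variable {I : Type}

theorem X10_integrable {k l : ℕ} {f h : (I → Bool) → ℝ} (hf : Cyl k f) (hh : Cyl l h) :
    Integrable (fun ω => f ω * h ω) (Pc I) := by
  refine Integrable.of_bound
    ((X1_measurable hf).mul (X1_measurable hh)).aestronglyMeasurable 1
    (Eventually.of_forall fun ω => ?_)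
  rw [Real.norm_eq_abs, abs_mul]
  exact mul_le_one₀ (hf.2 ω) (abs_nonneg _) (hh.2 ω)

theorem X10_sq (g : Gen I) {k : ℕ} {f : (I → Bool) → ℝ} (hf : Cyl k f) (i : g.ι) :
    ∫ ω, (f (g.φ i ω) - f ω) ^ 2 ∂(Pc I) =
      -2 * (∫ ω, (f ∘ g.φ i) ω * f ω ∂(Pc I) - ∫ ω, f ω * f ω ∂(Pc I)) := by
  have hfi := e1a I g k f i hf
  have h1 : ∫ ω, (f ∘ g.φ i) ω * (f ∘ g.φ i) ω ∂(Pc I) = ∫ ω, f ω * f ω ∂(Pc I) := by
    have h2 := integral_map (μ := Pc I) (g.pres i).measurable.aemeasurable
      (f := fun ω => f ω * f ω)
      ((X1_measurable hf).mul (X1_measurable hf)).aestronglyMeasurable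
    rw [(g.pres i).map_eq] at h2
    exact h2.symm
  have h3 : ∀ ω, (f (g.φ i ω) - f ω) ^ 2 =
      (f ∘ g.φ i) ω * (f ∘ g.φ i) ω - 2 * ((f ∘ g.φ i) ω * f ω) + f ω * f ω := by
    intro ω
    simp only [Function.comp]
    ring
  simp only [h3]
  have i1 := X10_integrable hfi hfi
  have i2 := (X10_integrable hfi hf).const_mul 2
  have i3 : Integrable (fun ω => (f ∘ g.φ i) ω * (f ∘ g.φ i) ω - 2 * ((f ∘ g.φ i) ω * f ω))
    (Pc I) := i1.sub i2
  rw [integral_add i3 (X10_integrable hf hf), integral_sub i1 i2, integral_const_mul, h1]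
  ring

theorem X10_abs {k : ℕ} {f h : (I → Bool) → ℝ} (hf : Cyl k f) (hh : Cyl k h) :
    |∫ ω, h ω * f ω ∂(Pc I)| ≤ 1 := by
  have h1 := norm_integral_le_of_norm_le_const (μ := Pc I) (f := fun ω => h ω * f ω) (C := 1)
    (Eventually.of_forall fun ω => by
      rw [Real.norm_eq_abs, abs_mul]
      exact mul_le_one₀ (hh.2 ω) (abs_nonneg _) (hf.2 ω))
  simpa using h1

theorem e8 (h1d : St_E1d) : St_E8 := by
  intro I g k f hf
  have hb := e1b I g k (fun u => ∫ ω, u ω * f ω ∂(Pc I)) 1 zero_le_one
    (fun u hu => X10_abs hf hu) f hf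
  have hterm : ∀ i : g.ι, g.r i * ∫ ω, (f (g.φ i ω) - f ω) ^ 2 ∂(Pc I) =
      -2 * (g.r i * (∫ ω, (f ∘ g.φ i) ω * f ω ∂(Pc I) - ∫ ω, f ω * f ω ∂(Pc I))) := by
    intro i
    rw [X10_sq g hf i]
    ring
  have hs : Summable (fun i => g.r i *
      (∫ ω, (f ∘ g.φ i) ω * f ω ∂(Pc I) - ∫ ω, f ω * f ω ∂(Pc I))) := by
    refine Summable.of_norm_bounded hb.1 fun i => ?_
    rw [Real.norm_eq_abs, abs_mul, abs_of_nonneg (g.r_nonneg i)]
  constructor
  · simp only [hterm]
    exact hs.mul_left _
  · have h2 := h1d I g k f hf (I → Bool) (Pc I) id f measurable_id (X1_measurable hf) hf.2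
    have h3 : g.En f = - g.A (fun u => ∫ ω, u (id ω) * f ω ∂(Pc I)) f := by
      rw [← h2]
      unfold Gen.En
      congr 1
      congr 1
      funext ω
      simp only [id]
      ring
    rw [h3]
    simp only [hterm, tsum_mul_left]
    unfold Gen.A
    simp only [id]
    ring

theorem X10_fair_not : fair.map not = fair := by
  unfold fair
  have hm : Measurable not := measurable_of_countable _
  rw [Measure.map_add _ _ hm, Measure.map_smul, Measure.map_smul, Measure.map_dirac' hm,
    Measure.map_dirac' hm]
  simp only [Bool.not_true, Bool.not_false]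
  rw [add_comm]

open Classical in
theorem X10_pres (x : I) :
    MeasurePreserving (fun ω : I → Bool => Function.update ω x (!ω x)) (Pc I) (Pc I) := by
  have hm : ∀ i : I, Measurable (fun b : Bool => if i = x then !b else b) :=
    fun i => measurable_of_countable _
  have h1 := Measure.infinitePi_map_pi (μ := fun _ : I => fair)
    (f := fun i (b : Bool) => if i = x then !b else b) hm
  have h2 : (fun (ω : I → Bool) i => if i = x then !(ω i) else ω i) =
      fun ω : I → Bool => Function.update ω x (!ω x) := by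
    funext ω i
    by_cases h : i = x
    · subst h
      simp
    · simp [h]
  rw [h2] at h1
  have h3 : (fun i : I => fair.map (fun b : Bool => if i = x then !b else b)) =
      fun _ => fair := by
    funext i
    by_cases h : i = x
    · simp only [h, if_true]
      exact X10_fair_not
    · simp only [h, if_false]
      exact Measure.map_id
  rw [h3] at h1
  refine ⟨?_, h1⟩
  rw [← h2]
  exact measurable_pi_lambda _ fun i => (hm i).comp (measurable_pi_apply i)

open Classical in
/-- Ordinary dynamical percolation. -/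
noncomputable def X10_gen (I : Type) (hI : Countable I) : Gen I where
  ι := I
  cnt := hI
  r := fun _ => 1 / 2
  φ := fun x ω => Function.update ω x (!ω x)
  tch := fun x => {x}
  C := 1 / 2
  C_nonneg := by norm_num
  r_nonneg := fun _ => by norm_num
  pres := X10_pres
  inv := fun x ω => by simp
  loc := fun x ω z hz => by
    have : z ≠ x := by simpa using hz
    exact Function.update_of_ne this _ _
  dep := fun x S => by
    refine ⟨S, le_rfl, fun f hf ω ω' h => ?_⟩
    apply hf
    intro z hz
    by_cases hzx : z = x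
    · subst hzx
      simp [h z hz]
    · simp [hzx, h z hz]
  summ := fun z => by
    have : (fun i : I => if z ∈ ({i} : Finset I) then (1 / 2 : ℝ) else 0) =
        fun i => if i = z then 1 / 2 else 0 := by
      funext i
      simp [eq_comm]
    rw [this]
    exact (hasSum_ite_eq z (1 / 2 : ℝ)).summable
  rate := fun z => by
    have : (fun i : I => if z ∈ ({i} : Finset I) then (1 / 2 : ℝ) else 0) =
        fun i => if i = z then 1 / 2 else 0 := by
      funext i
      simp [eq_comm]
    rw [this, (hasSum_ite_eq z (1 / 2 : ℝ)).tsum_eq]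

theorem e9a (h8 : St_E8) : St_E9a := by
  classical
  intro I hI
  refine ⟨X10_gen I hI, rfl, rfl, ?_, ?_⟩
  · intro f ω
    unfold Gen.L Lord
    congr 1
    funext x
    change 1 / 2 * (f (Function.update ω x (!ω x)) - f ω) = _
    cases h : ω x with
    | true =>
      have h1 : Function.update ω x true = ω := by rw [← h]; exact Function.update_eq_self x ω
      rw [h1]
      simp only [Bool.not_true]
      ring
    | false =>
      have h1 : Function.update ω x false = ω := by rw [← h]; exact Function.update_eq_self x ω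
      rw [h1]
      simp only [Bool.not_false]
      ring
  · intro k f hf
    rw [(h8 I (X10_gen I hI) k f hf).2]
    change 1 / 2 * ∑' x : I, (1 / 2 : ℝ) *
      ∫ ω, (f (Function.update ω x (!ω x)) - f ω) ^ 2 ∂(Pc I) = _
    rw [tsum_mul_left]
    ring

end H934X
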