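import Pool.Agent.H934R4.EX.Props

/-!
# The exclusion dynamics as a `Gen`, and the comparison of the energies (task X11, helper836)
-/

set_option autoImplicit false

namespace H934X

open MeasureTheory ProbabilityTheory Filter Topology
open scoped ENNReal

namespace X11

variable {I : Type}

theorem mp_perm (e : Equiv.Perm I) :
    MeasurePreserving (fun ω : I → Bool => ω ∘ e) (Pc I) (Pc I) := by
  have hm : Measurable (fun ω : I → Bool => ω ∘ e) :=
    measurable_pi_iff.2 (fun i => measurable_pi_apply _)
  refine ⟨hm, ?_⟩
  unfold Pc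
  refine Measure.eq_infinitePi _ (fun s t ht => ?_)
  rw [Measure.map_apply hm (.pi s.countable_toSet fun _ _ => ht _)]
  have h1 : (fun ω : I → Bool => ω ∘ e) ⁻¹' ((s : Set I).pi t) =
      ((s.map e.toEmbedding : Finset I) : Set I).pi (fun i => t (e.symm i)) := by
    ext ω
    simp only [Set.mem_preimage, Set.mem_pi, Finset.coe_map, Function.comp]
    constructor
    · rintro h _ ⟨i, hi, rfl⟩
      simpa using h i hi
    · intro h i hi
      simpa using h (e i) ⟨i, hi, rfl⟩
  rw [h1, Measure.infinitePi_pi _ (fun i _ => ht _), Finset.prod_map]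
  simp

theorem fair_not : fair.map (fun b : Bool => !b) = fair := by
  unfold fair
  have hm : Measurable (fun b : Bool => !b) := measurable_from_top
  have h1 : (Measure.dirac true).map (fun b : Bool => !b) = Measure.dirac false :=
    Measure.map_dirac' hm true
  have h2 : (Measure.dirac false).map (fun b : Bool => !b) = Measure.dirac true :=
    Measure.map_dirac' hm false
  rw [Measure.map_add _ _ hm, Measure.map_smul, Measure.map_smul, h1, h2, add_comm]

open Classical in
theorem mp_flip (x : I) :
    MeasurePreserving (fun ω : I → Bool => Function.update ω x (!ω x)) (Pc I) (Pc I) := by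
  have hm : ∀ i, Measurable (fun b : Bool => if i = x then !b else b) :=
    fun i => measurable_from_top
  have he : (fun ω : I → Bool => Function.update ω x (!ω x)) =
      fun (ω : I → Bool) (i : I) => (fun b : Bool => if i = x then !b else b) (ω i) := by
    funext ω i
    by_cases h : i = x
    · subst h; simp
    · simp [h]
  have hm' : Measurable (fun (ω : I → Bool) (i : I) =>
      (fun b : Bool => if i = x then !b else b) (ω i)) :=
    measurable_pi_iff.2 (fun i => (hm i).comp (measurable_pi_apply i))
  rw [he]
  refine ⟨hm', ?_⟩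
  unfold Pc
  rw [Measure.infinitePi_map_pi (fun _ : I => fair) hm]
  congr 1
  funext i
  by_cases h : i = x
  · simp only [h, if_true]
    exact fair_not
  · simp only [h, if_false]
    exact Measure.map_id

open Classical in
theorem hasSum_left {a : I → I → ℝ} (z : I) {s : ℝ} (h : HasSum (a z) s) :
    HasSum (fun p : I × I => if p.1 = z then a p.1 p.2 else 0) s := by
  refine ((Prod.mk_right_injective z).hasSum_iff ?_).1 ?_
  · rintro ⟨x, y⟩ hp
    refine if_neg (fun hx => hp ?_)
    dsimp only at hx
    subst hx
    exact ⟨y, rfl⟩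
  · have : (fun p : I × I => if p.1 = z then a p.1 p.2 else 0) ∘ Prod.mk z = a z := by
      funext y; simp
    rw [this]
    exact h

open Classical in
theorem hasSum_right {a : I → I → ℝ} (z : I) {s : ℝ} (h : HasSum (fun x => a x z) s) :
    HasSum (fun p : I × I => if p.2 = z then a p.1 p.2 else 0) s := by
  have h1 := hasSum_left (a := fun x y => a y x) z h
  have h2 := (Equiv.prodComm I I).hasSum_iff.2 h1
  exact h2

open Classical in
theorem rates {P : I → I → ℝ} {C : ℝ} (h0 : ∀ x y, 0 ≤ P x y) (hs : ∀ x y, P x y = P y x)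
    (hP : ∀ x, Summable (P x) ∧ ∑' y, P x y ≤ C) (z : I) :
    Summable (fun p : I × I => if z ∈ ({p.1, p.2} : Finset I) then P p.1 p.2 / 2 else 0) ∧
      ∑' p : I × I, (if z ∈ ({p.1, p.2} : Finset I) then P p.1 p.2 / 2 else 0) ≤ C := by
  have h1 : HasSum (fun y => P z y / 2) ((∑' y, P z y) / 2) := (hP z).1.hasSum.div_const 2
  have h2 : HasSum (fun x => P x z / 2) ((∑' y, P z y) / 2) := by
    have : (fun x => P x z / 2) = fun y => P z y / 2 := by
      funext x; rw [hs x z]
    rw [this]; exact h1
  have h3 := (hasSum_left (a := fun x y => P x y / 2) z h1).add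
    (hasSum_right (a := fun x y => P x y / 2) z h2)
  have hle : ∀ p : I × I, (if z ∈ ({p.1, p.2} : Finset I) then P p.1 p.2 / 2 else 0) ≤
      (if p.1 = z then P p.1 p.2 / 2 else 0) + (if p.2 = z then P p.1 p.2 / 2 else 0) := by
    intro p
    have := h0 p.1 p.2
    by_cases ha : p.1 = z
    · rw [if_pos ha]
      split_ifs <;> linarith
    · by_cases hb : p.2 = z
      · rw [if_pos hb]
        split_ifs <;> linarith
      · rw [if_neg ha, if_neg hb, if_neg]
        · norm_num
        · simp only [Finset.mem_insert, Finset.mem_singleton, not_or]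
          exact ⟨fun h => ha h.symm, fun h => hb h.symm⟩
  have hnn : ∀ p : I × I, 0 ≤ (if z ∈ ({p.1, p.2} : Finset I) then P p.1 p.2 / 2 else 0) := by
    intro p
    have := h0 p.1 p.2
    split_ifs <;> linarith
  have hsum := Summable.of_nonneg_of_le hnn hle h3.summable
  refine ⟨hsum, ?_⟩
  calc _ ≤ _ := hsum.tsum_le_tsum hle h3.summable
    _ = (∑' y, P z y) / 2 + (∑' y, P z y) / 2 := h3.tsum_eq
    _ ≤ C := by linarith [(hP z).2]

open Classical in
/-- The exclusion dynamics. -/
noncomputable def exGen [Countable I] (P : I → I → ℝ) (C : ℝ) (h0 : ∀ x y, 0 ≤ P x y)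
    (hs : ∀ x y, P x y = P y x) (hP : ∀ x, Summable (P x) ∧ ∑' y, P x y ≤ C) (hC : 0 ≤ C) :
    Gen I where
  ι := I × I
  cnt := inferInstance
  r p := P p.1 p.2 / 2
  φ p ω := ω ∘ Equiv.swap p.1 p.2
  tch p := {p.1, p.2}
  C := C
  C_nonneg := hC
  r_nonneg p := by have := h0 p.1 p.2; linarith
  pres p := mp_perm _
  inv p ω := by
    funext i
    simp [Function.comp]
  loc p ω z hz := by
    simp only [Finset.mem_insert, Finset.mem_singleton, not_or] at hz
    simp only [Function.comp]
    rw [Equiv.swap_apply_of_ne_of_ne hz.1 hz.2]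
  dep p S := by
    refine ⟨S.map (Equiv.swap p.1 p.2).toEmbedding, by simp, fun f hf ω ω' h => ?_⟩
    refine hf (fun i hi => ?_)
    simp only [Function.comp]
    refine h _ ?_
    simp only [Finset.coe_map, Set.mem_image, Finset.mem_coe]
    exact ⟨i, hi, rfl⟩
  summ z := (rates h0 hs hP z).1
  rate z := (rates h0 hs hP z).2

/-- The energy of the flip at `x`. -/
noncomputable def D (f : (I → Bool) → ℝ) (x : I) : ℝ :=
  open Classical in ∫ ω, (f (Function.update ω x (!ω x)) - f ω) ^ 2 ∂(Pc I)

theorem D_nonneg (f : (I → Bool) → ℝ) (x : I) : 0 ≤ D f x :=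
  integral_nonneg (fun ω => sq_nonneg _)

theorem D_zero {f : (I → Bool) → ℝ} {S : Finset I} (hf : DependsOn f (S : Set I)) {x : I}
    (hx : x ∉ S) : D f x = 0 := by
  classical
  unfold D
  have h : ∀ ω : I → Bool, (f (Function.update ω x (!ω x)) - f ω) ^ 2 = 0 := by
    intro ω
    have : f (Function.update ω x (!ω x)) = f ω := by
      refine hf (fun i hi => ?_)
      rw [Function.update_of_ne]
      rintro rfl
      exact hx hi
    rw [this]; ring
  simp only [h]
  simp

theorem int_sq {f g : (I → Bool) → ℝ} (hf : Measurable f) (hg : Measurable g)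
    (bf : ∀ ω, |f ω| ≤ 1) (bg : ∀ ω, |g ω| ≤ 1) :
    Integrable (fun ω => (f ω - g ω) ^ 2) (Pc I) := by
  refine Integrable.of_bound ((hf.sub hg).pow_const 2).aestronglyMeasurable 4
    (Filter.Eventually.of_forall (fun ω => ?_))
  rw [Real.norm_eq_abs, abs_of_nonneg (sq_nonneg _)]
  have h1 := abs_le.1 (bf ω)
  have h2 := abs_le.1 (bg ω)
  nlinarith

open Classical in
theorem swap_le {f : (I → Bool) → ℝ} (hf : Measurable f) (bf : ∀ ω, |f ω| ≤ 1) (x y : I) :
    ∫ ω, (f (ω ∘ Equiv.swap x y) - f ω) ^ 2 ∂(Pc I) ≤ 2 * D f x + 2 * D f y := by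
  have hx0 := D_nonneg f x
  have hy0 := D_nonneg f y
  by_cases hxy : x = y
  · subst hxy
    have h : ∀ ω : I → Bool, (f (ω ∘ Equiv.swap x x) - f ω) ^ 2 = 0 := by
      intro ω
      rw [Equiv.swap_self]
      have : ω ∘ (Equiv.refl I) = ω := by funext i; rfl
      rw [this]; ring
    simp only [h]
    simp
    linarith
  · have mx := (mp_flip (I := I) x)
    have my := (mp_flip (I := I) y)
    have hfx : Measurable (fun ω : I → Bool => f (Function.update ω x (!ω x))) :=
      hf.comp mx.measurable
    have hfy : Measurable (fun ω : I → Bool => f (Function.update ω y (!ω y))) :=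
      hf.comp my.measurable
    have e1 : ∫ ω, (fun ω : I → Bool => (f (Function.update ω x (!ω x)) - f ω) ^ 2)
        (Function.update ω y (!ω y)) ∂(Pc I) = D f x := by
      unfold D
      have h := integral_map (μ := Pc I) (φ := fun ω : I → Bool => Function.update ω y (!ω y))
        my.measurable.aemeasurable
        (f := fun ω : I → Bool => (f (Function.update ω x (!ω x)) - f ω) ^ 2)
        ((hfx.sub hf).pow_const 2).aestronglyMeasurable
      rw [my.map_eq] at h
      exact h.symm
    have i1 : Integrable (fun ω : I → Bool =>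
        (fun ω : I → Bool => (f (Function.update ω x (!ω x)) - f ω) ^ 2)
        (Function.update ω y (!ω y))) (Pc I) :=
      int_sq (hfx.comp my.measurable) hfy (fun ω => bf _) (fun ω => bf _)
    have i2 : Integrable (fun ω : I → Bool => (f (Function.update ω y (!ω y)) - f ω) ^ 2)
        (Pc I) := int_sq hfy hf (fun ω => bf _) (fun ω => bf _)
    have i0 : Integrable (fun ω : I → Bool => (f (ω ∘ Equiv.swap x y) - f ω) ^ 2) (Pc I) :=
      int_sq (hf.comp (mp_perm _).measurable) hf (fun ω => bf _) (fun ω => bf _)
    calc ∫ ω, (f (ω ∘ Equiv.swap x y) - f ω) ^ 2 ∂(Pc I)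
        ≤ ∫ ω, (2 * (fun ω : I → Bool => (f (Function.update ω x (!ω x)) - f ω) ^ 2)
            (Function.update ω y (!ω y)) +
            2 * (f (Function.update ω y (!ω y)) - f ω) ^ 2) ∂(Pc I) := by
          refine integral_mono i0 ((i1.const_mul 2).add (i2.const_mul 2)) (fun ω => ?_)
          dsimp only
          by_cases h : ω x = ω y
          · have : ω ∘ Equiv.swap x y = ω := by
              funext i
              simp only [Function.comp]
              by_cases h1 : i = x
              · subst h1; rw [Equiv.swap_apply_left, h]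
              · by_cases h2 : i = y
                · subst h2; rw [Equiv.swap_apply_right, h]
                · rw [Equiv.swap_apply_of_ne_of_ne h1 h2]
            rw [this]
            have := sq_nonneg (f (Function.update (Function.update ω y (!ω y)) x
              (!(Function.update ω y (!ω y)) x)) - f (Function.update ω y (!ω y)))
            have := sq_nonneg (f (Function.update ω y (!ω y)) - f ω)
            nlinarith
          · have hn : ω x = !ω y := by
              cases h1 : ω x <;> cases h2 : ω y <;> simp_all
            have : ω ∘ Equiv.swap x y = Function.update (Function.update ω y (!ω y)) x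
                (!(Function.update ω y (!ω y)) x) := by
              funext i
              simp only [Function.comp]
              by_cases h1 : i = x
              · subst h1
                rw [Equiv.swap_apply_left, Function.update_self, Function.update_of_ne hxy, hn]
                simp
              · by_cases h2 : i = y
                · subst h2
                  rw [Equiv.swap_apply_right, Function.update_of_ne h1, Function.update_self, hn]
                · rw [Equiv.swap_apply_of_ne_of_ne h1 h2, Function.update_of_ne h1,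
                    Function.update_of_ne h2]
            rw [this]
            nlinarith [sq_nonneg ((f (Function.update (Function.update ω y (!ω y)) x
              (!(Function.update ω y (!ω y)) x)) - f (Function.update ω y (!ω y))) -
              (f (Function.update ω y (!ω y)) - f ω))]
      _ = 2 * D f x + 2 * D f y := by
          rw [integral_add (i1.const_mul 2) (i2.const_mul 2), integral_const_mul,
            integral_const_mul, e1]
          rfl

end X11

open X11 in
theorem e9b (h8 : St_E8) (h1c : St_E1c) : St_E9b := by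
  classical
  intro I hI P C h0 hs hP hC
  have := hI
  refine ⟨exGen P C h0 hs hP hC, rfl, fun f ω => ?_, fun k f hf => ?_⟩
  · unfold Gen.L Lex
    rw [← tsum_mul_left]
    refine tsum_congr (fun p => ?_)
    show P p.1 p.2 / 2 * (f (ω ∘ Equiv.swap p.1 p.2) - f ω) = _
    ring
  · obtain ⟨⟨S, hS, hd⟩, hb⟩ := id hf
    have hm : Measurable f := (h1c I (exGen P C h0 hs hP hC) k f hf).1
    have hDs : Summable (D f) := summable_of_ne_finset_zero (s := S) (fun x hx => D_zero hd hx)
    refine ⟨hDs, ?_⟩
    obtain ⟨hsum, hEn⟩ := h8 I (exGen P C h0 hs hP hC) k f hf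
    rw [hEn]
    -- the double sum
    have hrow : ∀ x, HasSum (fun y => P x y * D f x) ((∑' y, P x y) * D f x) := fun x =>
      (hP x).1.hasSum.mul_right _
    have hle : ∀ x, (∑' y, P x y) * D f x ≤ C * D f x := fun x =>
      mul_le_mul_of_nonneg_right (hP x).2 (D_nonneg f x)
    have hnnrow : ∀ x, 0 ≤ (∑' y, P x y) * D f x := fun x =>
      mul_nonneg (tsum_nonneg (fun y => h0 x y)) (D_nonneg f x)
    have hrows : Summable (fun x => (∑' y, P x y) * D f x) :=
      Summable.of_nonneg_of_le hnnrow hle (hDs.mul_left C)
    have hprod : Summable (fun p : I × I => P p.1 p.2 * D f p.1) := by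
      rw [summable_prod_of_nonneg (fun p => mul_nonneg (h0 _ _) (D_nonneg f _))]
      refine ⟨fun x => (hrow x).summable, ?_⟩
      refine hrows.congr (fun x => ?_)
      exact ((hrow x).tsum_eq).symm
    have htot : ∑' p : I × I, P p.1 p.2 * D f p.1 ≤ C * ∑' x, D f x := by
      rw [hprod.tsum_prod' (fun x => (hrow x).summable), ← tsum_mul_left]
      have h2 : ∀ x, ∑' y, P x y * D f x = (∑' y, P x y) * D f x := fun x => (hrow x).tsum_eq
      simp only [h2]
      exact hrows.tsum_le_tsum hle (hDs.mul_left C)
    have hprod' : Summable (fun p : I × I => P p.1 p.2 * D f p.2) := by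
      have h3 := (Equiv.prodComm I I).summable_iff.2 hprod
      refine h3.congr (fun p => ?_)
      show P p.2 p.1 * D f p.2 = _
      rw [hs p.2 p.1]
    have htot' : ∑' p : I × I, P p.1 p.2 * D f p.2 = ∑' p : I × I, P p.1 p.2 * D f p.1 := by
      rw [← (Equiv.prodComm I I).tsum_eq (fun p : I × I => P p.1 p.2 * D f p.1)]
      refine tsum_congr (fun p => ?_)
      show _ = P p.2 p.1 * D f p.2
      rw [hs p.2 p.1]
    have hbound : ∀ p : I × I, (exGen P C h0 hs hP hC).r p *
        ∫ ω, (f ((exGen P C h0 hs hP hC).φ p ω) - f ω) ^ 2 ∂(Pc I) ≤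
        P p.1 p.2 * D f p.1 + P p.1 p.2 * D f p.2 := by
      intro p
      show P p.1 p.2 / 2 * ∫ ω, (f (ω ∘ Equiv.swap p.1 p.2) - f ω) ^ 2 ∂(Pc I) ≤ _
      have h4 := swap_le hm hb p.1 p.2
      have h5 := h0 p.1 p.2
      nlinarith [mul_le_mul_of_nonneg_left h4 h5]
    have h6 : ∑' p : (exGen P C h0 hs hP hC).ι, (exGen P C h0 hs hP hC).r p *
        ∫ ω, (f ((exGen P C h0 hs hP hC).φ p ω) - f ω) ^ 2 ∂(Pc I) ≤
        ∑' p : I × I, (P p.1 p.2 * D f p.1 + P p.1 p.2 * D f p.2) :=
      hsum.tsum_le_tsum hbound (hprod.add hprod')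
    rw [hprod.tsum_add hprod', htot'] at h6
    have h7 : ∑' x : I, ∫ ω, (f (Function.update ω x (!ω x)) - f ω) ^ 2 ∂(Pc I) = ∑' x, D f x :=
      rfl
    rw [h7]
    linarith

end H934X
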