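import Pool.Agent.H934R4.EX.Props

/-!
# Task X12 (E9c): restriction of ordinary dynamics to finitely many bits
-/

set_option autoImplicit false

namespace H934X

open MeasureTheory ProbabilityTheory Filter Topology
open scoped ENNReal

section X12

variable {I : Type} (S : Finset I)

/-- Restriction of a configuration to finitely many bits. -/
def x12r (ω : I → Bool) : ↥S → Bool := fun x => ω x

theorem x12r_meas : Measurable (x12r S) := by
  unfold x12r
  exact measurable_pi_lambda _ (fun x => measurable_pi_apply _)

open Classical in
theorem x12r_update_out (ω : I → Bool) (x : I) (hx : x ∉ S) (b : Bool) :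
    x12r S (Function.update ω x b) = x12r S ω := by
  funext y
  unfold x12r
  rw [Function.update_of_ne]
  rintro rfl
  exact hx y.2

open Classical in
theorem x12r_update_in (ω : I → Bool) (x : ↥S) (b : Bool) :
    x12r S (Function.update ω (x : I) b) = Function.update (x12r S ω) x b := by
  funext y
  unfold x12r
  by_cases h : y = x
  · subst h
    rw [Function.update_self, Function.update_self]
  · rw [Function.update_of_ne h, Function.update_of_ne]
    intro h2
    exact h (Subtype.ext h2)

theorem x12_dec {J : Type} (d1 d2 : DecidableEq J) (f : (J → Bool) → ℝ) (η : J → Bool) (x : J) :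
    (f (@Function.update J (fun _ => Bool) d1 η x true) +
      f (@Function.update J (fun _ => Bool) d1 η x false)) / 2 - f η =
    (f (@Function.update J (fun _ => Bool) d2 η x true) +
      f (@Function.update J (fun _ => Bool) d2 η x false)) / 2 - f η := by
  rw [Subsingleton.elim d1 d2]

theorem x12_Lord (f : (↥S → Bool) → ℝ) (ω : I → Bool) :
    Lord (fun ω' => f (x12r S ω')) ω = Lord f (x12r S ω) := by
  classical
  unfold Lord
  rw [tsum_eq_sum (s := S), tsum_fintype, ← Finset.sum_coe_sort S]
  · apply Finset.sum_congr rfl
    intro x _
    beta_reduce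
    rw [x12r_update_in, x12r_update_in]
    exact x12_dec _ _ f (x12r S ω) x
  · intro x hx
    beta_reduce
    rw [x12r_update_out S ω x hx, x12r_update_out S ω x hx]
    ring

theorem x12_init : (Pc I).map (x12r S) = Pc (↥S) := by
  unfold Pc
  rw [Measure.infinitePi_eq_pi (μ := fun _ : ↥S => fair)]
  exact Measure.infinitePi_map_restrict (μ := fun _ : I => fair) (I := S)

end X12

theorem e9c : St_E9c := by
  intro I _ S Ω _ μ _ Y hY
  have hr : (fun (t : ℝ) (ω : Ω) (x : ↥S) => Y t ω x) = fun t ω => x12r S (Y t ω) := rfl
  rw [hr]
  refine ⟨fun t => (x12r_meas S).comp (hY.meas t), ?_, ?_, ?_, ?_⟩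
  · rw [← x12_init S, ← hY.init, Measure.map_map (x12r_meas S) (hY.meas 0)]
    rfl
  · intro ω x t ht
    exact hY.right ω x t ht
  · intro ω x t ht
    exact hY.left ω x t ht
  · intro S' f hf s t hs hst G hG hb
    classical
    have hdep : DependsOn (fun ω : I → Bool => f (x12r S ω))
        ((S'.map (Function.Embedding.subtype _) : Finset I) : Set I) := by
      intro ω ω' h
      apply hf
      intro x hx
      exact h x (by
        simp only [Finset.coe_map, Set.mem_image, Finset.mem_coe]
        exact ⟨x, hx, rfl⟩)
    have hG' : Measurable[past Y s] G := by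
      refine hG.mono ?_ le_rfl
      unfold past
      refine iSup_mono fun u => iSup_mono fun _ => ?_
      have h1 : MeasurableSpace.comap (fun ω => x12r S (Y u ω)) inferInstance =
          (MeasurableSpace.comap (x12r S) inferInstance).comap (Y u) := by
        rw [MeasurableSpace.comap_comp]
        rfl
      rw [h1]
      exact MeasurableSpace.comap_mono (x12r_meas S).comap_le
    have h2 := hY.mart _ _ hdep s t hs hst G hG' hb
    rw [h2]
    apply intervalIntegral.integral_congr
    intro u _
    show ∫ ω, Lord (fun ω' => f (x12r S ω')) (Y u ω) * G ω ∂μ =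
      ∫ ω, Lord f (x12r S (Y u ω)) * G ω ∂μ
    apply integral_congr_ae
    exact Filter.Eventually.of_forall (fun ω => by
      show Lord (fun ω' => f (x12r S ω')) (Y u ω) * G ω = _
      rw [x12_Lord])

end H934X
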