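import Pool.Agent.H934R4.EX.Props

/-!
# Task X14: ordinary dynamics, from small neighbourhoods to the compact set
-/

set_option autoImplicit false

namespace H934X

open MeasureTheory ProbabilityTheory Filter Topology
open scoped ENNReal

/-- the sign of the bit `x` -/
def x14_chi {I : Type} (x : I) (w : I → Bool) : ℝ := if w x = true then 1 else -1

theorem x14_chi_abs {I : Type} (x : I) (w : I → Bool) : |x14_chi x w| = 1 := by
  unfold x14_chi; split_ifs <;> simp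

theorem x14_chi_mul {I : Type} (x : I) (w w' : I → Bool) :
    (x14_chi x w' - x14_chi x w) * x14_chi x w = if w' x ≠ w x then -2 else 0 := by
  unfold x14_chi
  cases h1 : w x <;> cases h2 : w' x <;> norm_num

theorem x14_chi_meas {I : Type} (x : I) : Measurable (x14_chi x) := by
  unfold x14_chi
  refine Measurable.ite ?_ measurable_const measurable_const
  have h : Measurable fun w : I → Bool => w x := measurable_pi_apply x
  exact h (MeasurableSet.singleton true)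

theorem x14_lord_chi {I : Type} (x : I) (w : I → Bool) : Lord (x14_chi x) w = - x14_chi x w := by
  classical
  unfold Lord
  rw [tsum_eq_single x]
  · simp [x14_chi]
  · intro y hy
    have h2 : ∀ b : Bool, x14_chi x
        (@Function.update I (fun _ => Bool) (fun a b => Classical.propDecidable (a = b)) w y b) =
        x14_chi x w := by
      intro b
      unfold x14_chi
      rw [Function.update_of_ne (Ne.symm hy)]
    rw [h2, h2]; ring

theorem e13a (h4b : St_E4b) (h9a : St_E9a) : St_E13a := by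
  classical
  intro I hI Ω mΩ μ hμ Y hY O hO x s δ hs hδ
  -- law of `Y s`
  obtain ⟨g, -, -, hgL, -⟩ := h9a I hI
  have hgL' : g.L = Lord := by
    funext f ω; exact hgL f ω
  have hlaw : μ.map (Y s) = Pc I := by
    have := (h4b I g Ω μ Y (by rw [hgL']; exact hY) s hs).2
    exact this
  have hYs : Measurable (Y s) := hY.meas s
  have hYt : Measurable (Y (s + δ)) := hY.meas (s + δ)
  set A : Set Ω := Y s ⁻¹' O with hA
  have hAm : MeasurableSet A := hYs hO
  have hAO : μ A = Pc I O := by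
    rw [← hlaw, Measure.map_apply hYs hO]
  set E : Set Ω := {ω | Y s ω ∈ O ∧ Y (s + δ) ω x ≠ Y s ω x} with hE
  have hEm : MeasurableSet E := by
    refine hAm.inter ?_
    have h1 : Measurable fun ω => Y (s + δ) ω x := (measurable_pi_apply x).comp hYt
    have h2 : Measurable fun ω => Y s ω x := (measurable_pi_apply x).comp hYs
    exact (measurableSet_eq_fun h1 h2).compl
  -- the test function
  set G : Ω → ℝ := fun ω => x14_chi x (Y s ω) * O.indicator (fun _ => (1 : ℝ)) (Y s ω) with hG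
  have hGm : Measurable[past Y s] G := by
    have h1 : Measurable fun w : I → Bool => x14_chi x w * O.indicator (fun _ => (1 : ℝ)) w :=
      (x14_chi_meas x).mul (measurable_const.indicator hO)
    have h2 : Measurable[past Y s] (Y s) := by
      have h3 : MeasurableSpace.comap (Y s) inferInstance ≤ past Y s := by
        unfold past
        exact le_iSup₂_of_le s ⟨hs, le_refl s⟩ le_rfl
      exact (comap_measurable (Y s)).mono h3 le_rfl
    exact h1.comp h2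
  have hGb : ∀ ω, |G ω| ≤ A.indicator (fun _ => (1 : ℝ)) ω := by
    intro ω
    simp only [hG, abs_mul, x14_chi_abs, one_mul]
    by_cases h : Y s ω ∈ O
    · rw [Set.indicator_of_mem h, Set.indicator_of_mem (show ω ∈ A from h)]; simp
    · rw [Set.indicator_of_notMem h, Set.indicator_of_notMem (show ω ∉ A from h)]; simp
  have hA1 : ∀ ω, A.indicator (fun _ => (1 : ℝ)) ω ≤ 1 := by
    intro ω
    exact Set.indicator_le_self' (fun _ _ => zero_le_one) ω
  have hdep : DependsOn (x14_chi x) (({x} : Finset I) : Set I) := by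
    intro w w' h
    have : w x = w' x := h x (by simp)
    unfold x14_chi
    rw [this]
  have hmart := hY.mart {x} (x14_chi x) hdep s (s + δ) hs (by linarith) G hGm
    (fun ω => (hGb ω).trans (hA1 ω))
  -- left-hand side
  have hL : ∫ ω, (x14_chi x (Y (s + δ) ω) - x14_chi x (Y s ω)) * G ω ∂μ = -2 * μ.real E := by
    have h1 : (fun ω => (x14_chi x (Y (s + δ) ω) - x14_chi x (Y s ω)) * G ω) =
        E.indicator fun _ => (-2 : ℝ) := by
      funext ω
      simp only [hG]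
      rw [← mul_assoc, x14_chi_mul]
      by_cases h : Y s ω ∈ O
      · by_cases h' : Y (s + δ) ω x ≠ Y s ω x
        · rw [if_pos h', Set.indicator_of_mem h, Set.indicator_of_mem (show ω ∈ E from ⟨h, h'⟩)]
          norm_num
        · rw [if_neg h', Set.indicator_of_notMem (show ω ∉ E from fun hh => h' hh.2)]
          norm_num
      · rw [Set.indicator_of_notMem h, Set.indicator_of_notMem (show ω ∉ E from fun hh => h hh.1)]
        norm_num
    rw [h1, integral_indicator_const _ hEm, smul_eq_mul]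
    ring
  -- right-hand side
  have hint : Integrable (A.indicator fun _ => (1 : ℝ)) μ :=
    (integrable_const 1).indicator hAm
  have hR : ‖∫ u in s..(s + δ), ∫ ω, Lord (x14_chi x) (Y u ω) * G ω ∂μ‖ ≤
      μ.real A * |s + δ - s| := by
    refine intervalIntegral.norm_integral_le_of_norm_le_const fun u _ => ?_
    have h1 : ‖∫ ω, Lord (x14_chi x) (Y u ω) * G ω ∂μ‖ ≤ ∫ ω, A.indicator (fun _ => (1 : ℝ)) ω ∂μ := by
      refine norm_integral_le_of_norm_le hint (Eventually.of_forall fun ω => ?_)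
      rw [norm_mul, x14_lord_chi, norm_neg, Real.norm_eq_abs, x14_chi_abs, one_mul,
        Real.norm_eq_abs]
      exact hGb ω
    rw [integral_indicator_const _ hAm, smul_eq_mul, mul_one] at h1
    exact h1
  rw [← hmart, hL, Real.norm_eq_abs, add_sub_cancel_left, abs_mul, abs_of_nonneg hδ,
    abs_of_nonneg (measureReal_nonneg : 0 ≤ μ.real E)] at hR
  have h3 : μ.real E ≤ δ * μ.real A := by
    have h4 : (0 : ℝ) ≤ μ.real E := measureReal_nonneg
    have h5 : |(-2 : ℝ)| = 2 := by norm_num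
    rw [h5] at hR
    nlinarith
  calc μ E = ENNReal.ofReal (μ.real E) := (ofReal_measureReal (measure_ne_top μ E)).symm
    _ ≤ ENNReal.ofReal (δ * μ.real A) := ENNReal.ofReal_le_ofReal h3
    _ = ENNReal.ofReal δ * ENNReal.ofReal (μ.real A) := ENNReal.ofReal_mul hδ
    _ = ENNReal.ofReal δ * Pc I O := by rw [ofReal_measureReal (measure_ne_top μ A), hAO]

/-- an exhaustion of a countable type by finite sets -/
theorem x14_exhaust (I : Type) [Countable I] : ∃ S : ℕ → Finset I, Monotone S ∧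
    ∀ x, ∃ n, x ∈ S n := by
  classical
  rcases isEmpty_or_nonempty I with h | h
  · exact ⟨fun _ => ∅, fun _ _ _ => le_rfl, fun x => (h.false x).elim⟩
  · obtain ⟨f, hf⟩ := exists_surjective_nat I
    refine ⟨fun n => (Finset.range n).image f, ?_, ?_⟩
    · intro a b hab
      exact Finset.image_subset_image (Finset.range_mono hab)
    · intro x
      obtain ⟨n, hn⟩ := hf x
      exact ⟨n + 1, Finset.mem_image.mpr ⟨n, Finset.mem_range.mpr (Nat.lt_succ_self n), hn⟩⟩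

theorem x14_cyl {I : Type} (K : Set (I → Bool)) (S : Finset I) : CylSet S (Nb K S) := by
  intro ω ω' h
  constructor
  · rintro ⟨η, hη, h1⟩
    exact ⟨η, hη, fun x hx => (h x hx).symm.trans (h1 x hx)⟩
  · rintro ⟨η, hη, h1⟩
    exact ⟨η, hη, fun x hx => (h x hx).trans (h1 x hx)⟩

theorem x14_anti {I : Type} (K : Set (I → Bool)) {S S' : Finset I} (h : S ⊆ S') :
    Nb K S' ⊆ Nb K S := by
  rintro ω ⟨η, hη, h1⟩
  exact ⟨η, hη, fun x hx => h1 x (h hx)⟩

theorem x14_inter {I : Type} {K : Set (I → Bool)} (hK : IsClosed K) {S : ℕ → Finset I}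
    (hm : Monotone S) (hS : ∀ x, ∃ n, x ∈ S n) : ⋂ n, Nb K (S n) = K := by
  apply Set.Subset.antisymm
  · intro ω hω
    rw [Set.mem_iInter] at hω
    choose η hη h1 using hω
    have h2 : Tendsto η atTop (𝓝 ω) := by
      rw [tendsto_pi_nhds]
      intro x
      obtain ⟨n, hn⟩ := hS x
      refine tendsto_const_nhds.congr' ?_
      filter_upwards [eventually_ge_atTop n] with m hmn
      exact h1 m x (hm hmn hn)
    exact hK.mem_of_tendsto h2 (Eventually.of_forall hη)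
  · intro ω hω
    rw [Set.mem_iInter]
    exact fun n => ⟨ω, hω, fun _ _ => rfl⟩

/-- right-continuity of finitely many bits -/
theorem x14_right {I Ω : Type} {Y : ℝ → Ω → I → Bool} {ω : Ω} {t : ℝ}
    (h : ∀ x : I, ∃ ε > 0, ∀ s ∈ Set.Ico t (t + ε), Y s ω x = Y t ω x) (S : Finset I) :
    ∃ ε > 0, ∀ s ∈ Set.Ico t (t + ε), ∀ x ∈ S, Y s ω x = Y t ω x := by
  classical
  induction S using Finset.induction_on with
  | empty => exact ⟨1, one_pos, fun _ _ x hx => absurd hx (Finset.notMem_empty x)⟩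
  | insert a S ha ih =>
    obtain ⟨ε, hε, h1⟩ := ih
    obtain ⟨ε', hε', h2⟩ := h a
    refine ⟨min ε ε', lt_min hε hε', fun s hs x hx => ?_⟩
    rcases Finset.mem_insert.mp hx with rfl | hx
    · exact h2 s ⟨hs.1, hs.2.trans_le (by linarith [min_le_right ε ε'])⟩
    · exact h1 s ⟨hs.1, hs.2.trans_le (by linarith [min_le_left ε ε'])⟩ x hx

/-- left limits of finitely many bits -/
theorem x14_left {I Ω : Type} {Y : ℝ → Ω → I → Bool} {ω : Ω} {t : ℝ} {b : I → Bool}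
    (h : ∀ x : I, ∃ ε > 0, ∀ s ∈ Set.Ioo (t - ε) t, Y s ω x = b x) (S : Finset I) :
    ∃ ε > 0, ∀ s ∈ Set.Ioo (t - ε) t, ∀ x ∈ S, Y s ω x = b x := by
  classical
  induction S using Finset.induction_on with
  | empty => exact ⟨1, one_pos, fun _ _ x hx => absurd hx (Finset.notMem_empty x)⟩
  | insert a S ha ih =>
    obtain ⟨ε, hε, h1⟩ := ih
    obtain ⟨ε', hε', h2⟩ := h a
    refine ⟨min ε ε', lt_min hε hε', fun s hs x hx => ?_⟩
    rcases Finset.mem_insert.mp hx with rfl | hx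
    · exact h2 s ⟨lt_of_le_of_lt (by linarith [min_le_right ε ε']) hs.1, hs.2⟩
    · exact h1 s ⟨lt_of_le_of_lt (by linarith [min_le_left ε ε']) hs.1, hs.2⟩ x hx

/-- the pointwise part -/
theorem x14_point {I Ω : Type} {Y : ℝ → Ω → I → Bool} {ω : Ω} {K : Set (I → Bool)}
    (hK : IsClosed K) {S : ℕ → Finset I} (hm : Monotone S) (hS : ∀ x, ∃ n, x ∈ S n) (T : ℕ)
    (hright : ∀ (x : I) (t : ℝ), 0 ≤ t → ∃ ε > 0, ∀ s ∈ Set.Ico t (t + ε), Y s ω x = Y t ω x)
    (hleft : ∀ (x : I) (t : ℝ), 0 < t → ∃ b : Bool, ∃ ε > 0, ∀ s ∈ Set.Ioo (t - ε) t,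
      Y s ω x = b)
    (hhit : ∀ n, ∃ t ∈ Set.Icc (0 : ℝ) T, Y t ω ∈ Nb K (S n))
    (hno : ¬ ∃ t ∈ Set.Icc (0 : ℝ) T, Y t ω ∈ K) :
    ∃ x : I, ∀ n, ∃ J : ℕ, ∀ j ≥ J, ∃ k < T * 2 ^ j, Y ((k : ℝ) / 2 ^ j) ω ∈ Nb K (S n) ∧
      Y (((k : ℝ) / 2 ^ j) + 1 / 2 ^ j) ω x ≠ Y ((k : ℝ) / 2 ^ j) ω x := by
  have hinter := x14_inter hK hm hS
  choose τ hτ hτO using hhit
  obtain ⟨t, ht, hcl⟩ := (isCompact_Icc (a := (0 : ℝ)) (b := (T : ℝ))).exists_mapClusterPt_of_frequently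
    (l := atTop) (f := τ) (Eventually.of_forall hτ).frequently
  have hfreq : ∀ n : ℕ, ∀ ε > 0, ∃ r ∈ Set.Icc (0 : ℝ) T, |r - t| < ε ∧ Y r ω ∈ Nb K (S n) := by
    intro n ε hε
    have h1 : ∃ᶠ m in atTop, τ m ∈ Metric.ball t ε :=
      hcl.frequently (Metric.ball_mem_nhds t hε)
    obtain ⟨m, hm1, hm2⟩ := (h1.and_eventually (eventually_ge_atTop n)).exists
    refine ⟨τ m, hτ m, ?_, x14_anti K (hm hm2) (hτO m)⟩
    rw [Metric.mem_ball, Real.dist_eq] at hm1
    exact hm1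
  have ht0 : 0 ≤ t := ht.1
  have htK : Y t ω ∉ K := fun h => hno ⟨t, ht, h⟩
  have hA : ∃ n₁, ∃ ε₁ > 0, ∀ r ∈ Set.Ico t (t + ε₁), Y r ω ∉ Nb K (S n₁) := by
    by_contra hcon
    push Not at hcon
    apply htK
    rw [← hinter, Set.mem_iInter]
    intro n
    obtain ⟨ε, hε, h1⟩ := x14_right (fun x => hright x t ht0) (S n)
    obtain ⟨r, hr, h2⟩ := hcon n ε hε
    exact (x14_cyl K (S n) _ _ (h1 r hr)).mp h2
  obtain ⟨n₁, ε₁, hε₁, hA⟩ := hA
  have hB : ∀ n : ℕ, ∀ ε > 0, ∃ r ∈ Set.Ioo (t - ε) t, 0 ≤ r ∧ Y r ω ∈ Nb K (S n) := by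
    intro n ε hε
    obtain ⟨r, hr, h1, h2⟩ := hfreq (max n n₁) (min ε ε₁) (lt_min hε hε₁)
    have h3 := abs_lt.mp h1
    have hlt : r < t := by
      by_contra hge
      push Not at hge
      exact hA r ⟨hge, by linarith [min_le_right ε ε₁, h3.2]⟩
        (x14_anti K (hm (le_max_right n n₁)) h2)
    exact ⟨r, ⟨by linarith [min_le_left ε ε₁, h3.1], hlt⟩, hr.1,
      x14_anti K (hm (le_max_left n n₁)) h2⟩
  have htpos : 0 < t := by
    obtain ⟨r, hr, h0, -⟩ := hB 0 1 one_pos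
    exact lt_of_le_of_lt h0 hr.2
  choose b hb using fun x => hleft x t htpos
  have hbK : b ∈ K := by
    rw [← hinter, Set.mem_iInter]
    intro n
    obtain ⟨ε, hε, h1⟩ := x14_left hb (S n)
    obtain ⟨r, hr, -, h2⟩ := hB n ε hε
    exact (x14_cyl K (S n) _ _ (h1 r hr)).mp h2
  have hne : Y t ω ≠ b := fun h => htK (h ▸ hbK)
  obtain ⟨x, hx⟩ := Function.ne_iff.mp hne
  refine ⟨x, fun n => ?_⟩
  classical
  obtain ⟨ε, hε, h1⟩ := x14_left hb (insert x (S n))
  obtain ⟨ε', hε', h2⟩ := hright x t ht0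
  have hbn : b ∈ Nb K (S n) := ⟨b, hbK, fun _ _ => rfl⟩
  obtain ⟨J, hJ⟩ := exists_pow_lt_of_lt_one (lt_min hε hε') (by norm_num : (1 / 2 : ℝ) < 1)
  refine ⟨J, fun j hj => ?_⟩
  have h2j : (0 : ℝ) < 2 ^ j := by positivity
  have hsmall : (1 : ℝ) / 2 ^ j < min ε ε' := by
    have h3 : ((1 : ℝ) / 2) ^ j ≤ (1 / 2) ^ J :=
      pow_le_pow_of_le_one (by norm_num) (by norm_num) hj
    have h4 : ((1 : ℝ) / 2) ^ j = 1 / 2 ^ j := by rw [one_div_pow]
    rw [← h4]
    exact lt_of_le_of_lt h3 hJ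
  -- the index
  have hc1 : 0 < ⌈t * 2 ^ j⌉₊ := Nat.ceil_pos.mpr (mul_pos htpos h2j)
  set k : ℕ := ⌈t * 2 ^ j⌉₊ - 1 with hk
  have hk1 : k + 1 = ⌈t * 2 ^ j⌉₊ := by omega
  have hklt : (k : ℝ) < t * 2 ^ j := by
    have : k < ⌈t * 2 ^ j⌉₊ := by omega
    exact Nat.lt_ceil.mp this
  have hkge : t * 2 ^ j ≤ (k : ℝ) + 1 := by
    have := Nat.le_ceil (t * 2 ^ j)
    rw [← hk1] at this
    push_cast at this
    exact this
  have e1 : (k : ℝ) / 2 ^ j < t := by rwa [div_lt_iff₀ h2j]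
  have e2 : t ≤ (k : ℝ) / 2 ^ j + 1 / 2 ^ j := by
    rw [← add_div, le_div_iff₀ h2j]; exact hkge
  have e3 : (k : ℝ) / 2 ^ j ∈ Set.Ioo (t - ε) t :=
    ⟨by linarith [min_le_left ε ε'], e1⟩
  have e4 : (k : ℝ) / 2 ^ j + 1 / 2 ^ j ∈ Set.Ico t (t + ε') :=
    ⟨e2, by linarith [min_le_right ε ε']⟩
  refine ⟨k, ?_, ?_, ?_⟩
  · have h5 : (k : ℝ) < (T : ℝ) * 2 ^ j :=
      lt_of_lt_of_le hklt (mul_le_mul_of_nonneg_right ht.2 h2j.le)
    exact_mod_cast h5
  · exact (x14_cyl K (S n) _ _ fun y hy =>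
      h1 _ e3 y (Finset.mem_insert_of_mem hy)).mpr hbn
  · rw [h2 _ e4, h1 _ e3 x (Finset.mem_insert_self x _)]
    exact hx

theorem e13 (h4b : St_E4b) (h9a : St_E9a) (h10 : St_E10) : St_E13 := by
  intro I hI Ω mΩ μ hμ Y hY K hKc hK0 T c hc
  have hK : IsClosed K := hKc.isClosed
  obtain ⟨S, hm, hS⟩ := x14_exhaust I
  have hOm : ∀ n, MeasurableSet (Nb K (S n)) := fun n =>
    (h10 I Ω μ Lord Y hY (S n) (Nb K (S n)) (x14_cyl K (S n)) T).1
  have hHm : ∀ n, MeasurableSet (Hit Y T (Nb K (S n))) := fun n =>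
    (h10 I Ω μ Lord Y hY (S n) (Nb K (S n)) (x14_cyl K (S n)) T).2.2.1
  have hOanti : Antitone fun n => Nb K (S n) := fun a b hab => x14_anti K (hm hab)
  have hHanti : Antitone fun n => Hit Y T (Nb K (S n)) := by
    intro a b hab ω hω
    obtain ⟨t, ht, h⟩ := hω
    exact ⟨t, ht, hOanti hab h⟩
  have hPc : Tendsto (fun n => Pc I (Nb K (S n))) atTop (𝓝 0) := by
    have h1 := tendsto_measure_iInter_atTop (μ := Pc I) (s := fun n => Nb K (S n))
      (fun n => (hOm n).nullMeasurableSet) hOanti ⟨0, measure_ne_top _ _⟩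
    rw [x14_inter hK hm hS, hK0] at h1
    exact h1
  have hc1 : c ≤ μ (⋂ n, Hit Y T (Nb K (S n))) := by
    have h1 := tendsto_measure_iInter_atTop (μ := μ) (s := fun n => Hit Y T (Nb K (S n)))
      (fun n => (hHm n).nullMeasurableSet) hHanti ⟨0, measure_ne_top _ _⟩
    exact ge_of_tendsto' h1 fun n => hc (S n)
  -- the null sets
  set N : I → Set Ω := fun x => {ω | ∀ n, ∃ J : ℕ, ∀ j ≥ J, ∃ k < T * 2 ^ j,
    Y ((k : ℝ) / 2 ^ j) ω ∈ Nb K (S n) ∧
      Y (((k : ℝ) / 2 ^ j) + 1 / 2 ^ j) ω x ≠ Y ((k : ℝ) / 2 ^ j) ω x} with hN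
  have hE : ∀ (x : I) (n j : ℕ), μ {ω | ∃ k < T * 2 ^ j, Y ((k : ℝ) / 2 ^ j) ω ∈ Nb K (S n) ∧
      Y (((k : ℝ) / 2 ^ j) + 1 / 2 ^ j) ω x ≠ Y ((k : ℝ) / 2 ^ j) ω x} ≤
      (T : ℝ≥0∞) * Pc I (Nb K (S n)) := by
    intro x n j
    have h2j : (0 : ℝ) < 2 ^ j := by positivity
    have h1 : {ω | ∃ k < T * 2 ^ j, Y ((k : ℝ) / 2 ^ j) ω ∈ Nb K (S n) ∧
        Y (((k : ℝ) / 2 ^ j) + 1 / 2 ^ j) ω x ≠ Y ((k : ℝ) / 2 ^ j) ω x} ⊆
        ⋃ k ∈ Finset.range (T * 2 ^ j), {ω | Y ((k : ℝ) / 2 ^ j) ω ∈ Nb K (S n) ∧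
          Y (((k : ℝ) / 2 ^ j) + 1 / 2 ^ j) ω x ≠ Y ((k : ℝ) / 2 ^ j) ω x} := by
      rintro ω ⟨k, hk, h⟩
      simp only [Set.mem_iUnion, Finset.mem_range, Set.mem_ofPred_eq]
      exact ⟨k, hk, h⟩
    refine (measure_mono h1).trans ((measure_biUnion_finset_le _ _).trans ?_)
    have h2 : ∀ k ∈ Finset.range (T * 2 ^ j), μ {ω | Y ((k : ℝ) / 2 ^ j) ω ∈ Nb K (S n) ∧
        Y (((k : ℝ) / 2 ^ j) + 1 / 2 ^ j) ω x ≠ Y ((k : ℝ) / 2 ^ j) ω x} ≤
        ENNReal.ofReal (1 / 2 ^ j) * Pc I (Nb K (S n)) := fun k _ =>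
      e13a h4b h9a I Ω μ Y hY (Nb K (S n)) (hOm n) x ((k : ℝ) / 2 ^ j) (1 / 2 ^ j)
        (by positivity) (by positivity)
    refine (Finset.sum_le_sum h2).trans ?_
    rw [Finset.sum_const, Finset.card_range, nsmul_eq_mul, ← mul_assoc]
    refine mul_le_mul_left (le_of_eq ?_) _
    have h3 : ((T * 2 ^ j : ℕ) : ℝ≥0∞) = ENNReal.ofReal ((T : ℝ) * 2 ^ j) := by
      rw [← ENNReal.ofReal_natCast]
      push_cast
      rfl
    rw [h3, ← ENNReal.ofReal_mul (by positivity)]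
    have h4 : (T : ℝ) * 2 ^ j * (1 / 2 ^ j) = T := by field_simp
    rw [h4, ENNReal.ofReal_natCast]
  have hN0 : ∀ x, μ (N x) = 0 := by
    intro x
    have h1 : ∀ n, μ (N x) ≤ (T : ℝ≥0∞) * Pc I (Nb K (S n)) := by
      intro n
      set F : ℕ → Set Ω := fun J => {ω | ∀ j ≥ J, ∃ k < T * 2 ^ j,
        Y ((k : ℝ) / 2 ^ j) ω ∈ Nb K (S n) ∧
          Y (((k : ℝ) / 2 ^ j) + 1 / 2 ^ j) ω x ≠ Y ((k : ℝ) / 2 ^ j) ω x} with hF
      have hFm : Monotone F := fun a b hab ω hω j hj => hω j (hab.trans hj)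
      have h2 : N x ⊆ ⋃ J, F J := by
        intro ω hω
        obtain ⟨J, hJ⟩ := hω n
        exact Set.mem_iUnion.mpr ⟨J, hJ⟩
      refine (measure_mono h2).trans ?_
      rw [hFm.measure_iUnion]
      refine iSup_le fun J => ?_
      refine (measure_mono ?_).trans (hE x n J)
      intro ω hω
      exact hω J le_rfl
    have h2 : Tendsto (fun n => (T : ℝ≥0∞) * Pc I (Nb K (S n))) atTop (𝓝 0) := by
      have := ENNReal.Tendsto.const_mul hPc (Or.inr (ENNReal.natCast_ne_top T))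
      rwa [mul_zero] at this
    exact le_antisymm (ge_of_tendsto' h2 h1) bot_le
  have hsub : (⋂ n, Hit Y T (Nb K (S n))) ⊆ Hit Y T K ∪ ⋃ x, N x := by
    intro ω hω
    rw [Set.mem_iInter] at hω
    by_cases hno : ∃ t ∈ Set.Icc (0 : ℝ) T, Y t ω ∈ K
    · exact Or.inl hno
    · right
      obtain ⟨x, hx⟩ := x14_point hK hm hS T (fun x t ht => hY.right ω x t ht)
        (fun x t ht => hY.left ω x t ht) hω hno
      exact Set.mem_iUnion.mpr ⟨x, hx⟩
  calc c ≤ μ (⋂ n, Hit Y T (Nb K (S n))) := hc1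
    _ ≤ μ (Hit Y T K ∪ ⋃ x, N x) := measure_mono hsub
    _ ≤ μ (Hit Y T K) + μ (⋃ x, N x) := measure_union_le _ _
    _ = μ (Hit Y T K) := by
      rw [measure_iUnion_null hN0, add_zero]

end H934X
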