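import Pool.Agent.H934R4.EX.Props

/-!
Task X2: exchange of the sum over `i` and the expectation (E1d).
-/

set_option autoImplicit false

namespace H934X

open MeasureTheory ProbabilityTheory Filter Topology
open scoped ENNReal

/-- E1d: exchange of the sum over `i` and the expectation. -/
theorem e1d (h1a : St_E1a) (h1b : St_E1b) (h1c : St_E1c) : St_E1d := by
  intro I g k f hf Ω _ μ _ Z G hZ hG hGb
  have := g.cnt
  have hfm : Measurable f := (h1c I g k f hf).1
  have hfφ : ∀ i, Cyl k (f ∘ g.φ i) := fun i => h1a I g k f i hf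
  have hfφm : ∀ i, Measurable (f ∘ g.φ i) := fun i => (h1c I g k _ (hfφ i)).1
  -- a functional whose increments are the `L¹` norms
  set a : ((I → Bool) → ℝ) → ℝ := fun u => ∫ ω, |u (Z ω) - f (Z ω)| * |G ω| ∂μ with ha
  have hb := h1b I g k a 2 (by norm_num) (by
    intro u hu
    have h2 := norm_integral_le_of_norm_le_const (μ := μ) (C := 2)
      (f := fun ω => |u (Z ω) - f (Z ω)| * |G ω|) (by
        refine Filter.Eventually.of_forall fun ω => ?_
        rw [norm_mul, Real.norm_eq_abs, Real.norm_eq_abs, abs_abs, abs_abs]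
        have h3 : |u (Z ω) - f (Z ω)| ≤ 2 := by
          have h4 := hu.2 (Z ω)
          have h5 := hf.2 (Z ω)
          rw [abs_le] at h4 h5 ⊢
          constructor <;> linarith [h4.1, h4.2, h5.1, h5.2]
        calc |u (Z ω) - f (Z ω)| * |G ω| ≤ 2 * 1 :=
              mul_le_mul h3 (hGb ω) (abs_nonneg _) (by norm_num)
          _ = 2 := by norm_num)
    simpa using h2) f hf
  have ha0 : a f = 0 := by
    simp [ha]
  have hsum : Summable (fun i => g.r i * ∫ ω, |f (g.φ i (Z ω)) - f (Z ω)| * |G ω| ∂μ) := by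
    refine hb.1.congr fun i => ?_
    rw [ha0, sub_zero, abs_of_nonneg]
    · rfl
    · exact integral_nonneg fun ω => mul_nonneg (abs_nonneg _) (abs_nonneg _)
  -- integrability
  have hi : ∀ u : (I → Bool) → ℝ, Measurable u → (∀ ω, |u ω| ≤ 1) →
      Integrable (fun ω => u (Z ω) * G ω) μ := by
    intro u hu hub
    refine Integrable.of_bound (C := 1) ((hu.comp hZ).mul hG).aestronglyMeasurable ?_
    refine Filter.Eventually.of_forall fun ω => ?_
    rw [norm_mul, Real.norm_eq_abs, Real.norm_eq_abs]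
    calc |u (Z ω)| * |G ω| ≤ 1 * 1 := mul_le_mul (hub _) (hGb _) (abs_nonneg _) zero_le_one
      _ = 1 := mul_one 1
  have hif := hi f hfm hf.2
  have hifφ : ∀ i, Integrable (fun ω => f (g.φ i (Z ω)) * G ω) μ :=
    fun i => hi (f ∘ g.φ i) (hfφm i) (hfφ i).2
  set F : g.ι → Ω → ℝ := fun i ω => g.r i * (f (g.φ i (Z ω)) - f (Z ω)) * G ω with hF
  have hFi : ∀ i, Integrable (F i) μ := by
    intro i
    refine (((hifφ i).sub hif).const_mul (g.r i)).congr
      (Filter.Eventually.of_forall fun ω => ?_)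
    simp only [hF, Pi.sub_apply]
    ring
  have hFs : Summable fun i => ∫ ω, ‖F i ω‖ ∂μ := by
    refine hsum.congr fun i => ?_
    rw [← integral_const_mul]
    refine integral_congr_ae (Filter.Eventually.of_forall fun ω => ?_)
    simp only [hF]
    rw [norm_mul, norm_mul, Real.norm_eq_abs, Real.norm_eq_abs, Real.norm_eq_abs,
      abs_of_nonneg (g.r_nonneg i), mul_assoc]
  have hex := integral_tsum_of_summable_integral_norm hFi hFs
  have e1 : ∀ ω, g.L f (Z ω) * G ω = ∑' i, F i ω := by
    intro ω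
    unfold Gen.L
    rw [← tsum_mul_right]
  have e2 : ∀ i, ∫ ω, F i ω ∂μ =
      g.r i * ((∫ ω, (f ∘ g.φ i) (Z ω) * G ω ∂μ) - ∫ ω, f (Z ω) * G ω ∂μ) := by
    intro i
    have h5 : ∫ ω, (f ∘ g.φ i) (Z ω) * G ω ∂μ = ∫ ω, f (g.φ i (Z ω)) * G ω ∂μ := rfl
    rw [h5, ← integral_sub (hifφ i) hif, ← integral_const_mul]
    refine integral_congr_ae (Filter.Eventually.of_forall fun ω => ?_)
    simp only [hF]
    ring
  unfold Gen.A
  rw [integral_congr_ae (Filter.Eventually.of_forall e1), ← hex]
  exact tsum_congr e2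

end H934X
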