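import Pool.Agent.H934R4.EX.Props

/-!
# Task X3 (E1e): measures are determined by cylinder functions
-/

set_option autoImplicit false

namespace H934X

open MeasureTheory ProbabilityTheory Filter Topology
open scoped ENNReal

theorem x3_cyl {I : Type} {s : Set (I → Bool)}
    (hs : s ∈ measurableCylinders (fun _ : I => Bool)) :
    ∃ k, Cyl k (s.indicator (1 : (I → Bool) → ℝ)) := by
  rw [mem_measurableCylinders] at hs
  obtain ⟨S, T, -, rfl⟩ := hs
  refine ⟨S.card, ⟨S, le_rfl, ?_⟩, ?_⟩
  · intro ω ω' h
    have : S.restrict ω = S.restrict ω' := by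
      funext x
      exact h x.1 x.2
    by_cases hω : S.restrict ω ∈ T
    · rw [Set.indicator_of_mem (by simpa [mem_cylinder] using hω),
        Set.indicator_of_mem (by rw [this] at hω; simpa [mem_cylinder] using hω)]
      rfl
    · rw [Set.indicator_of_notMem (by simpa [mem_cylinder] using hω),
        Set.indicator_of_notMem (by rw [this] at hω; simpa [mem_cylinder] using hω)]
  · intro ω
    classical
    rw [Set.indicator_apply]
    split_ifs <;> simp

theorem x3_univ {I : Type} : Set.univ ∈ measurableCylinders (fun _ : I => Bool) :=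
  univ_mem_measurableCylinders _

theorem x3_meas {I : Type} {s : Set (I → Bool)}
    (hs : s ∈ measurableCylinders (fun _ : I => Bool)) : MeasurableSet s :=
  MeasurableSet.of_mem_measurableCylinders hs

theorem x3_a {I : Type} (μ ν : Measure (I → Bool)) [IsFiniteMeasure μ] [IsFiniteMeasure ν]
    (h : ∀ k f, Cyl k f → ∫ ω, f ω ∂μ = ∫ ω, f ω ∂ν) : μ = ν := by
  have key : ∀ s ∈ measurableCylinders (fun _ : I => Bool), μ s = ν s := by
    intro s hs
    obtain ⟨k, hk⟩ := x3_cyl hs
    have h1 := h k _ hk
    rw [integral_indicator_one (x3_meas hs), integral_indicator_one (x3_meas hs)] at h1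
    exact (measureReal_eq_measureReal_iff).1 h1
  exact ext_of_generate_finite _ generateFrom_measurableCylinders.symm
    isPiSystem_measurableCylinders key (key _ x3_univ)

theorem x3_b {I : Type} (μ ν : Measure ((I → Bool) × (I → Bool))) [IsFiniteMeasure μ]
    [IsFiniteMeasure ν]
    (h : ∀ k f h, Cyl k f → Cyl k h → ∫ p, f p.1 * h p.2 ∂μ = ∫ p, f p.1 * h p.2 ∂ν) :
    μ = ν := by
  have hmono : ∀ {k l : ℕ} {f : (I → Bool) → ℝ}, k ≤ l → Cyl k f → Cyl l f := by
    rintro k l f hkl ⟨⟨S, hS, hd⟩, hf⟩
    exact ⟨⟨S, hS.trans hkl, hd⟩, hf⟩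
  have key : ∀ s ∈ Set.image2 (fun a b : Set (I → Bool) => a ×ˢ b)
      (measurableCylinders (fun _ : I => Bool)) (measurableCylinders (fun _ : I => Bool)),
      μ s = ν s := by
    rintro _ ⟨s, hs, t, ht, rfl⟩
    obtain ⟨k, hk⟩ := x3_cyl hs
    obtain ⟨l, hl⟩ := x3_cyl ht
    have h1 := h (max k l) _ _ (hmono (le_max_left k l) hk) (hmono (le_max_right k l) hl)
    have h2 : ∀ p : (I → Bool) × (I → Bool), s.indicator (1 : (I → Bool) → ℝ) p.1 *
        t.indicator (1 : (I → Bool) → ℝ) p.2 = (s ×ˢ t).indicator 1 p := by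
      rintro ⟨a, b⟩
      by_cases ha : a ∈ s <;> by_cases hb : b ∈ t <;> simp [ha, hb]
    simp only [h2] at h1
    have hm : MeasurableSet (s ×ˢ t) := (x3_meas hs).prod (x3_meas ht)
    rw [integral_indicator_one hm, integral_indicator_one hm] at h1
    exact (measureReal_eq_measureReal_iff).1 h1
  have hsp : IsCountablySpanning (measurableCylinders (fun _ : I => Bool)) :=
    ⟨fun _ => Set.univ, fun _ => x3_univ, Set.iUnion_const _⟩
  have hgen := generateFrom_eq_prod (generateFrom_measurableCylinders (α := fun _ : I => Bool))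
    (generateFrom_measurableCylinders (α := fun _ : I => Bool)) hsp hsp
  refine ext_of_generate_finite _ hgen.symm
    (isPiSystem_measurableCylinders.prod isPiSystem_measurableCylinders) key ?_
  have := key _ ⟨Set.univ, x3_univ, Set.univ, x3_univ, rfl⟩
  simpa using this

theorem e1e : St_E1e := fun _ _ => ⟨fun μ ν _ _ h => x3_a μ ν h, fun μ ν _ _ h => x3_b μ ν h⟩

end H934X
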