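import Pool.Agent.H934R4.EX.Props

/-!
# Task X4: E2, E2b, E2c — Picard iteration
-/

set_option autoImplicit false

namespace H934X

open MeasureTheory ProbabilityTheory Filter Topology
open scoped ENNReal

namespace X4

variable {I : Type}

/-- the terms of `g.A a f` are summable. -/
lemma summ (h1b : St_E1b) (g : Gen I) (k : ℕ) (a : ((I → Bool) → ℝ) → ℝ) (M : ℝ) (hM : 0 ≤ M)
    (ha : ∀ f, Cyl k f → |a f| ≤ M) (f : (I → Bool) → ℝ) (hf : Cyl k f) :
    Summable (fun i => g.r i * (a (f ∘ g.φ i) - a f)) := by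
  have h := (h1b I g k a M hM ha f hf).1
  refine Summable.of_norm ?_
  refine h.congr fun i => ?_
  rw [Real.norm_eq_abs, abs_mul, abs_of_nonneg (g.r_nonneg i)]

open Classical in
/-- continuity in the parameter. -/
lemma cont (h1b : St_E1b) (g : Gen I) (k : ℕ) (h1a : St_E1a) (T M : ℝ) (hM : 0 ≤ M)
    (w : ℝ → ((I → Bool) → ℝ) → ℝ)
    (hb : ∀ f, Cyl k f → ∀ t ∈ Set.Icc 0 T, |w t f| ≤ M)
    (hc : ∀ f, Cyl k f → ContinuousOn (fun t => w t f) (Set.Icc 0 T))
    (f : (I → Bool) → ℝ) (hf : Cyl k f) :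
    ContinuousOn (fun s => g.A (w s) f) (Set.Icc 0 T) := by
  have hs := (h1b I g k (fun u => if u = f then -M else M) M hM (by
    intro u _
    split_ifs
    · rw [abs_neg, abs_of_nonneg hM]
    · rw [abs_of_nonneg hM]) f hf).1
  unfold Gen.A
  refine continuousOn_tsum (fun i => ?_) hs ?_
  · exact continuousOn_const.mul ((hc _ (h1a I g k f i hf)).sub (hc _ hf))
  · intro i t ht
    rw [Real.norm_eq_abs, abs_mul, abs_of_nonneg (g.r_nonneg i)]
    refine mul_le_mul_of_nonneg_left ?_ (g.r_nonneg i)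
    by_cases h : f ∘ g.φ i = f
    · simp [h]
    · rw [if_neg h, if_pos rfl]
      have h1 := abs_le.1 (hb _ (h1a I g k f i hf) t ht)
      have h2 := abs_le.1 (hb _ hf t ht)
      rw [abs_of_nonneg (by linarith : (0:ℝ) ≤ M - -M)]
      rw [abs_le]
      constructor <;> linarith [h1.1, h1.2, h2.1, h2.2]

/-- the iterates are bounded. -/
lemma iter_bd (h1b : St_E1b) (g : Gen I) (k : ℕ) (a : ((I → Bool) → ℝ) → ℝ) (M : ℝ) (hM : 0 ≤ M)
    (ha : ∀ f, Cyl k f → |a f| ≤ M) (j : ℕ) :
    0 ≤ M * (2 * (g.C * k)) ^ j ∧ ∀ f, Cyl k f → |(g.A^[j] a) f| ≤ M * (2 * (g.C * k)) ^ j := by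
  have hC := g.C_nonneg
  induction j with
  | zero => simpa using ⟨hM, ha⟩
  | succ j ih =>
    refine ⟨by positivity, fun f hf => ?_⟩
    rw [Function.iterate_succ_apply']
    have := (h1b I g k (g.A^[j] a) _ ih.1 ih.2 f hf).2.2
    refine this.trans (le_of_eq ?_)
    rw [pow_succ]
    ring

/-- linearity. -/
lemma lin (h1b : St_E1b) (g : Gen I) (k : ℕ) (a : ((I → Bool) → ℝ) → ℝ) (M : ℝ) (hM : 0 ≤ M)
    (ha : ∀ f, Cyl k f → |a f| ≤ M) (b : ℕ → ((I → Bool) → ℝ) → ℝ) (B : ℕ → ℝ)
    (hB : ∀ j, 0 ≤ B j) (hb : ∀ j f, Cyl k f → |b j f| ≤ B j) (c : ℕ → ℝ) (n : ℕ)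
    (f : (I → Bool) → ℝ) (hf : Cyl k f) :
    g.A (fun u => a u - ∑ j ∈ Finset.range n, c j * b j u) f =
      g.A a f - ∑ j ∈ Finset.range n, c j * g.A (b j) f := by
  have h1 := summ h1b g k a M hM ha f hf
  have h2 : ∀ j, Summable (fun i => g.r i * (b j (f ∘ g.φ i) - b j f)) := fun j =>
    summ h1b g k (b j) (B j) (hB j) (hb j) f hf
  have h3 : Summable (fun i => ∑ j ∈ Finset.range n, c j * (g.r i * (b j (f ∘ g.φ i) - b j f))) :=
    summable_sum fun j _ => (h2 j).mul_left (c j)
  unfold Gen.A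
  have h4 : ∀ i, g.r i * ((a (f ∘ g.φ i) - ∑ j ∈ Finset.range n, c j * b j (f ∘ g.φ i)) -
      (a f - ∑ j ∈ Finset.range n, c j * b j f)) = g.r i * (a (f ∘ g.φ i) - a f) -
        ∑ j ∈ Finset.range n, c j * (g.r i * (b j (f ∘ g.φ i) - b j f)) := by
    intro i
    have : ∑ j ∈ Finset.range n, c j * (g.r i * (b j (f ∘ g.φ i) - b j f)) =
        g.r i * (∑ j ∈ Finset.range n, c j * b j (f ∘ g.φ i) -
          ∑ j ∈ Finset.range n, c j * b j f) := by
      rw [← Finset.sum_sub_distrib, Finset.mul_sum]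
      refine Finset.sum_congr rfl fun j _ => ?_
      ring
    rw [this]
    ring
  rw [tsum_congr h4, h1.tsum_sub h3, Summable.tsum_finsetSum (fun j _ => (h2 j).mul_left (c j))]
  congr 1
  exact Finset.sum_congr rfl fun j _ => tsum_mul_left

end X4

open X4

theorem e2 (h1a : St_E1a) (h1b : St_E1b) : St_E2 := by
  intro I g k T M w hT hM hb hc he n
  have hC := g.C_nonneg
  have h0 : (0:ℝ) ∈ Set.Icc 0 T := ⟨le_rfl, hT⟩
  have hw0 : ∀ f, Cyl k f → |w 0 f| ≤ M := fun f hf => hb f hf 0 h0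
  induction n with
  | zero =>
    intro f hf t ht
    simpa using hb f hf t ht
  | succ n ih =>
    intro f hf t ht
    have ht0 : 0 ≤ t := ht.1
    -- the integrand
    have hcA := cont h1b g k h1a T M hM w hb hc f hf
    have hcA' : ContinuousOn (fun s => g.A (w s) f) (Set.uIcc 0 t) := by
      rw [Set.uIcc_of_le ht0]
      exact hcA.mono (Set.Icc_subset_Icc le_rfl ht.2)
    have hi1 : IntervalIntegrable (fun s => g.A (w s) f) volume 0 t := hcA'.intervalIntegrable
    have hi2 : ∀ j ∈ Finset.range n, IntervalIntegrable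
        (fun s : ℝ => s ^ j / j.factorial * g.A (g.A^[j] (w 0)) f) volume 0 t := fun j _ =>
      Continuous.intervalIntegrable (by fun_prop) _ _
    have hsum : ∫ s in (0:ℝ)..t, ∑ j ∈ Finset.range n, s ^ j / j.factorial *
        g.A (g.A^[j] (w 0)) f = ∑ j ∈ Finset.range n, t ^ (j + 1) / (j + 1).factorial *
        g.A (g.A^[j] (w 0)) f := by
      rw [intervalIntegral.integral_finsetSum hi2]
      refine Finset.sum_congr rfl fun j _ => ?_
      rw [intervalIntegral.integral_mul_const, intervalIntegral.integral_div, integral_pow]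
      rw [Nat.factorial_succ]
      push_cast
      have h1 : ((j:ℝ) + 1) ≠ 0 := by positivity
      have h2 : ((j.factorial : ℕ) : ℝ) ≠ 0 := by positivity
      field_simp
      simp
    have hdiff : w t f - ∑ j ∈ Finset.range (n + 1), t ^ j / j.factorial * (g.A^[j] (w 0)) f =
        ∫ s in (0:ℝ)..t, g.A (fun u => w s u - ∑ j ∈ Finset.range n, s ^ j / j.factorial *
          (g.A^[j] (w 0)) u) f := by
      rw [Finset.sum_range_succ', he f hf t ht]
      have h5 : ∫ s in (0:ℝ)..t, g.A (fun u => w s u - ∑ j ∈ Finset.range n,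
          s ^ j / j.factorial * (g.A^[j] (w 0)) u) f =
          ∫ s in (0:ℝ)..t, (g.A (w s) f - ∑ j ∈ Finset.range n,
            s ^ j / j.factorial * g.A (g.A^[j] (w 0)) f) := by
        refine intervalIntegral.integral_congr fun s hs => ?_
        rw [Set.uIcc_of_le ht0] at hs
        exact lin h1b g k (w s) M hM (fun u hu => hb u hu s ⟨hs.1, hs.2.trans ht.2⟩)
          (fun j => g.A^[j] (w 0)) (fun j => M * (2 * (g.C * k)) ^ j)
          (fun j => (iter_bd h1b g k (w 0) M hM hw0 j).1)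
          (fun j => (iter_bd h1b g k (w 0) M hM hw0 j).2) (fun j => s ^ j / j.factorial) n f hf
      rw [h5, intervalIntegral.integral_sub hi1 (Continuous.intervalIntegrable (by fun_prop) _ _),
        hsum]
      simp only [pow_zero, Nat.factorial_zero, Nat.cast_one, div_one, one_mul,
        Function.iterate_zero, id_eq, Function.iterate_succ_apply']
      ring
    rw [hdiff]
    have hbound : ‖∫ s in (0:ℝ)..t, g.A (fun u => w s u - ∑ j ∈ Finset.range n,
        s ^ j / j.factorial * (g.A^[j] (w 0)) u) f‖ ≤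
        ∫ s in (0:ℝ)..t, 2 * (M * (2 * (g.C * k) * s) ^ n / n.factorial) * (g.C * k) := by
      refine intervalIntegral.norm_integral_le_of_norm_le ht0 ?_
        (Continuous.intervalIntegrable (by fun_prop) _ _)
      refine Eventually.of_forall fun s hs => ?_
      have hs0 : 0 ≤ s := hs.1.le
      exact (h1b I g k _ (M * (2 * (g.C * k) * s) ^ n / n.factorial) (by positivity)
        (fun u hu => ih u hu s ⟨hs0, hs.2.trans ht.2⟩) f hf).2.2
    rw [Real.norm_eq_abs] at hbound
    refine hbound.trans (le_of_eq ?_)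
    have h6 : ∀ s : ℝ, 2 * (M * (2 * (g.C * k) * s) ^ n / n.factorial) * (g.C * k) =
        M * (2 * (g.C * k)) ^ (n + 1) / n.factorial * s ^ n := by
      intro s
      rw [mul_pow, pow_succ]
      ring
    rw [intervalIntegral.integral_congr (g := fun s : ℝ =>
      M * (2 * (g.C * k)) ^ (n + 1) / n.factorial * s ^ n) (fun s _ => h6 s),
      intervalIntegral.integral_const_mul, integral_pow, Nat.factorial_succ, mul_pow]
    push_cast
    have h1 : ((n:ℝ) + 1) ≠ 0 := by positivity
    have h2 : ((n.factorial : ℕ) : ℝ) ≠ 0 := by positivity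
    field_simp
    simp only [ne_eq, Nat.add_eq_zero_iff, one_ne_zero, and_false, not_false_eq_true, zero_pow,
      sub_zero]
    ring

theorem e2b (h2 : St_E2) : St_E2b := by
  intro I g k T M w w' hT hM hb hc he hb' hc' he' f f' hf hf' hj t ht
  have hkey : ∀ n : ℕ, |w t f - w' t f'| ≤
      2 * M * ((2 * (g.C * k) * t) ^ n / n.factorial) := by
    intro n
    have h1 := h2 I g k T M w hT hM hb hc he n f hf t ht
    have h3 := h2 I g k T M w' hT hM hb' hc' he' n f' hf' t ht
    have h4 : ∑ j ∈ Finset.range n, t ^ j / j.factorial * (g.A^[j] (w 0)) f =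
        ∑ j ∈ Finset.range n, t ^ j / j.factorial * (g.A^[j] (w' 0)) f' :=
      Finset.sum_congr rfl fun j _ => by rw [hj j]
    rw [h4] at h1
    rw [abs_le] at h1 h3 ⊢
    have h5 : 2 * M * ((2 * (g.C * k) * t) ^ n / n.factorial) =
        M * (2 * (g.C * k) * t) ^ n / n.factorial + M * (2 * (g.C * k) * t) ^ n / n.factorial := by
      ring
    constructor <;> linarith [h1.1, h1.2, h3.1, h3.2]
  have hlim : Tendsto (fun n : ℕ => 2 * M * ((2 * (g.C * k) * t) ^ n / n.factorial)) atTop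
      (𝓝 (2 * M * 0)) :=
    (FloorSemiring.tendsto_pow_div_factorial_atTop (2 * (g.C * k) * t)).const_mul _
  rw [mul_zero] at hlim
  have h0 : |w t f - w' t f'| ≤ 0 := ge_of_tendsto hlim (Eventually.of_forall hkey)
  exact sub_eq_zero.1 (abs_nonpos_iff.1 h0)

theorem e2c (h1a : St_E1a) : St_E2c := by
  intro I g k a a' haa j
  induction j with
  | zero => intro f hf; simpa using haa f hf
  | succ j ih =>
    intro f hf
    rw [Function.iterate_succ_apply', Function.iterate_succ_apply']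
    show ∑' i, g.r i * ((g.A^[j] a) (f ∘ g.φ i) - (g.A^[j] a) f) =
      ∑' i, g.r i * ((g.A^[j] a') (f ∘ g.φ i) - (g.A^[j] a') f)
    refine tsum_congr fun i => ?_
    rw [ih _ (h1a I g k f i hf), ih _ hf]

end H934X
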