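import Pool.Agent.H934R4.EX.Props

/-!
# Task X5 (E3): symmetry of the iterates
-/

set_option autoImplicit false

namespace H934X

open MeasureTheory ProbabilityTheory Filter Topology
open scoped ENNReal

namespace X5

variable {I : Type} (g : Gen I)

/-- the operator acting on the first argument of a form -/
noncomputable def A1 (B : ((I → Bool) → ℝ) → ((I → Bool) → ℝ) → ℝ) (f h : (I → Bool) → ℝ) : ℝ :=
  g.A (fun u => B u h) f

/-- the operator acting on the second argument of a form -/
noncomputable def A2 (B : ((I → Bool) → ℝ) → ((I → Bool) → ℝ) → ℝ) (f h : (I → Bool) → ℝ) : ℝ :=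
  g.A (fun u => B f u) h

theorem iter1 (j : ℕ) (B : ((I → Bool) → ℝ) → ((I → Bool) → ℝ) → ℝ) (f h : (I → Bool) → ℝ) :
    (A1 g)^[j] B f h = (g.A^[j] (fun u => B u h)) f := by
  induction j generalizing f with
  | zero => rfl
  | succ j ih =>
    rw [Function.iterate_succ_apply', Function.iterate_succ_apply']
    unfold A1 at ih ⊢
    congr 1
    funext u
    exact ih u

theorem iter2 (j : ℕ) (B : ((I → Bool) → ℝ) → ((I → Bool) → ℝ) → ℝ) (f h : (I → Bool) → ℝ) :
    (A2 g)^[j] B f h = (g.A^[j] (fun u => B f u)) h := by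
  induction j generalizing h with
  | zero => rfl
  | succ j ih =>
    rw [Function.iterate_succ_apply', Function.iterate_succ_apply']
    unfold A2 at ih ⊢
    congr 1
    funext u
    exact ih u

/-- equality on cylinder functions -/
def EqC (k : ℕ) (B B' : ((I → Bool) → ℝ) → ((I → Bool) → ℝ) → ℝ) : Prop :=
  ∀ f h, Cyl k f → Cyl k h → B f h = B' f h

/-- boundedness on cylinder functions -/
def Bd (k : ℕ) (M : ℝ) (B : ((I → Bool) → ℝ) → ((I → Bool) → ℝ) → ℝ) : Prop :=
  ∀ f h, Cyl k f → Cyl k h → |B f h| ≤ M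

variable (h1a : St_E1a) (h1b : St_E1b)

include h1a in
theorem A1_congr {k : ℕ} {B B' : ((I → Bool) → ℝ) → ((I → Bool) → ℝ) → ℝ} (h : EqC k B B') :
    EqC k (A1 g B) (A1 g B') := by
  intro f u hf hu
  unfold A1 Gen.A
  refine tsum_congr fun i => ?_
  dsimp only
  rw [h _ _ (h1a I g k f i hf) hu, h _ _ hf hu]

include h1a in
theorem A2_congr {k : ℕ} {B B' : ((I → Bool) → ℝ) → ((I → Bool) → ℝ) → ℝ} (h : EqC k B B') :
    EqC k (A2 g B) (A2 g B') := by
  intro f u hf hu
  unfold A2 Gen.A
  refine tsum_congr fun i => ?_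
  dsimp only
  rw [h _ _ hf (h1a I g k u i hu), h _ _ hf hu]

include h1a in
theorem A2_iter_congr {k : ℕ} (j : ℕ) {B B' : ((I → Bool) → ℝ) → ((I → Bool) → ℝ) → ℝ}
    (h : EqC k B B') : EqC k ((A2 g)^[j] B) ((A2 g)^[j] B') := by
  induction j generalizing B B' with
  | zero => exact h
  | succ j ih =>
    rw [Function.iterate_succ_apply, Function.iterate_succ_apply]
    exact ih (A2_congr g h1a h)

include h1b in
theorem A2_bd {k : ℕ} {M : ℝ} (hM : 0 ≤ M) {B : ((I → Bool) → ℝ) → ((I → Bool) → ℝ) → ℝ}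
    (h : Bd k M B) : Bd k (2 * M * (g.C * k)) (A2 g B) := by
  intro f u hf hu
  exact (h1b I g k (fun v => B f v) M hM (fun v hv => h f v hf hv) u hu).2.2

theorem summable_of_abs {ι : Type} {r x : ι → ℝ} (hr : ∀ i, 0 ≤ r i)
    (h : Summable fun i => r i * |x i|) : Summable fun i => r i * x i := by
  refine Summable.of_norm ?_
  refine h.congr fun i => ?_
  rw [Real.norm_eq_abs, abs_mul, abs_of_nonneg (hr i)]

include h1a h1b in
/-- the two operators commute -/
theorem comm {k : ℕ} {M : ℝ} (hM : 0 ≤ M) {B : ((I → Bool) → ℝ) → ((I → Bool) → ℝ) → ℝ}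
    (hB : Bd k M B) : EqC k (A1 g (A2 g B)) (A2 g (A1 g B)) := by
  classical
  intro f h hf hh
  set D : g.ι → g.ι → ℝ := fun i l =>
    (B (f ∘ g.φ i) (h ∘ g.φ l) - B f (h ∘ g.φ l)) - (B (f ∘ g.φ i) h - B f h) with hD
  have hfi := fun i => h1a I g k f i hf
  have hhi := fun i => h1a I g k h i hh
  -- first expression
  have s2 : ∀ u, Cyl k u → Summable fun l => g.r l * (B u (h ∘ g.φ l) - B u h) := fun u hu =>
    summable_of_abs g.r_nonneg (h1b I g k (fun v => B u v) M hM (fun v hv => hB u v hu hv) h hh).1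
  have s1 : ∀ u, Cyl k u → Summable fun i => g.r i * (B (f ∘ g.φ i) u - B f u) := fun u hu =>
    summable_of_abs g.r_nonneg (h1b I g k (fun v => B v u) M hM (fun v hv => hB v u hv hu) f hf).1
  have e1 : A1 g (A2 g B) f h = ∑' i, ∑' l, g.r i * (g.r l * D i l) := by
    unfold A1 A2 Gen.A
    refine tsum_congr fun i => ?_
    rw [← (s2 _ (hfi i)).tsum_sub (s2 _ hf), ← tsum_mul_left]
    refine tsum_congr fun l => ?_
    rw [hD]
    ring
  have e2 : A2 g (A1 g B) f h = ∑' l, ∑' i, g.r i * (g.r l * D i l) := by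
    unfold A1 A2 Gen.A
    refine tsum_congr fun l => ?_
    rw [← (s1 _ (hhi l)).tsum_sub (s1 _ hh), ← tsum_mul_left]
    refine tsum_congr fun i => ?_
    rw [hD]
    ring
  rw [e1, e2]
  -- absolute summability
  have hN : Summable fun i => g.r i * |(if f ∘ g.φ i = f then (0 : ℝ) else 1) - 0| := by
    have := (h1b I g k (fun v => if v = f then 0 else 1) 1 zero_le_one (fun v _ => by
      split_ifs <;> simp) f hf).1
    simpa using this
  have hrow : ∀ i, Summable (fun l => g.r l * |D i l|) ∧
      ∑' l, g.r l * |D i l| ≤ 2 * (2 * M) * (g.C * k) := by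
    intro i
    have := h1b I g k (fun v => B (f ∘ g.φ i) v - B f v) (2 * M) (by positivity)
      (fun v hv => by
        have a1 := abs_le.1 (hB _ v (hfi i) hv)
        have a2 := abs_le.1 (hB f v hf hv)
        rw [abs_le]
        constructor <;> linarith) h hh
    exact ⟨this.1, this.2.1⟩
  have habs : ∀ i l, |g.r i * (g.r l * D i l)| = g.r i * (g.r l * |D i l|) := by
    intro i l
    rw [abs_mul, abs_mul, abs_of_nonneg (g.r_nonneg i), abs_of_nonneg (g.r_nonneg l)]
  have hsum : Summable (Function.uncurry fun i l => g.r i * (g.r l * D i l)) := by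
    refine Summable.of_norm ?_
    rw [summable_prod_of_nonneg (fun _ => norm_nonneg _)]
    constructor
    · intro i
      simp only [Function.uncurry, Real.norm_eq_abs, habs]
      exact (hrow i).1.mul_left _
    · simp only [Function.uncurry, Real.norm_eq_abs, habs]
      refine Summable.of_nonneg_of_le (fun i => ?_) (fun i => ?_)
        (hN.mul_left (2 * (2 * M) * (g.C * k)))
      · exact tsum_nonneg fun l => mul_nonneg (g.r_nonneg i)
          (mul_nonneg (g.r_nonneg l) (abs_nonneg _))
      · rw [tsum_mul_left]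
        by_cases hi : f ∘ g.φ i = f
        · have : ∀ l, D i l = 0 := by
            intro l
            simp only [hD, hi]
            ring
          simp [this, hi]
        · rw [if_neg hi]
          have := mul_le_mul_of_nonneg_left (hrow i).2 (g.r_nonneg i)
          calc g.r i * ∑' l, g.r l * |D i l| ≤ g.r i * (2 * (2 * M) * (g.C * k)) := this
            _ = 2 * (2 * M) * (g.C * k) * (g.r i * |(1 : ℝ) - 0|) := by simp; ring
  exact hsum.tsum_comm.symm

include h1a h1b in
theorem comm_iter {k : ℕ} (j : ℕ) {M : ℝ} (hM : 0 ≤ M)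
    {B : ((I → Bool) → ℝ) → ((I → Bool) → ℝ) → ℝ} (hB : Bd k M B) :
    EqC k (A1 g ((A2 g)^[j] B)) ((A2 g)^[j] (A1 g B)) := by
  induction j generalizing B M with
  | zero => exact fun _ _ _ _ => rfl
  | succ j ih =>
    rw [Function.iterate_succ_apply, Function.iterate_succ_apply]
    have h1 := ih (by have := g.C_nonneg; positivity) (A2_bd g h1b hM hB)
    have h2 := A2_iter_congr g h1a j (comm g h1a h1b hM hB)
    intro f h hf hh
    rw [h1 f h hf hh, h2 f h hf hh]

/-- the form `∫ f h` -/
noncomputable def B0 (I : Type) (f h : (I → Bool) → ℝ) : ℝ := ∫ ω, f ω * h ω ∂(Pc I)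

theorem B0_bd (k : ℕ) : Bd k 1 (B0 I) := by
  intro f h hf hh
  unfold B0
  rw [← Real.norm_eq_abs]
  have := norm_integral_le_of_norm_le_const (μ := Pc I) (f := fun ω => f ω * h ω) (C := 1)
    (Eventually.of_forall fun ω => by
      rw [Real.norm_eq_abs, abs_mul]
      exact mul_le_one₀ (hf.2 ω) (abs_nonneg _) (hh.2 ω))
  simpa using this

theorem B0_symm (i : g.ι) (f h : (I → Bool) → ℝ) :
    B0 I (f ∘ g.φ i) h = B0 I f (h ∘ g.φ i) := by
  let e : (I → Bool) ≃ᵐ (I → Bool) :=
    { toFun := g.φ i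
      invFun := g.φ i
      left_inv := g.inv i
      right_inv := g.inv i
      measurable_toFun := (g.pres i).measurable
      measurable_invFun := (g.pres i).measurable }
  have he : MeasurePreserving e (Pc I) (Pc I) := g.pres i
  unfold B0
  rw [← he.integral_comp' (fun ω => (f ∘ g.φ i) ω * h ω)]
  refine integral_congr_ae (Eventually.of_forall fun ω => ?_)
  show f (g.φ i (g.φ i ω)) * h (g.φ i ω) = f ω * h (g.φ i ω)
  rw [g.inv]

theorem A_B0 : A1 g (B0 I) = A2 g (B0 I) := by
  funext f h
  unfold A1 A2 Gen.A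
  refine tsum_congr fun i => ?_
  dsimp only
  rw [B0_symm]

include h1a h1b in
theorem main (k j : ℕ) : EqC k ((A1 g)^[j] (B0 I)) ((A2 g)^[j] (B0 I)) := by
  induction j with
  | zero => exact fun _ _ _ _ => rfl
  | succ j ih =>
    rw [Function.iterate_succ_apply', Function.iterate_succ_apply]
    intro f h hf hh
    rw [A1_congr g h1a ih f h hf hh, comm_iter g h1a h1b j zero_le_one (B0_bd k) f h hf hh,
      A_B0]

end X5

theorem e3 (h1a : St_E1a) (h1b : St_E1b) : St_E3 := by
  intro I g k f h hf hh j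
  have h1 := X5.main g h1a h1b k j f h hf hh
  rw [X5.iter1, X5.iter2] at h1
  have h2 : (fun u : (I → Bool) → ℝ => ∫ ω, u ω * f ω ∂(Pc I)) = fun u => X5.B0 I f u := by
    funext u
    unfold X5.B0
    simp only [mul_comm]
  rw [h2]
  exact h1

end H934X
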