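import Pool.Agent.H934R4.EX.Props

/-!
# Task X6: E4a, E4b — the equation for the correlations; reversibility
-/

set_option autoImplicit false

namespace H934X

open MeasureTheory ProbabilityTheory Filter Topology
open scoped ENNReal

namespace X6

variable {I Ω : Type}

lemma past_le [mΩ : MeasurableSpace Ω] {X : ℝ → Ω → I → Bool} (hX : ∀ t, Measurable (X t))
    (s : ℝ) : past X s ≤ mΩ :=
  iSup₂_le fun u _ => (hX u).comap_le

lemma past_mono {X : ℝ → Ω → I → Bool} {s t : ℝ} (h : s ≤ t) : past X s ≤ past X t :=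
  iSup₂_le fun u hu => le_iSup₂_of_le u ⟨hu.1, hu.2.trans h⟩ le_rfl

lemma meas_past {X : ℝ → Ω → I → Bool} {s u : ℝ} (h0 : 0 ≤ u) (h : u ≤ s) :
    Measurable[past X s] (X u) := by
  rw [measurable_iff_comap_le]
  exact le_iSup₂_of_le (f := fun (u : ℝ) (_ : u ∈ Set.Icc (0 : ℝ) s) =>
    MeasurableSpace.comap (X u) inferInstance) u ⟨h0, h⟩ le_rfl

lemma abs_int_le [MeasurableSpace Ω] {μ : Measure Ω} [IsProbabilityMeasure μ] {F : Ω → ℝ} {C : ℝ}
    (h : ∀ ω, |F ω| ≤ C) : |∫ ω, F ω ∂μ| ≤ C := by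
  have := norm_integral_le_of_norm_le_const (μ := μ) (f := F) (C := C)
    (Eventually.of_forall fun ω => by simpa [Real.norm_eq_abs] using h ω)
  simpa [Real.norm_eq_abs] using this

lemma integrable_bdd [MeasurableSpace Ω] {μ : Measure Ω} [IsProbabilityMeasure μ] {F : Ω → ℝ}
    {C : ℝ} (hm : Measurable F) (h : ∀ ω, |F ω| ≤ C) : Integrable F μ :=
  Integrable.of_bound hm.aestronglyMeasurable C
    (Eventually.of_forall fun ω => by simpa [Real.norm_eq_abs] using h ω)

lemma abs_mul_le_one {a b : ℝ} (ha : |a| ≤ 1) (hb : |b| ≤ 1) : |a * b| ≤ 1 := by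
  rw [abs_mul]
  exact mul_le_one₀ ha (abs_nonneg _) hb

end X6

open X6

theorem e4a (h1c : St_E1c) (h1d : St_E1d) : St_E4a := by
  intro I g Ω _ μ _ X hX s hs G hG hG1 k
  have hGm : Measurable G := hG.mono (past_le hX.meas s) le_rfl
  -- the basic identity between two times
  have key : ∀ f, Cyl k f → ∀ t t1 : ℝ, 0 ≤ t → t ≤ t1 →
      ∫ ω, f (X (s + t1) ω) * G ω ∂μ - ∫ ω, f (X (s + t) ω) * G ω ∂μ =
        ∫ u in (s + t)..(s + t1), ∫ ω, g.L f (X u ω) * G ω ∂μ := by
    intro f hf t t1 ht htt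
    obtain ⟨S, hSk, hS⟩ := hf.1
    have hfm : Measurable f := (h1c I g k f hf).1
    have hm := hX.mart S f hS (s + t) (s + t1) (by linarith) (by linarith) G
      (hG.mono (past_mono (by linarith)) le_rfl) hG1
    rw [← hm, ← integral_sub]
    · refine integral_congr_ae (Eventually.of_forall fun ω => ?_)
      simp only
      ring
    · exact integrable_bdd (C := 1) ((hfm.comp (hX.meas _)).mul hGm)
        fun ω => abs_mul_le_one (hf.2 _) (hG1 _)
    · exact integrable_bdd (C := 1) ((hfm.comp (hX.meas _)).mul hGm)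
        fun ω => abs_mul_le_one (hf.2 _) (hG1 _)
  refine ⟨fun f hf t => abs_int_le fun ω => abs_mul_le_one (hf.2 _) (hG1 _), ?_, ?_⟩
  · intro f hf T hT
    have hCk : 0 ≤ 2 * (g.C * k) := by
      have := g.C_nonneg
      positivity
    have hb : ∀ t t1 : ℝ, 0 ≤ t → t ≤ t1 →
        |∫ ω, f (X (s + t1) ω) * G ω ∂μ - ∫ ω, f (X (s + t) ω) * G ω ∂μ| ≤
          2 * (g.C * k) * |t1 - t| := by
      intro t t1 ht htt
      rw [key f hf t t1 ht htt]
      have := intervalIntegral.norm_integral_le_of_norm_le_const (a := s + t) (b := s + t1)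
        (f := fun u => ∫ ω, g.L f (X u ω) * G ω ∂μ) (C := 2 * (g.C * k)) (by
          intro u _
          rw [Real.norm_eq_abs]
          refine abs_int_le fun ω => ?_
          rw [abs_mul]
          calc |g.L f (X u ω)| * |G ω| ≤ 2 * (g.C * k) * 1 :=
                mul_le_mul ((h1c I g k f hf).2.2.2.2 _) (hG1 ω) (abs_nonneg _) hCk
            _ = 2 * (g.C * k) := mul_one _)
      rw [Real.norm_eq_abs] at this
      have h2 : s + t1 - (s + t) = t1 - t := by ring
      rwa [h2] at this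
    have hL : LipschitzOnWith ⟨2 * (g.C * k), hCk⟩ (fun t => ∫ ω, f (X (s + t) ω) * G ω ∂μ)
        (Set.Icc 0 T) := by
      refine LipschitzOnWith.of_dist_le_mul fun x hx y hy => ?_
      rw [Real.dist_eq, Real.dist_eq]
      show _ ≤ 2 * (g.C * k) * |x - y|
      rcases le_total x y with h | h
      · rw [abs_sub_comm, abs_sub_comm x y]
        exact hb x y hx.1 h
      · exact hb y x hy.1 h
    exact hL.continuousOn
  · intro f hf t ht
    have h1 := key f hf 0 t le_rfl ht
    have h2 : ∫ u in (0:ℝ)..t, g.A (fun v => ∫ ω, v (X (s + u) ω) * G ω ∂μ) f =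
        ∫ u in (s + 0)..(s + t), ∫ ω, g.L f (X u ω) * G ω ∂μ := by
      rw [← intervalIntegral.integral_comp_add_left
        (fun u => ∫ ω, g.L f (X u ω) * G ω ∂μ) s]
      refine intervalIntegral.integral_congr fun u _ => ?_
      exact (h1d I g k f hf Ω μ (X (s + u)) G (hX.meas _) hGm hG1).symm
    rw [h2, ← h1]
    ring

theorem e4b (h1c : St_E1c) (h1e : St_E1e) (h2b : St_E2b) (h2c : St_E2c) (h3 : St_E3)
    (h4a : St_E4a) : St_E4b := by
  intro I _ g Ω _ μ _ X hX t ht
  have hgen : ∀ (k : ℕ) (f h : (I → Bool) → ℝ), Cyl k f → Cyl k h →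
      ∫ ω, f (X t ω) * h (X 0 ω) ∂μ = ∫ ω, h (X t ω) * f (X 0 ω) ∂μ := by
    intro k f h hf hh
    have hm : ∀ u : (I → Bool) → ℝ, Cyl k u → Measurable[past X 0] (fun ω => u (X 0 ω)) :=
      fun u hu => (h1c I g k u hu).1.comp (meas_past le_rfl le_rfl)
    have Hh := h4a I g Ω μ X hX 0 le_rfl (fun ω => h (X 0 ω)) (hm h hh) (fun ω => hh.2 _) k
    have Hf := h4a I g Ω μ X hX 0 le_rfl (fun ω => f (X 0 ω)) (hm f hf) (fun ω => hf.2 _) k
    have h0 : ∀ u v : (I → Bool) → ℝ, Cyl k u → Cyl k v →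
        ∫ ω, u (X (0 + 0) ω) * v (X 0 ω) ∂μ = ∫ ω, u ω * v ω ∂(Pc I) := by
      intro u v hu hv
      rw [add_zero, ← hX.init, integral_map (hX.meas 0).aemeasurable]
      exact ((h1c I g k u hu).1.mul (h1c I g k v hv).1).aestronglyMeasurable
    have hmain := h2b I g k t 1 (fun t u => ∫ ω, u (X (0 + t) ω) * h (X 0 ω) ∂μ)
      (fun t u => ∫ ω, u (X (0 + t) ω) * f (X 0 ω) ∂μ) ht zero_le_one
      (fun u hu r _ => Hh.1 u hu r) (fun u hu => Hh.2.1 u hu t ht)
      (fun u hu r hr => Hh.2.2 u hu r hr.1)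
      (fun u hu r _ => Hf.1 u hu r) (fun u hu => Hf.2.1 u hu t ht)
      (fun u hu r hr => Hf.2.2 u hu r hr.1) f h hf hh (fun j => by
        rw [h2c I g k _ (fun u => ∫ ω, u ω * h ω ∂(Pc I)) (fun u hu => h0 u h hu hh) j f hf,
          h2c I g k _ (fun u => ∫ ω, u ω * f ω ∂(Pc I)) (fun u hu => h0 u f hu hf) j h hh]
        exact h3 I g k f h hf hh j) t ⟨ht, le_rfl⟩
    simpa using hmain
  have hm1 : Measurable (fun ω => (X 0 ω, X t ω)) := (hX.meas 0).prodMk (hX.meas t)
  have hm2 : Measurable (fun ω => (X t ω, X 0 ω)) := (hX.meas t).prodMk (hX.meas 0)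
  have hsym : μ.map (fun ω => (X 0 ω, X t ω)) = μ.map (fun ω => (X t ω, X 0 ω)) := by
    have : IsProbabilityMeasure (μ.map (fun ω => (X 0 ω, X t ω))) :=
      Measure.isProbabilityMeasure_map hm1.aemeasurable
    have : IsProbabilityMeasure (μ.map (fun ω => (X t ω, X 0 ω))) :=
      Measure.isProbabilityMeasure_map hm2.aemeasurable
    refine (h1e I).2 _ _ fun k f h hf hh => ?_
    have hfm := (h1c I g k f hf).1
    have hhm := (h1c I g k h hh).1
    have hfh : Measurable (fun p : (I → Bool) × (I → Bool) => f p.1 * h p.2) :=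
      (hfm.comp measurable_fst).mul (hhm.comp measurable_snd)
    rw [integral_map hm1.aemeasurable hfh.aestronglyMeasurable,
      integral_map hm2.aemeasurable hfh.aestronglyMeasurable]
    simp only
    rw [hgen k f h hf hh]
    exact integral_congr_ae (Eventually.of_forall fun ω => mul_comm _ _)
  refine ⟨hsym, ?_⟩
  have h5 := congrArg (fun m => m.map Prod.snd) hsym
  rw [Measure.map_map measurable_snd hm1, Measure.map_map measurable_snd hm2] at h5
  exact h5.trans hX.init

end H934X
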