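import Pool.Agent.H934R4.EX.Props

/-!
Task X7 (helper234): the Markov property with the kernel `condDistrib (X t) (X 0) μ`, and the
skeleton chains.
-/

set_option autoImplicit false

namespace H934X

open MeasureTheory ProbabilityTheory Filter Topology
open scoped ENNReal

variable {I : Type} {Ω : Type}

theorem X7_past_le [mΩ : MeasurableSpace Ω] {X : ℝ → Ω → I → Bool} (hX : ∀ t, Measurable (X t))
    (s : ℝ) : past X s ≤ mΩ :=
  iSup₂_le fun u _ => (hX u).comap_le

theorem X7_past_mono {X : ℝ → Ω → I → Bool} {s s' : ℝ} (h : s ≤ s') : past X s ≤ past X s' :=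
  iSup₂_le fun u hu => le_iSup₂_of_le u ⟨hu.1, hu.2.trans h⟩ le_rfl

theorem X7_past_meas {X : ℝ → Ω → I → Bool} {s : ℝ} (hs : 0 ≤ s) : Measurable[past X s] (X s) := by
  have h : MeasurableSpace.comap (X s) inferInstance ≤ past X s :=
    le_iSup₂_of_le s ⟨hs, le_rfl⟩ le_rfl
  exact measurable_iff_comap_le.mpr h

/-- A density with values in `[0,1]`. -/
theorem X7_density {E : Type} [MeasurableSpace E] (m ν : Measure E) [IsFiniteMeasure m]
    (h : ν ≤ m) : ∃ ρ : E → ℝ, Measurable ρ ∧ (∀ x, 0 ≤ ρ x) ∧ (∀ x, ρ x ≤ 1) ∧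
      ν = m.withDensity (fun x => ENNReal.ofReal (ρ x)) := by
  have : IsFiniteMeasure ν := isFiniteMeasure_of_le m h
  refine ⟨fun x => min (ν.rnDeriv m x).toReal 1,
    (Measure.measurable_rnDeriv ν m).ennreal_toReal.min measurable_const,
    fun x => le_min ENNReal.toReal_nonneg zero_le_one, fun x => min_le_right _ _, ?_⟩
  have h1 := Measure.rnDeriv_le_one_of_le h
  have h2 := Measure.withDensity_rnDeriv_eq ν m (Measure.absolutelyContinuous_of_le h)
  conv_lhs => rw [← h2]
  apply withDensity_congr_ae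
  filter_upwards [h1] with x hx
  have hx' : ν.rnDeriv m x ≤ 1 := hx
  have hx1 : (ν.rnDeriv m x).toReal ≤ 1 := by
    have := ENNReal.toReal_mono ENNReal.one_ne_top hx'
    simpa using this
  rw [min_eq_left hx1, ENNReal.ofReal_toReal (ne_top_of_le_ne_top ENNReal.one_ne_top hx')]

theorem e5 (h1e : St_E1e) (h2b : St_E2b) (h2c : St_E2c) (h4a : St_E4a) (h4b : St_E4b) :
    St_E5 := by
  intro I _ g Ω mΩ μ _ X hX s t hs ht B hB D hD
  have hle : past X s ≤ mΩ := X7_past_le hX.meas s
  have hB' : MeasurableSet B := hle _ hB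
  have hms := (h4b I g Ω μ X hX s hs).2
  obtain ⟨ρ, hρm, hρ0, hρ1, hρ⟩ := X7_density (Pc I) ((μ.restrict B).map (X s)) (by
    rw [← hms]
    exact Measure.map_mono Measure.restrict_le_self (hX.meas s))
  have hρm' : Measurable (fun x => ENNReal.ofReal (ρ x)) := hρm.ennreal_ofReal
  have hρX : Measurable (fun ω => ENNReal.ofReal (ρ (X 0 ω))) := hρm'.comp (hX.meas 0)
  set G : Ω → ℝ := B.indicator (fun _ => (1:ℝ)) with hG
  set G0 : Ω → ℝ := fun ω => ρ (X 0 ω) with hG0
  have hGm : Measurable[past X s] G := measurable_const.indicator hB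
  have hG0m : Measurable[past X 0] G0 := hρm.comp (X7_past_meas le_rfl)
  have hG1 : ∀ ω, |G ω| ≤ 1 := by
    intro ω
    by_cases hω : ω ∈ B
    · rw [hG, Set.indicator_of_mem hω]; simp
    · rw [hG, Set.indicator_of_notMem hω]; simp
  have hG01 : ∀ ω, |G0 ω| ≤ 1 := by
    intro ω
    rw [hG0, abs_of_nonneg (hρ0 _)]
    exact hρ1 _
  -- integrals against `G`
  have key : ∀ (r : ℝ) (u : (I → Bool) → ℝ), Measurable u →
      ∫ ω, u (X r ω) * G ω ∂μ = ∫ x, u x ∂((μ.restrict B).map (X r)) := by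
    intro r u hu
    rw [integral_map (hX.meas r).aemeasurable hu.aestronglyMeasurable, ← integral_indicator hB']
    congr 1
    funext ω
    by_cases hω : ω ∈ B
    · rw [hG, Set.indicator_of_mem hω, Set.indicator_of_mem hω, mul_one]
    · rw [hG, Set.indicator_of_notMem hω, Set.indicator_of_notMem hω, mul_zero]
  have key0 : ∀ (r : ℝ) (u : (I → Bool) → ℝ), Measurable u →
      ∫ ω, u (X r ω) * G0 ω ∂μ =
        ∫ x, u x ∂((μ.withDensity (fun ω => ENNReal.ofReal (ρ (X 0 ω)))).map (X r)) := by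
    intro r u hu
    rw [integral_map (hX.meas r).aemeasurable hu.aestronglyMeasurable,
      integral_withDensity_eq_integral_toReal_smul hρX
        (Eventually.of_forall fun ω => ENNReal.ofReal_lt_top)]
    congr 1
    funext ω
    rw [hG0, ENNReal.toReal_ofReal (hρ0 _), smul_eq_mul, mul_comm]
  -- the initial values agree
  have hinit : (μ.restrict B).map (X s) =
      (μ.withDensity (fun ω => ENNReal.ofReal (ρ (X 0 ω)))).map (X 0) := by
    rw [hρ]
    ext A hA
    rw [Measure.map_apply (hX.meas 0) hA, withDensity_apply _ hA,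
      withDensity_apply _ (hX.meas 0 hA), ← hX.init,
      setLIntegral_map hA hρm' (hX.meas 0)]
  have hcyl : ∀ k (f : (I → Bool) → ℝ), Cyl k f →
      ∫ x, f x ∂((μ.restrict B).map (X (s + t))) =
        ∫ x, f x ∂((μ.withDensity (fun ω => ENNReal.ofReal (ρ (X 0 ω)))).map (X t)) := by
    intro k f hf
    have hfm : ∀ f : (I → Bool) → ℝ, Cyl k f → Measurable f := by
      intro f hf
      obtain ⟨⟨S, -, hS⟩, -⟩ := hf
      have : Countable I := inferInstance
      have h1 : f = (fun y : (S → Bool) => f (fun x => open Classical in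
          if h : x ∈ S then y ⟨x, h⟩ else false)) ∘ (fun ω x => ω x.1) := by
        classical
        funext ω
        simp only [Function.comp]
        apply hS
        intro x hx
        have hx' : x ∈ S := hx
        simp [hx']
      rw [h1]
      exact (measurable_of_countable _).comp
        (measurable_pi_lambda _ fun x => measurable_pi_apply x.1)
    obtain ⟨a1, a2, a3⟩ := h4a I g Ω μ X hX s hs G hGm hG1 k
    obtain ⟨b1, b2, b3⟩ := h4a I g Ω μ X hX 0 le_rfl G0 hG0m hG01 k
    have h0 : ∀ u, Cyl k u → ∫ ω, u (X (s + 0) ω) * G ω ∂μ = ∫ ω, u (X (0 + 0) ω) * G0 ω ∂μ := by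
      intro u hu
      rw [add_zero, add_zero, key s u (hfm u hu), key0 0 u (hfm u hu), hinit]
    have h := h2b I g k t 1 (fun t u => ∫ ω, u (X (s + t) ω) * G ω ∂μ)
      (fun t u => ∫ ω, u (X (0 + t) ω) * G0 ω ∂μ) ht zero_le_one
      (fun f hf t _ => a1 f hf t) (fun f hf => a2 f hf t ht) (fun f hf t' ht' => a3 f hf t' ht'.1)
      (fun f hf t _ => b1 f hf t) (fun f hf => b2 f hf t ht) (fun f hf t' ht' => b3 f hf t' ht'.1)
      f f hf hf (fun j => h2c I g k _ _ h0 j f hf) t ⟨ht, le_rfl⟩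
    simp only [zero_add] at h
    rw [key _ f (hfm f hf), key0 _ f (hfm f hf)] at h
    exact h
  have : IsFiniteMeasure (μ.withDensity (fun ω => ENNReal.ofReal (ρ (X 0 ω)))) := by
    refine isFiniteMeasure_withDensity (ne_top_of_le_ne_top (b := 1) ENNReal.one_ne_top ?_)
    calc ∫⁻ ω, ENNReal.ofReal (ρ (X 0 ω)) ∂μ ≤ ∫⁻ _, 1 ∂μ :=
          lintegral_mono fun ω => by
            rw [← ENNReal.ofReal_one]
            exact ENNReal.ofReal_le_ofReal (hρ1 _)
      _ = 1 := by simp
  have : IsFiniteMeasure ((μ.restrict B).map (X (s + t))) := Measure.isFiniteMeasure_map _ _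
  have : IsFiniteMeasure ((μ.withDensity (fun ω => ENNReal.ofReal (ρ (X 0 ω)))).map (X t)) :=
    Measure.isFiniteMeasure_map _ _
  have heq := (h1e I).1 _ _ hcyl
  have hκD : Measurable (fun x => condDistrib (X t) (X 0) μ x D) := Kernel.measurable_coe _ hD
  -- left hand side
  have hL : μ (B ∩ X (s + t) ⁻¹' D) =
      ∫⁻ ω in X t ⁻¹' D, ENNReal.ofReal (ρ (X 0 ω)) ∂μ := by
    have h1 : μ (B ∩ X (s + t) ⁻¹' D) = ((μ.restrict B).map (X (s + t))) D := by
      rw [Measure.map_apply (hX.meas _) hD, Measure.restrict_apply (hX.meas _ hD),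
        Set.inter_comm]
    rw [h1, heq, Measure.map_apply (hX.meas _) hD, withDensity_apply _ (hX.meas _ hD)]
  -- right hand side
  have hR : ∫⁻ ω in B, condDistrib (X t) (X 0) μ (X s ω) D ∂μ =
      ∫⁻ x, ENNReal.ofReal (ρ x) * condDistrib (X t) (X 0) μ x D ∂(Pc I) := by
    rw [← lintegral_map (μ := μ.restrict B) hκD (hX.meas s), hρ,
      lintegral_withDensity_eq_lintegral_mul _ hρm' hκD]
    rfl
  rw [hL, hR]
  have hcomp : (μ.map (X 0)) ⊗ₘ condDistrib (X t) (X 0) μ = μ.map fun a => (X 0 a, X t a) :=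
    compProd_map_condDistrib (hX.meas t).aemeasurable
  have hF : Measurable (fun z : (I → Bool) × (I → Bool) =>
      ENNReal.ofReal (ρ z.1) * D.indicator (fun _ => (1:ℝ≥0∞)) z.2) :=
    (hρm'.comp measurable_fst).mul ((measurable_const.indicator hD).comp measurable_snd)
  have h1 : ∫⁻ z, ENNReal.ofReal (ρ z.1) * D.indicator (fun _ => (1:ℝ≥0∞)) z.2
      ∂(μ.map (X 0) ⊗ₘ condDistrib (X t) (X 0) μ) =
      ∫⁻ x, ENNReal.ofReal (ρ x) * condDistrib (X t) (X 0) μ x D ∂(Pc I) := by
    rw [Measure.lintegral_compProd hF, hX.init]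
    congr 1
    funext x
    change ∫⁻ b, ENNReal.ofReal (ρ x) * D.indicator (fun _ => (1:ℝ≥0∞)) b
      ∂(condDistrib (X t) (X 0) μ x) = _
    rw [lintegral_const_mul _ (measurable_const.indicator hD), lintegral_indicator hD]
    simp
  rw [← h1, hcomp, lintegral_map hF ((hX.meas 0).prodMk (hX.meas t)),
    ← lintegral_indicator (hX.meas t hD)]
  congr 1
  funext ω
  by_cases hω : X t ω ∈ D
  · rw [Set.indicator_of_mem (show ω ∈ X t ⁻¹' D from hω), Set.indicator_of_mem hω, mul_one]
  · rw [Set.indicator_of_notMem (show ω ∉ X t ⁻¹' D from hω), Set.indicator_of_notMem hω,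
      mul_zero]

theorem e5b (h4b : St_E4b) (h5 : St_E5) : St_E5b := by
  intro I _ g Ω mΩ μ _ X hX j
  have hδ : (0:ℝ) ≤ 1 / 2 ^ j := by positivity
  set δ : ℝ := 1 / 2 ^ j with hδd
  have hcomp : (μ.map (X 0)) ⊗ₘ condDistrib (X δ) (X 0) μ = μ.map fun a => (X 0 a, X δ a) :=
    compProd_map_condDistrib (hX.meas δ).aemeasurable
  obtain ⟨hsym, -⟩ := h4b I g Ω μ X hX δ hδ
  refine ⟨⟨?_⟩, ⟨?_, ?_, ?_, ?_, ?_⟩, ?_⟩
  · intro A D hA hD
    have h1 : ∀ A D : Set (I → Bool), MeasurableSet A → MeasurableSet D →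
        ∫⁻ x in A, condDistrib (X δ) (X 0) μ x D ∂(Pc I) =
          μ.map (fun a => (X 0 a, X δ a)) (A ×ˢ D) := by
      intro A D hA hD
      rw [← hcomp, Measure.compProd_apply_prod hA hD, hX.init]
    rw [h1 A D hA hD, h1 D A hD hA]
    conv_lhs => rw [hsym]
    rw [Measure.map_apply ((hX.meas δ).prodMk (hX.meas 0)) (hA.prod hD),
      Measure.map_apply ((hX.meas 0).prodMk (hX.meas δ)) (hD.prod hA)]
    congr 1
    ext ω
    simp [and_comm]
  · exact fun k => X7_past_le hX.meas _
  · intro k l hkl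
    apply X7_past_mono
    gcongr
  · intro k
    exact X7_past_meas (by positivity)
  · simpa using hX.init
  · intro k B hB D hD
    have h := h5 I g Ω μ X hX ((k:ℝ) / 2 ^ j) δ (by positivity) hδ B hB D hD
    have e : (k:ℝ) / 2 ^ j + δ = ((k + 1 : ℕ) : ℝ) / 2 ^ j := by
      rw [hδd]; push_cast; ring
    rw [e] at h
    exact h
  · intro f hf hf1
    have hF : Measurable (fun z : (I → Bool) × (I → Bool) => f z.1 * f z.2) :=
      (hf.comp measurable_fst).mul (hf.comp measurable_snd)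
    have hFb : ∀ z : (I → Bool) × (I → Bool), ‖f z.1 * f z.2‖ ≤ 1 := by
      intro z
      rw [Real.norm_eq_abs, abs_mul]
      exact mul_le_one₀ (hf1 _) (abs_nonneg _) (hf1 _)
    have hint : Integrable (fun z : (I → Bool) × (I → Bool) => f z.1 * f z.2)
        (μ.map (X 0) ⊗ₘ condDistrib (X δ) (X 0) μ) := by
      have : IsProbabilityMeasure (μ.map (X 0)) :=
        Measure.isProbabilityMeasure_map (hX.meas 0).aemeasurable
      exact Integrable.of_bound hF.aestronglyMeasurable 1 (Eventually.of_forall hFb)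
    have h1 := Measure.integral_compProd hint
    rw [hcomp, integral_map ((hX.meas 0).prodMk (hX.meas δ)).aemeasurable
      hF.aestronglyMeasurable, hX.init] at h1
    rw [h1]
    congr 1
    funext x
    change _ = ∫ b, f x * f b ∂(condDistrib (X δ) (X 0) μ x)
    rw [integral_const_mul]

end H934X
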