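import Pool.Agent.H934R4.EX.Props

/-!
# Task X8 (E6): potential theory of a reversible kernel
-/

set_option autoImplicit false

namespace H934X

open MeasureTheory ProbabilityTheory Filter Topology
open scoped ENNReal

section X8

variable {E : Type} [MeasurableSpace E]

theorem x8_int {m : Measure E} [IsFiniteMeasure m] {f : E → ℝ} (hf : Measurable f) (C : ℝ)
    (hb : ∀ x, |f x| ≤ C) : Integrable f m :=
  Integrable.of_bound hf.aestronglyMeasurable C (Filter.Eventually.of_forall (by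
    intro x; rw [Real.norm_eq_abs]; exact hb x))

theorem x8_abs {f : E → ℝ} (hb : ∀ x, 0 ≤ f x ∧ f x ≤ 1) (x : E) : |f x| ≤ 1 := by
  rw [abs_le]
  exact ⟨by linarith [(hb x).1], (hb x).2⟩

/-- The averaging operator of a kernel. -/
noncomputable def x8K (κ : Kernel E E) (f : E → ℝ) (x : E) : ℝ := ∫ y, f y ∂(κ x)

theorem x8K_meas (κ : Kernel E E) [IsMarkovKernel κ] {f : E → ℝ} (hf : Measurable f) :
    Measurable (x8K κ f) := by
  unfold x8K
  exact (hf.stronglyMeasurable.integral_kernel (κ := κ)).measurable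

theorem x8K_bd (κ : Kernel E E) [IsMarkovKernel κ] {f : E → ℝ} (hf : Measurable f)
    (hb : ∀ x, 0 ≤ f x ∧ f x ≤ 1) (x : E) : 0 ≤ x8K κ f x ∧ x8K κ f x ≤ 1 := by
  constructor
  · exact integral_nonneg (fun y => (hb y).1)
  · have h1 : x8K κ f x ≤ ∫ y, (1 : ℝ) ∂(κ x) :=
      integral_mono (x8_int hf 1 (x8_abs hb)) (integrable_const _) (fun y => (hb y).2)
    simpa using h1

theorem x8K_mono (κ : Kernel E E) [IsMarkovKernel κ] {f g : E → ℝ} (hf : Measurable f)
    (hg : Measurable g) (C D : ℝ) (hbf : ∀ x, |f x| ≤ C) (hbg : ∀ x, |g x| ≤ D)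
    (h : ∀ x, f x ≤ g x) (x : E) : x8K κ f x ≤ x8K κ g x :=
  integral_mono (x8_int hf C hbf) (x8_int hg D hbg) h

open Classical in
/-- The iterates: `h 0 = 1_O`, `h (n+1) = 1_O + 1_{O^c} l K (h n)`. -/
noncomputable def x8h (κ : Kernel E E) (O : Set E) (l : ℝ) : ℕ → E → ℝ
  | 0 => fun x => if x ∈ O then 1 else 0
  | n + 1 => fun x => if x ∈ O then 1 else l * x8K κ (x8h κ O l n) x

theorem x8h_meas (κ : Kernel E E) [IsMarkovKernel κ] {O : Set E} (hO : MeasurableSet O) (l : ℝ)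
    (n : ℕ) : Measurable (x8h κ O l n) := by
  classical
  induction n with
  | zero =>
    unfold x8h
    exact Measurable.ite hO measurable_const measurable_const
  | succ n ih =>
    unfold x8h
    exact Measurable.ite hO measurable_const ((x8K_meas κ ih).const_mul l)

theorem x8h_bd (κ : Kernel E E) [IsMarkovKernel κ] {O : Set E} (hO : MeasurableSet O) {l : ℝ}
    (h0 : 0 ≤ l) (h1 : l ≤ 1) (n : ℕ) : ∀ x, 0 ≤ x8h κ O l n x ∧ x8h κ O l n x ≤ 1 := by
  classical
  induction n with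
  | zero =>
    intro x
    unfold x8h
    split_ifs <;> simp
  | succ n ih =>
    intro x
    unfold x8h
    split_ifs
    · simp
    · obtain ⟨a, b⟩ := x8K_bd κ (x8h_meas κ hO l n) ih x
      exact ⟨mul_nonneg h0 a, by nlinarith⟩

theorem x8h_on (κ : Kernel E E) {O : Set E} (l : ℝ) (n : ℕ) {x : E} (hx : x ∈ O) :
    x8h κ O l n x = 1 := by
  classical
  cases n with
  | zero => unfold x8h; rw [if_pos hx]
  | succ n => unfold x8h; rw [if_pos hx]

theorem x8h_off (κ : Kernel E E) {O : Set E} (l : ℝ) (n : ℕ) {x : E} (hx : x ∉ O) :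
    x8h κ O l (n + 1) x = l * x8K κ (x8h κ O l n) x := by
  classical
  rw [x8h]
  exact if_neg hx

theorem x8h_mono (κ : Kernel E E) [IsMarkovKernel κ] {O : Set E} (hO : MeasurableSet O) {l : ℝ}
    (h0 : 0 ≤ l) (h1 : l ≤ 1) (n : ℕ) : ∀ x, x8h κ O l n x ≤ x8h κ O l (n + 1) x := by
  classical
  induction n with
  | zero =>
    intro x
    by_cases hx : x ∈ O
    · rw [x8h_on κ l 0 hx, x8h_on κ l (0 + 1) hx]
    · have : x8h κ O l 0 x = 0 := by unfold x8h; rw [if_neg hx]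
      rw [this]
      exact (x8h_bd κ hO h0 h1 _ x).1
  | succ n ih =>
    intro x
    by_cases hx : x ∈ O
    · rw [x8h_on κ l _ hx, x8h_on κ l _ hx]
    · rw [x8h_off κ l _ hx, x8h_off κ l _ hx]
      exact mul_le_mul_of_nonneg_left (x8K_mono κ (x8h_meas κ hO l _) (x8h_meas κ hO l _) 1 1
        (x8_abs (x8h_bd κ hO h0 h1 _)) (x8_abs (x8h_bd κ hO h0 h1 _)) ih x) h0

/-- The limit. -/
theorem x8_lim (κ : Kernel E E) [IsMarkovKernel κ] {O : Set E} (hO : MeasurableSet O) {l : ℝ}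
    (h0 : 0 ≤ l) (h1 : l ≤ 1) : ∃ h : E → ℝ, Measurable h ∧ (∀ x, 0 ≤ h x ∧ h x ≤ 1) ∧
      (∀ x ∈ O, h x = 1) ∧ (∀ x, x ∉ O → h x = l * x8K κ h x) := by
  classical
  have hm : ∀ x, Monotone (fun n => x8h κ O l n x) := fun x =>
    monotone_nat_of_le_succ (fun n => x8h_mono κ hO h0 h1 n x)
  have hbd : ∀ x, BddAbove (Set.range (fun n => x8h κ O l n x)) := fun x =>
    ⟨1, by rintro _ ⟨n, rfl⟩; exact (x8h_bd κ hO h0 h1 n x).2⟩
  have ht : ∀ x, Tendsto (fun n => x8h κ O l n x) atTop (𝓝 (⨆ n, x8h κ O l n x)) := fun x =>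
    tendsto_atTop_ciSup (hm x) (hbd x)
  set h : E → ℝ := fun x => ⨆ n, x8h κ O l n x with hh
  have hmeas : Measurable h :=
    measurable_of_tendsto_metrizable (fun n => x8h_meas κ hO l n) (tendsto_pi_nhds.2 ht)
  refine ⟨h, hmeas, ?_, ?_, ?_⟩
  · intro x
    exact ⟨ge_of_tendsto' (ht x) (fun n => (x8h_bd κ hO h0 h1 n x).1),
      le_of_tendsto' (ht x) (fun n => (x8h_bd κ hO h0 h1 n x).2)⟩
  · intro x hx
    have h2 : Tendsto (fun n => x8h κ O l n x) atTop (𝓝 1) := by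
      have : (fun n => x8h κ O l n x) = fun _ => (1 : ℝ) := by
        funext n; exact x8h_on κ l n hx
      rw [this]
      exact tendsto_const_nhds
    exact tendsto_nhds_unique (ht x) h2
  · intro x hx
    have h2 : Tendsto (fun n => x8K κ (x8h κ O l n) x) atTop (𝓝 (x8K κ h x)) := by
      unfold x8K
      apply tendsto_integral_of_dominated_convergence (fun _ => (1 : ℝ))
      · intro n; exact (x8h_meas κ hO l n).aestronglyMeasurable
      · exact integrable_const _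
      · intro n
        exact Filter.Eventually.of_forall (fun y => by
          rw [Real.norm_eq_abs]; exact x8_abs (x8h_bd κ hO h0 h1 n) y)
      · exact Filter.Eventually.of_forall (fun y => ht y)
    have h3 : Tendsto (fun n => x8h κ O l (n + 1) x) atTop (𝓝 (h x)) :=
      (ht x).comp (tendsto_add_atTop_nat 1)
    have h4 : Tendsto (fun n => x8h κ O l (n + 1) x) atTop (𝓝 (l * x8K κ h x)) := by
      have : (fun n => x8h κ O l (n + 1) x) = fun n => l * x8K κ (x8h κ O l n) x := by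
        funext n; exact x8h_off κ l n hx
      rw [this]
      exact h2.const_mul l
    exact tendsto_nhds_unique h3 h4

/-! ### The symmetric form -/

theorem x8_swap {m : Measure E} [IsProbabilityMeasure m] {κ : Kernel E E} [IsMarkovKernel κ]
    (hr : Rev m κ) : (m ⊗ₘ κ).map Prod.swap = m ⊗ₘ κ := by
  have hf : IsFiniteMeasure ((m ⊗ₘ κ).map Prod.swap) := by infer_instance
  apply Measure.ext_prod
  intro s t hs ht
  rw [Measure.map_apply measurable_swap (hs.prod ht), Set.preimage_swap_prod,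
    Measure.compProd_apply_prod ht hs, Measure.compProd_apply_prod hs ht]
  exact hr.sym t s ht hs

theorem x8_joint {m : Measure E} [IsProbabilityMeasure m] {κ : Kernel E E} [IsMarkovKernel κ]
    {f g : E → ℝ} (hf : Measurable f) (hg : Measurable g) (C D : ℝ) (hbf : ∀ x, |f x| ≤ C)
    (hbg : ∀ x, |g x| ≤ D) :
    ∫ x, f x * x8K κ g x ∂m = ∫ p, f p.1 * g p.2 ∂(m ⊗ₘ κ) := by
  have hi : Integrable (fun p : E × E => f p.1 * g p.2) (m ⊗ₘ κ) := by
    refine Integrable.of_bound ((hf.comp measurable_fst).mul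
      (hg.comp measurable_snd)).aestronglyMeasurable (C * D) (Filter.Eventually.of_forall ?_)
    intro p
    rw [Real.norm_eq_abs, abs_mul]
    exact mul_le_mul (hbf _) (hbg _) (abs_nonneg _) ((abs_nonneg _).trans (hbf p.1))
  rw [Measure.integral_compProd hi]
  apply integral_congr_ae
  refine Filter.Eventually.of_forall (fun x => ?_)
  show f x * x8K κ g x = ∫ y, f x * g y ∂(κ x)
  rw [integral_const_mul]
  rfl

theorem x8_sym {m : Measure E} [IsProbabilityMeasure m] {κ : Kernel E E} [IsMarkovKernel κ]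
    (hr : Rev m κ) {f g : E → ℝ} (hf : Measurable f) (hg : Measurable g) (C D : ℝ)
    (hbf : ∀ x, |f x| ≤ C) (hbg : ∀ x, |g x| ≤ D) :
    ∫ x, f x * x8K κ g x ∂m = ∫ x, g x * x8K κ f x ∂m := by
  rw [x8_joint hf hg C D hbf hbg, x8_joint hg hf D C hbg hbf]
  have hms : Measurable (fun p : E × E => f p.1 * g p.2) :=
    (hf.comp measurable_fst).mul (hg.comp measurable_snd)
  conv_lhs => rw [← x8_swap hr]
  rw [integral_map measurable_swap.aemeasurable hms.aestronglyMeasurable]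
  apply integral_congr_ae
  exact Filter.Eventually.of_forall (fun p => mul_comm _ _)

theorem x8_inv {m : Measure E} [IsProbabilityMeasure m] {κ : Kernel E E} [IsMarkovKernel κ]
    (hr : Rev m κ) {f : E → ℝ} (hf : Measurable f) (C : ℝ) (hbf : ∀ x, |f x| ≤ C) :
    ∫ x, x8K κ f x ∂m = ∫ x, f x ∂m := by
  have h1 := x8_sym hr (measurable_const (a := (1 : ℝ))) hf 1 C (by simp) hbf
  have h2 : ∀ x, x8K κ (fun _ => (1 : ℝ)) x = 1 := by
    intro x; unfold x8K; simp
  simpa [h2] using h1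

theorem x8_Kbd (κ : Kernel E E) [IsMarkovKernel κ] {f : E → ℝ} (C : ℝ) (hbf : ∀ x, |f x| ≤ C)
    (x : E) : |x8K κ f x| ≤ C := by
  unfold x8K
  have h1 := norm_integral_le_of_norm_le_const (μ := κ x) (f := f) (C := C)
    (Filter.Eventually.of_forall (by intro y; rw [Real.norm_eq_abs]; exact hbf y))
  simpa using h1

/-- The form. -/
noncomputable def x8B (m : Measure E) (κ : Kernel E E) (l : ℝ) (f g : E → ℝ) : ℝ :=
  ∫ x, f x * (g x - l * x8K κ g x) ∂m

theorem x8B_eq {m : Measure E} [IsProbabilityMeasure m] {κ : Kernel E E} [IsMarkovKernel κ]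
    {f g : E → ℝ} (hf : Measurable f) (hg : Measurable g) (C D : ℝ) (hbf : ∀ x, |f x| ≤ C)
    (hbg : ∀ x, |g x| ≤ D) (l : ℝ) :
    x8B m κ l f g = ∫ x, f x * g x ∂m - l * ∫ x, f x * x8K κ g x ∂m := by
  have hp : ∀ {u v : E → ℝ}, Measurable u → Measurable v → (∀ x, |u x| ≤ C) → (∀ x, |v x| ≤ D) →
      Integrable (fun x => u x * v x) m := by
    intro u v hu hv hbu hbv
    apply x8_int (hu.mul hv) (C * D)
    intro x
    rw [Pi.mul_apply, abs_mul]
    exact mul_le_mul (hbu _) (hbv _) (abs_nonneg _) ((abs_nonneg _).trans (hbu x))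
  unfold x8B
  rw [← integral_const_mul, ← integral_sub (hp hf hg hbf hbg)
    ((hp hf (x8K_meas κ hg) hbf (x8_Kbd κ D hbg)).const_mul l)]
  apply integral_congr_ae
  exact Filter.Eventually.of_forall (fun x => by ring)

theorem x8B_nonneg {m : Measure E} [IsProbabilityMeasure m] {κ : Kernel E E} [IsMarkovKernel κ]
    (hr : Rev m κ) {u : E → ℝ} (hu : Measurable u) (C : ℝ) (hbu : ∀ x, |u x| ≤ C) {l : ℝ}
    (h0 : 0 ≤ l) (h1 : l ≤ 1) : 0 ≤ x8B m κ l u u := by
  rw [x8B_eq hu hu C C hbu hbu]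
  have hsq : ∀ x, |u x * u x| ≤ C * C := fun x => by
    rw [abs_mul]
    exact mul_le_mul (hbu _) (hbu _) (abs_nonneg _) ((abs_nonneg _).trans (hbu x))
  have hsm : Measurable (fun x => u x * u x) := hu.mul hu
  have hi1 : Integrable (fun x => u x * u x) m := x8_int hsm (C * C) hsq
  have hi2 : Integrable (fun x => x8K κ (fun x => u x * u x) x) m :=
    x8_int (x8K_meas κ hsm) (C * C) (x8_Kbd κ (C * C) hsq)
  have h2 : ∫ x, u x * x8K κ u x ∂m ≤
      ∫ x, (u x * u x + x8K κ (fun x => u x * u x) x) / 2 ∂m := by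
    apply integral_mono
    · apply x8_int (hu.mul (x8K_meas κ hu)) (C * C)
      intro x
      rw [Pi.mul_apply, abs_mul]
      exact mul_le_mul (hbu _) (x8_Kbd κ C hbu x) (abs_nonneg _) ((abs_nonneg _).trans (hbu x))
    · exact (hi1.add hi2).div_const 2
    · intro x
      show u x * x8K κ u x ≤ (u x * u x + x8K κ (fun x => u x * u x) x) / 2
      have h3 : u x * x8K κ u x = ∫ y, u x * u y ∂(κ x) := by
        rw [integral_const_mul]; rfl
      have h4 : (u x * u x + x8K κ (fun x => u x * u x) x) / 2 =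
          ∫ y, (u x * u x + u y * u y) / 2 ∂(κ x) := by
        rw [integral_div, integral_add (integrable_const _) (x8_int hsm (C * C) hsq)]
        simp [x8K]
      rw [h3, h4]
      apply integral_mono
      · exact (x8_int hu C hbu).const_mul _
      · exact ((integrable_const _).add (x8_int hsm (C * C) hsq)).div_const 2
      · intro y
        show u x * u y ≤ (u x * u x + u y * u y) / 2
        nlinarith [sq_nonneg (u x - u y)]
  have h5 : ∫ x, (u x * u x + x8K κ (fun x => u x * u x) x) / 2 ∂m = ∫ x, u x * u x ∂m := by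
    rw [integral_div, integral_add hi1 hi2, x8_inv hr hsm (C * C) hsq]
    ring
  rw [h5] at h2
  have h6 : 0 ≤ ∫ x, u x * u x ∂m := integral_nonneg (fun x => mul_self_nonneg _)
  nlinarith [mul_le_mul_of_nonneg_left h2 h0]

theorem x8B_sym {m : Measure E} [IsProbabilityMeasure m] {κ : Kernel E E} [IsMarkovKernel κ]
    (hr : Rev m κ) {f g : E → ℝ} (hf : Measurable f) (hg : Measurable g) (C D : ℝ)
    (hbf : ∀ x, |f x| ≤ C) (hbg : ∀ x, |g x| ≤ D) (l : ℝ) :
    x8B m κ l f g = x8B m κ l g f := by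
  rw [x8B_eq hf hg C D hbf hbg, x8B_eq hg hf D C hbg hbf, x8_sym hr hf hg C D hbf hbg]
  congr 1
  apply integral_congr_ae
  exact Filter.Eventually.of_forall (fun p => mul_comm _ _)

theorem x8K_sub (κ : Kernel E E) [IsMarkovKernel κ] {f g : E → ℝ} (hf : Measurable f)
    (hg : Measurable g) (C D : ℝ) (hbf : ∀ x, |f x| ≤ C) (hbg : ∀ x, |g x| ≤ D) (x : E) :
    x8K κ (fun x => f x - g x) x = x8K κ f x - x8K κ g x := by
  unfold x8K
  exact integral_sub (x8_int hf C hbf) (x8_int hg D hbg)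

/-- The variational principle. -/
theorem x8_var {m : Measure E} [IsProbabilityMeasure m] {κ : Kernel E E} [IsMarkovKernel κ]
    (hr : Rev m κ) {O : Set E} {l : ℝ} (h0 : 0 ≤ l) (h1 : l ≤ 1) {h : E → ℝ} (hm : Measurable h)
    (hb : ∀ x, 0 ≤ h x ∧ h x ≤ 1) (hO : ∀ x ∈ O, h x = 1) (hoff : ∀ x, x ∉ O → h x = l * x8K κ h x) :
    x8B m κ l h h = (1 - l) * ∫ x, h x ∂m ∧
    ∀ f : E → ℝ, Measurable f → (∀ x, 0 ≤ f x ∧ f x ≤ 1) → (∀ x ∈ O, f x = 1) →
      x8B m κ l h h ≤ x8B m κ l f f := by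
  have hone : ∀ f : E → ℝ, (∀ x ∈ O, f x = 1) →
      x8B m κ l f h = ∫ x, (h x - l * x8K κ h x) ∂m := by
    intro f hf
    unfold x8B
    apply integral_congr_ae
    refine Filter.Eventually.of_forall (fun x => ?_)
    show f x * (h x - l * x8K κ h x) = h x - l * x8K κ h x
    by_cases hx : x ∈ O
    · rw [hf x hx, one_mul]
    · have : h x - l * x8K κ h x = 0 := sub_eq_zero.2 (hoff x hx)
      rw [this, mul_zero]
  have hah := x8_abs hb
  have hval : ∫ x, (h x - l * x8K κ h x) ∂m = (1 - l) * ∫ x, h x ∂m := by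
    rw [integral_sub (x8_int hm 1 hah)
      ((x8_int (x8K_meas κ hm) 1 (x8_Kbd κ 1 hah)).const_mul l), integral_const_mul,
      x8_inv hr hm 1 hah]
    ring
  refine ⟨by rw [hone h hO, hval], ?_⟩
  intro f hf hbf hfO
  have haf := x8_abs hbf
  have hsub : ∀ x, |f x - h x| ≤ 1 := fun x => by
    rw [abs_le]
    constructor <;> linarith [(hb x).1, (hb x).2, (hbf x).1, (hbf x).2]
  have hpos := x8B_nonneg hr (hf.sub hm) 1 (by intro x; exact hsub x) h0 h1
  have hexp : x8B m κ l (f - h) (f - h) =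
      x8B m κ l f f - x8B m κ l f h - (x8B m κ l h f - x8B m κ l h h) := by
    have hi : ∀ {u v : E → ℝ}, Measurable u → Measurable v → (∀ x, |u x| ≤ 1) →
        (∀ x, |v x| ≤ 1) → Integrable (fun x => u x * (v x - l * x8K κ v x)) m := by
      intro u v hu hv hbu hbv
      apply x8_int (hu.mul (hv.sub ((x8K_meas κ hv).const_mul l))) (1 * (1 + l * 1))
      intro x
      show |u x * (v x - l * x8K κ v x)| ≤ _
      rw [abs_mul]
      refine mul_le_mul (hbu _) ?_ (abs_nonneg _) zero_le_one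
      refine (abs_sub _ _).trans (add_le_add (hbv _) ?_)
      rw [abs_mul, abs_of_nonneg h0]
      exact mul_le_mul_of_nonneg_left (x8_Kbd κ 1 hbv x) h0
    have hd : ∀ a b : E → ℝ, Integrable a m → Integrable b m →
        Integrable (fun x => a x - b x) m := fun a b ha hb => ha.sub hb
    have hi12 := hd _ _ (hi hf hf haf haf) (hi hf hm haf hah)
    have hi34 := hd _ _ (hi hm hf hah haf) (hi hm hm hah hah)
    unfold x8B
    rw [← integral_sub (hi hf hf haf haf) (hi hf hm haf hah),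
      ← integral_sub (hi hm hf hah haf) (hi hm hm hah hah),
      ← integral_sub hi12 hi34]
    apply integral_congr_ae
    refine Filter.Eventually.of_forall (fun x => ?_)
    have hk : x8K κ (f - h) x = x8K κ f x - x8K κ h x := x8K_sub κ hf hm 1 1 haf hah x
    show (f x - h x) * ((f x - h x) - l * x8K κ (f - h) x) =
      (f x * (f x - l * x8K κ f x) - f x * (h x - l * x8K κ h x)) -
      (h x * (f x - l * x8K κ f x) - h x * (h x - l * x8K κ h x))
    rw [hk]
    ring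
  have hs : x8B m κ l h f = x8B m κ l f h := x8B_sym hr hm hf 1 1 hah haf l
  have he : x8B m κ l f h = x8B m κ l h h := by rw [hone f hfO, hone h hO]
  rw [hexp, hs, he] at hpos
  linarith

/-! ### The process -/

theorem x8_step {Ω : Type} [mΩ : MeasurableSpace Ω] {m : Measure E} {κ : Kernel E E}
    [IsMarkovKernel κ] {μ : Measure Ω} [IsProbabilityMeasure μ] {Z : ℕ → Ω → E}
    {ℱ : ℕ → MeasurableSpace Ω} (hc : Chain m κ μ Z ℱ) (k : ℕ) {B : Set Ω}
    (hB : MeasurableSet[ℱ k] B) {φ : E → ℝ≥0∞} (hφ : Measurable φ) :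
    ∫⁻ ω in B, φ (Z (k + 1) ω) ∂μ = ∫⁻ ω in B, ∫⁻ y, φ y ∂(κ (Z k ω)) ∂μ := by
  have hZ : ∀ j, Measurable (Z j) := fun j => (hc.adapt j).mono (hc.le j) le_rfl
  have hB' : MeasurableSet B := hc.le k B hB
  have h1 : (μ.restrict B).map (Z (k + 1)) = ((μ.restrict B).map (Z k)).bind κ := by
    ext D hD
    rw [Measure.map_apply (hZ _) hD, Measure.restrict_apply ((hZ _) hD),
      Measure.bind_apply hD κ.measurable.aemeasurable,
      lintegral_map (κ.measurable_coe hD) (hZ k), Set.inter_comm]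
    exact hc.step k B hB D hD
  rw [← lintegral_map hφ (hZ (k + 1)), h1,
    Measure.lintegral_bind κ.measurable.aemeasurable hφ.aemeasurable,
    lintegral_map (hφ.lintegral_kernel) (hZ k)]

theorem x8_hit {Ω : Type} [mΩ : MeasurableSpace Ω] {m : Measure E} {κ : Kernel E E}
    [IsMarkovKernel κ] {μ : Measure Ω} [IsProbabilityMeasure μ] {Z : ℕ → Ω → E}
    {ℱ : ℕ → MeasurableSpace Ω} (hc : Chain m κ μ Z ℱ) {O : Set E} (hO : MeasurableSet O)
    (n : ℕ) : ∀ (j : ℕ) (B : Set Ω), MeasurableSet[ℱ j] B →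
      μ (B ∩ {ω | ∃ k ∈ Set.Icc j (j + n), Z k ω ∈ O}) =
        ∫⁻ ω in B, ENNReal.ofReal (x8h κ O 1 n (Z j ω)) ∂μ := by
  classical
  have hZ : ∀ j, Measurable (Z j) := fun j => (hc.adapt j).mono (hc.le j) le_rfl
  induction n with
  | zero =>
    intro j B hB
    have hB' : MeasurableSet B := hc.le j B hB
    have h1 : {ω | ∃ k ∈ Set.Icc j (j + 0), Z k ω ∈ O} = Z j ⁻¹' O := by
      ext ω
      simp only [add_zero, Set.Icc_self, Set.mem_singleton_iff, exists_eq_left,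
        Set.mem_ofPred_eq, Set.mem_preimage]
    rw [h1, Set.inter_comm, ← Measure.restrict_apply (hZ j hO), ← lintegral_indicator_one (hZ j hO)]
    apply lintegral_congr
    intro ω
    by_cases hx : Z j ω ∈ O
    · rw [x8h_on κ 1 0 hx, Set.indicator_of_mem (show ω ∈ Z j ⁻¹' O from hx)]
      simp
    · have : x8h κ O 1 0 (Z j ω) = 0 := by unfold x8h; rw [if_neg hx]
      rw [this, Set.indicator_of_notMem (show ω ∉ Z j ⁻¹' O from hx)]
      simp
  | succ n ih =>
    intro j B hB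
    have hB' : MeasurableSet B := hc.le j B hB
    have hOj : MeasurableSet[ℱ j] (Z j ⁻¹' O) := hc.adapt j hO
    have h1 : B ∩ {ω | ∃ k ∈ Set.Icc j (j + (n + 1)), Z k ω ∈ O} =
        (B ∩ Z j ⁻¹' O) ∪
          ((B ∩ (Z j ⁻¹' O)ᶜ) ∩ {ω | ∃ k ∈ Set.Icc (j + 1) (j + 1 + n), Z k ω ∈ O}) := by
      ext ω
      simp only [Set.mem_inter_iff, Set.mem_ofPred_eq, Set.mem_union, Set.mem_preimage,
        Set.mem_compl_iff, Set.mem_Icc]
      constructor
      · rintro ⟨hb, k, ⟨hk1, hk2⟩, hk⟩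
        by_cases hj : Z j ω ∈ O
        · exact Or.inl ⟨hb, hj⟩
        · refine Or.inr ⟨⟨hb, hj⟩, k, ⟨?_, by omega⟩, hk⟩
          rcases Nat.lt_or_ge j k with h | h
          · omega
          · have : k = j := by omega
            rw [this] at hk
            exact absurd hk hj
      · rintro (⟨hb, hj⟩ | ⟨⟨hb, hj⟩, k, ⟨hk1, hk2⟩, hk⟩)
        · exact ⟨hb, j, ⟨le_rfl, by omega⟩, hj⟩
        · exact ⟨hb, k, ⟨by omega, by omega⟩, hk⟩
    have hdis : Disjoint (B ∩ Z j ⁻¹' O)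
        ((B ∩ (Z j ⁻¹' O)ᶜ) ∩ {ω | ∃ k ∈ Set.Icc (j + 1) (j + 1 + n), Z k ω ∈ O}) := by
      rw [Set.disjoint_left]
      rintro ω ⟨_, h2⟩ ⟨⟨_, h3⟩, _⟩
      exact h3 h2
    have hB1 : MeasurableSet[ℱ j] (B ∩ (Z j ⁻¹' O)ᶜ) :=
      MeasurableSet.inter hB (MeasurableSet.compl hOj)
    have hB2 : MeasurableSet[ℱ (j + 1)] (B ∩ (Z j ⁻¹' O)ᶜ) := hc.mono (Nat.le_succ j) _ hB1
    have hE : MeasurableSet {ω | ∃ k ∈ Set.Icc (j + 1) (j + 1 + n), Z k ω ∈ O} := by
      have : {ω | ∃ k ∈ Set.Icc (j + 1) (j + 1 + n), Z k ω ∈ O} =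
          ⋃ k ∈ Set.Icc (j + 1) (j + 1 + n), Z k ⁻¹' O := by
        ext ω; simp
      rw [this]
      exact MeasurableSet.biUnion (Set.to_countable _) (fun k _ => hZ k hO)
    rw [h1, measure_union hdis ((hc.le j _ hB1).inter hE), ih (j + 1) _ hB2,
      x8_step hc j hB1 ((x8h_meas κ hO 1 n).ennreal_ofReal)]
    have h2 : ∀ x, ∫⁻ y, ENNReal.ofReal (x8h κ O 1 n y) ∂(κ x) =
        ENNReal.ofReal (x8K κ (x8h κ O 1 n) x) := by
      intro x
      unfold x8K
      rw [ofReal_integral_eq_lintegral_ofReal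
        (x8_int (x8h_meas κ hO 1 n) 1 (x8_abs (x8h_bd κ hO zero_le_one le_rfl n)))
        (Filter.Eventually.of_forall (fun y => (x8h_bd κ hO zero_le_one le_rfl n y).1))]
    simp_rw [h2]
    have h3 : μ (B ∩ Z j ⁻¹' O) = ∫⁻ ω in B ∩ Z j ⁻¹' O,
        ENNReal.ofReal (x8h κ O 1 (n + 1) (Z j ω)) ∂μ := by
      rw [setLIntegral_congr_fun (g := fun _ => (1 : ℝ≥0∞)) (hB'.inter (hZ j hO)) (by
        intro ω hω
        show ENNReal.ofReal (x8h κ O 1 (n + 1) (Z j ω)) = 1
        rw [x8h_on κ 1 (n + 1) (show Z j ω ∈ O from hω.2), ENNReal.ofReal_one])]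
      simp
    have h4 : ∫⁻ ω in B ∩ (Z j ⁻¹' O)ᶜ, ENNReal.ofReal (x8K κ (x8h κ O 1 n) (Z j ω)) ∂μ =
        ∫⁻ ω in B ∩ (Z j ⁻¹' O)ᶜ, ENNReal.ofReal (x8h κ O 1 (n + 1) (Z j ω)) ∂μ := by
      apply setLIntegral_congr_fun (hB'.inter (hZ j hO).compl)
      intro ω hω
      show ENNReal.ofReal (x8K κ (x8h κ O 1 n) (Z j ω)) =
        ENNReal.ofReal (x8h κ O 1 (n + 1) (Z j ω))
      rw [x8h_off κ 1 n (show Z j ω ∉ O from hω.2), one_mul]
    rw [h3, h4, ← lintegral_union (hB'.inter (hZ j hO).compl)]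
    · rw [Set.inter_union_compl]
    · rw [Set.disjoint_left]
      rintro ω ⟨_, h5⟩ ⟨_, h6⟩
      exact h6 h5

theorem x8_prob {Ω : Type} [mΩ : MeasurableSpace Ω] {m : Measure E} {κ : Kernel E E}
    [IsMarkovKernel κ] {μ : Measure Ω} [IsProbabilityMeasure μ] {Z : ℕ → Ω → E}
    {ℱ : ℕ → MeasurableSpace Ω} (hc : Chain m κ μ Z ℱ) {O : Set E} (hO : MeasurableSet O)
    (n : ℕ) : μ.real {ω | ∃ k ≤ n, Z k ω ∈ O} = ∫ x, x8h κ O 1 n x ∂m := by
  have hZ : ∀ j, Measurable (Z j) := fun j => (hc.adapt j).mono (hc.le j) le_rfl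
  have h1 := x8_hit hc hO n 0 Set.univ MeasurableSet.univ
  have h2 : Set.univ ∩ {ω | ∃ k ∈ Set.Icc 0 (0 + n), Z k ω ∈ O} = {ω | ∃ k ≤ n, Z k ω ∈ O} := by
    ext ω; simp
  rw [h2, Measure.restrict_univ] at h1
  rw [Measure.real, h1, ← hc.init, integral_map (hZ 0).aemeasurable
    (x8h_meas κ hO 1 n).aestronglyMeasurable]
  have hb := x8h_bd κ hO (zero_le_one) (le_refl (1 : ℝ)) n
  have hii : Integrable (fun ω => x8h κ O 1 n (Z 0 ω)) μ :=
    Integrable.of_bound ((x8h_meas κ hO 1 n).comp (hZ 0)).aestronglyMeasurable 1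
      (Filter.Eventually.of_forall (fun ω => by
        rw [Real.norm_eq_abs]; exact x8_abs hb (Z 0 ω)))
  rw [← ofReal_integral_eq_lintegral_ofReal hii
    (Filter.Eventually.of_forall (fun ω => (hb (Z 0 ω)).1))]
  rw [ENNReal.toReal_ofReal]
  exact integral_nonneg (fun ω => (hb (Z 0 ω)).1)

theorem x8_cmp (κ : Kernel E E) [IsMarkovKernel κ] {O : Set E} (hO : MeasurableSet O) {l : ℝ}
    (h0 : 0 ≤ l) (h1 : l ≤ 1) {h : E → ℝ} (hm : Measurable h)
    (hb : ∀ x, 0 ≤ h x ∧ h x ≤ 1) (hon : ∀ x ∈ O, h x = 1)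
    (hoff : ∀ x, x ∉ O → h x = l * x8K κ h x) (n : ℕ) :
    ∀ x, l ^ n * x8h κ O 1 n x ≤ h x ∧ h x ≤ x8h κ O 1 n x + l ^ n := by
  classical
  induction n with
  | zero =>
    intro x
    by_cases hx : x ∈ O
    · rw [x8h_on κ 1 0 hx, hon x hx]; norm_num
    · have : x8h κ O 1 0 x = 0 := by unfold x8h; rw [if_neg hx]
      rw [this]
      constructor
      · simpa using (hb x).1
      · simpa using (hb x).2
  | succ n ih =>
    intro x
    have hgb := x8h_bd κ hO (zero_le_one) (le_refl (1 : ℝ)) n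
    have hgm := x8h_meas κ hO 1 n
    have hln : 0 ≤ l ^ n := pow_nonneg h0 n
    have hln1 : l ^ n ≤ 1 := pow_le_one₀ h0 h1
    by_cases hx : x ∈ O
    · rw [x8h_on κ 1 _ hx, hon x hx]
      constructor
      · rw [mul_one]; exact pow_le_one₀ h0 h1
      · linarith [pow_nonneg h0 (n + 1)]
    · rw [x8h_off κ 1 n hx, hoff x hx, one_mul]
      have hKg := x8K_bd κ hgm hgb x
      constructor
      · have h2 : x8K κ (fun x => l ^ n * x8h κ O 1 n x) x ≤ x8K κ h x :=
          x8K_mono κ (hgm.const_mul _) hm 1 1 (fun x => by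
            rw [abs_mul, abs_of_nonneg hln]
            exact mul_le_one₀ hln1 (abs_nonneg _) (x8_abs hgb x)) (x8_abs hb)
            (fun x => (ih x).1) x
        have h3 : x8K κ (fun x => l ^ n * x8h κ O 1 n x) x = l ^ n * x8K κ (x8h κ O 1 n) x := by
          unfold x8K
          exact integral_const_mul _ _
        rw [h3] at h2
        calc l ^ (n + 1) * x8K κ (x8h κ O 1 n) x = l * (l ^ n * x8K κ (x8h κ O 1 n) x) := by ring
          _ ≤ l * x8K κ h x := mul_le_mul_of_nonneg_left h2 h0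
      · have h2 : x8K κ h x ≤ x8K κ (fun x => x8h κ O 1 n x + l ^ n) x :=
          x8K_mono κ hm (hgm.add_const _) 1 2 (x8_abs hb) (fun x => by
            rw [abs_of_nonneg (add_nonneg (hgb x).1 hln)]
            linarith [(hgb x).2]) (fun x => (ih x).2) x
        have h3 : x8K κ (fun x => x8h κ O 1 n x + l ^ n) x = x8K κ (x8h κ O 1 n) x + l ^ n := by
          unfold x8K
          rw [integral_add (x8_int hgm 1 (x8_abs hgb)) (integrable_const _)]
          simp
        rw [h3] at h2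
        calc l * x8K κ h x ≤ l * (x8K κ (x8h κ O 1 n) x + l ^ n) :=
              mul_le_mul_of_nonneg_left h2 h0
          _ = l * x8K κ (x8h κ O 1 n) x + l ^ (n + 1) := by ring
          _ ≤ 1 * x8K κ (x8h κ O 1 n) x + l ^ (n + 1) := by
              have := mul_le_mul_of_nonneg_right h1 hKg.1
              linarith
          _ = x8K κ (x8h κ O 1 n) x + l ^ (n + 1) := by rw [one_mul]

end X8

theorem e6 : St_E6 := by
  intro E _ m _ κ _ hr Ω _ μ _ Z ℱ hc O hO l hl0 hl1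
  obtain ⟨h, hm, hb, hon, hoff⟩ := x8_lim κ hO hl0.le hl1.le
  obtain ⟨hv1, hv2⟩ := x8_var (m := m) hr hl0.le hl1.le hm hb hon hoff
  have hgm : ∀ n, Measurable (x8h κ O 1 n) := x8h_meas κ hO 1
  have hgb : ∀ n, ∀ x, 0 ≤ x8h κ O 1 n x ∧ x8h κ O 1 n x ≤ 1 := fun n =>
    x8h_bd κ hO (zero_le_one) (le_refl (1 : ℝ)) n
  refine ⟨?_, h, hm, hb, hon, ?_⟩
  · intro f hf hbf hfO n
    have h1 : x8B m κ l f f = ∫ x, f x * (f x - l * ∫ y, f y ∂(κ x)) ∂m := rfl
    rw [← h1, x8_prob hc hO n]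
    refine le_trans ?_ (hv2 f hf hbf hfO)
    rw [hv1]
    have h2 : ∫ x, l ^ n * x8h κ O 1 n x ∂m ≤ ∫ x, h x ∂m :=
      integral_mono ((x8_int (hgm n) 1 (x8_abs (hgb n))).const_mul _) (x8_int hm 1 (x8_abs hb))
        (fun x => (x8_cmp κ hO hl0.le hl1.le hm hb hon hoff n x).1)
    rw [integral_const_mul] at h2
    nlinarith
  · intro n
    have h1 : x8B m κ l h h = ∫ x, h x * (h x - l * ∫ y, h y ∂(κ x)) ∂m := rfl
    rw [← h1, x8_prob hc hO n, hv1]
    have h2 : ∫ x, h x ∂m ≤ ∫ x, (x8h κ O 1 n x + l ^ n) ∂m :=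
      integral_mono (x8_int hm 1 (x8_abs hb))
        ((x8_int (hgm n) 1 (x8_abs (hgb n))).add (integrable_const _))
        (fun x => (x8_cmp κ hO hl0.le hl1.le hm hb hon hoff n x).2)
    rw [integral_add (x8_int (hgm n) 1 (x8_abs (hgb n))) (integrable_const _)] at h2
    have h3 : ∫ _x : E, l ^ n ∂m = l ^ n := by simp
    rw [h3] at h2
    exact mul_le_mul_of_nonneg_left h2 (by linarith)

end H934X
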