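import Pool.Agent.H934R4.EX.Props

/-!
Task X9: short time asymptotics of the correlations (E7).
-/

set_option autoImplicit false

namespace H934X

open MeasureTheory ProbabilityTheory Filter Topology
open scoped ENNReal

namespace X9

variable {I : Type} {Ω : Type}

lemma past_mono (X : ℝ → Ω → I → Bool) {s t : ℝ} (h : s ≤ t) : past X s ≤ past X t := by
  refine iSup_le fun u => iSup_le fun hu => ?_
  exact le_iSup₂_of_le u ⟨hu.1, hu.2.trans h⟩ le_rfl

lemma meas_past (X : ℝ → Ω → I → Bool) {h : (I → Bool) → ℝ} (hh : Measurable h) {s : ℝ}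
    (hs : 0 ≤ s) : Measurable[past X s] (fun ω => h (X 0 ω)) := by
  have h1 : Measurable[past X s] (X 0) := by
    refine Measurable.mono (comap_measurable (X 0)) ?_ le_rfl
    exact le_iSup₂_of_le (f := fun (u : ℝ) (_ : u ∈ Set.Icc (0 : ℝ) s) =>
      MeasurableSpace.comap (X u) inferInstance) 0 ⟨le_rfl, hs⟩ le_rfl
  exact hh.comp h1

end X9

/-- E7: short time asymptotics. -/
theorem e7 (h1c : St_E1c) (h4b : St_E4b) : St_E7 := by
  intro I _ g Ω _ μ _ X hX k f hf δ hδ
  obtain ⟨hfm, hfc, hLm, hLc, hLb⟩ := h1c I g k f hf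
  have hfb : ∀ ω, |f ω| ≤ 1 := hf.2
  obtain ⟨S, hS, hdep⟩ := hf.1
  have hXm := hX.meas
  set M := 2 * (g.C * k) with hM
  have hM0 : 0 ≤ M := by
    have := g.C_nonneg
    positivity
  -- the basic Lipschitz estimate
  have key : ∀ h : (I → Bool) → ℝ, Measurable h → (∀ ω, |h ω| ≤ 1) → ∀ s t : ℝ, 0 ≤ s → s ≤ t →
      |∫ ω, (f (X t ω) - f (X s ω)) * h (X 0 ω) ∂μ| ≤ M * (t - s) := by
    intro h hh hb s t hs hst
    rw [hX.mart S f hdep s t hs hst (fun ω => h (X 0 ω)) (X9.meas_past X hh hs)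
      (fun ω => hb _)]
    have h1 := intervalIntegral.norm_integral_le_of_norm_le_const (a := s) (b := t) (C := M)
      (f := fun u => ∫ ω, g.L f (X u ω) * h (X 0 ω) ∂μ) (by
        intro u _
        have h2 := norm_integral_le_of_norm_le_const (μ := μ) (C := M)
          (f := fun ω => g.L f (X u ω) * h (X 0 ω)) (by
            refine Filter.Eventually.of_forall fun ω => ?_
            rw [norm_mul, Real.norm_eq_abs, Real.norm_eq_abs]
            calc |g.L f (X u ω)| * |h (X 0 ω)| ≤ M * 1 :=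
                  mul_le_mul (hLb _) (hb _) (abs_nonneg _) hM0
              _ = M := mul_one M)
        simpa using h2)
    rw [Real.norm_eq_abs, abs_of_nonneg (sub_nonneg.2 hst)] at h1
    exact h1
  have hint : ∀ (a b : (I → Bool) → ℝ) (A : ℝ), Measurable a → Measurable b →
      (∀ ω, |a ω| ≤ A) → (∀ ω, |b ω| ≤ 1) → ∀ s t : ℝ,
      Integrable (fun ω => a (X s ω) * b (X t ω)) μ := by
    intro a b A ha hb hA hB s t
    refine Integrable.of_bound (C := A)
      ((ha.comp (hXm s)).mul (hb.comp (hXm t))).aestronglyMeasurable ?_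
    refine Filter.Eventually.of_forall fun ω => ?_
    rw [norm_mul, Real.norm_eq_abs, Real.norm_eq_abs]
    calc |a (X s ω)| * |b (X t ω)| ≤ A * 1 :=
          mul_le_mul (hA _) (hB _) (abs_nonneg _) ((abs_nonneg _).trans (hA (X s ω)))
      _ = A := mul_one A
  -- the quantity to be estimated
  have hEn : g.En f = - ∫ ω, g.L f (X 0 ω) * f (X 0 ω) ∂μ := by
    unfold Gen.En
    have hfL : Measurable (fun ω => f ω * g.L f ω) := hfm.mul hLm
    rw [← hX.init, integral_map (hXm 0).aemeasurable hfL.aestronglyMeasurable]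
    congr 1
    refine integral_congr_ae (Filter.Eventually.of_forall fun ω => ?_)
    simp only
    ring
  have hmart := hX.mart S f hdep 0 δ le_rfl hδ (fun ω => f (X 0 ω)) (X9.meas_past X hfm le_rfl)
      (fun ω => hfb _)
  have hlhs : ∫ ω, f (X 0 ω) * (f (X 0 ω) - f (X δ ω)) ∂μ =
      - ∫ ω, (f (X δ ω) - f (X 0 ω)) * f (X 0 ω) ∂μ := by
    rw [← integral_neg]
    refine integral_congr_ae (Filter.Eventually.of_forall fun ω => ?_)
    simp only
    ring
  rw [hlhs, hmart]
  -- symmetry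
  have hsym : ∀ u : ℝ, 0 ≤ u → ∫ ω, g.L f (X u ω) * f (X 0 ω) ∂μ =
      ∫ ω, f (X u ω) * g.L f (X 0 ω) ∂μ := by
    intro u hu
    have h1 := (h4b I g Ω μ X hX u hu).1
    have hF : Measurable (fun p : (I → Bool) × (I → Bool) => g.L f p.2 * f p.1) :=
      (hLm.comp measurable_snd).mul (hfm.comp measurable_fst)
    have h2 : ∫ p, g.L f p.2 * f p.1 ∂(μ.map (fun ω => (X 0 ω, X u ω))) =
        ∫ p, g.L f p.2 * f p.1 ∂(μ.map (fun ω => (X u ω, X 0 ω))) := by rw [h1]
    rw [integral_map ((hXm 0).prodMk (hXm u)).aemeasurable hF.aestronglyMeasurable,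
      integral_map ((hXm u).prodMk (hXm 0)).aemeasurable hF.aestronglyMeasurable] at h2
    rw [h2]
    refine integral_congr_ae (Filter.Eventually.of_forall fun ω => ?_)
    simp only
    ring
  rcases hM0.eq_or_lt with hM00 | hMpos
  · -- `M = 0`
    have hL0 : ∀ ω, g.L f ω = 0 := by
      intro ω
      have := hLb ω
      rw [← hM00] at this
      exact abs_nonpos_iff.1 this
    have e1 : g.En f = 0 := by
      rw [hEn]
      simp [hL0]
    rw [e1, ← hM00]
    simp [hL0]
  · -- `M > 0`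
    have hnm : Measurable (fun ω => g.L f ω / M) := hLm.div_const M
    have hnb : ∀ ω, |g.L f ω / M| ≤ 1 := by
      intro ω
      rw [abs_div, abs_of_pos hMpos, div_le_one hMpos]
      exact hLb ω
    -- Lipschitz estimate for the correlation
    have hLip : ∀ s t : ℝ, 0 ≤ s → s ≤ t →
        |∫ ω, f (X t ω) * g.L f (X 0 ω) ∂μ - ∫ ω, f (X s ω) * g.L f (X 0 ω) ∂μ| ≤
          M ^ 2 * (t - s) := by
      intro s t hs hst
      have h1 := key _ hnm hnb s t hs hst
      have e2 : ∫ ω, f (X t ω) * g.L f (X 0 ω) ∂μ - ∫ ω, f (X s ω) * g.L f (X 0 ω) ∂μ =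
          M * ∫ ω, (f (X t ω) - f (X s ω)) * (g.L f (X 0 ω) / M) ∂μ := by
        have i1 := hint (g.L f) f M hLm hfm hLb hfb 0 t
        have i2 := hint (g.L f) f M hLm hfm hLb hfb 0 s
        rw [← integral_const_mul, ← integral_sub]
        · refine integral_congr_ae (Filter.Eventually.of_forall fun ω => ?_)
          simp only
          field_simp
        · refine i1.congr (Filter.Eventually.of_forall fun ω => ?_)
          simp only
          ring
        · refine i2.congr (Filter.Eventually.of_forall fun ω => ?_)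
          simp only
          ring
      rw [e2, abs_mul, abs_of_pos hMpos]
      calc M * |∫ ω, (f (X t ω) - f (X s ω)) * (g.L f (X 0 ω) / M) ∂μ| ≤ M * (M * (t - s)) :=
            mul_le_mul_of_nonneg_left h1 hM0
        _ = M ^ 2 * (t - s) := by ring
    set ψ : ℝ → ℝ := fun u => ∫ ω, f (X u ω) * g.L f (X 0 ω) ∂μ with hψ
    have hcont : ContinuousOn ψ (Set.Icc 0 δ) := by
      refine LipschitzOnWith.continuousOn (K := ⟨M ^ 2, sq_nonneg M⟩) ?_
      refine LipschitzOnWith.of_dist_le_mul ?_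
      intro x hx y hy
      change dist (ψ x) (ψ y) ≤ M ^ 2 * dist x y
      rw [Real.dist_eq, Real.dist_eq]
      rcases le_total x y with hxy | hxy
      · have := hLip x y hx.1 hxy
        rw [abs_sub_comm (ψ x) (ψ y), abs_sub_comm x y, abs_of_nonneg (sub_nonneg.2 hxy)]
        exact this
      · have := hLip y x hy.1 hxy
        rw [abs_of_nonneg (sub_nonneg.2 hxy)]
        exact this
    have e3 : ∫ u in (0:ℝ)..δ, ∫ ω, g.L f (X u ω) * f (X 0 ω) ∂μ = ∫ u in (0:ℝ)..δ, ψ u := by
      refine intervalIntegral.integral_congr ?_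
      intro u hu
      rw [Set.uIcc_of_le hδ] at hu
      exact hsym u hu.1
    have e4 : g.En f = - ψ 0 := by
      rw [hEn, hsym 0 le_rfl]
    have hii : IntervalIntegrable ψ volume 0 δ := by
      refine ContinuousOn.intervalIntegrable ?_
      rw [Set.uIcc_of_le hδ]
      exact hcont
    have e5 : (∫ u in (0:ℝ)..δ, ψ u) - δ * ψ 0 = ∫ u in (0:ℝ)..δ, (ψ u - ψ 0) := by
      rw [intervalIntegral.integral_sub hii intervalIntegrable_const]
      simp
    have e6 : -(∫ u in (0:ℝ)..δ, ψ u) - δ * (- ψ 0) = - ∫ u in (0:ℝ)..δ, (ψ u - ψ 0) := by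
      rw [← e5]
      ring
    rw [e3, e4, e6, abs_neg]
    have h7 := intervalIntegral.norm_integral_le_of_norm_le_const (a := 0) (b := δ)
      (C := M ^ 2 * δ) (f := fun u => ψ u - ψ 0) (by
        intro u hu
        rw [Set.uIoc_of_le hδ] at hu
        rw [Real.norm_eq_abs]
        refine (hLip 0 u le_rfl hu.1.le).trans ?_
        refine mul_le_mul_of_nonneg_left ?_ (sq_nonneg M)
        linarith [hu.2])
    rw [Real.norm_eq_abs, sub_zero, abs_of_nonneg hδ] at h7
    calc |∫ u in (0:ℝ)..δ, (ψ u - ψ 0)| ≤ M ^ 2 * δ * δ := h7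
      _ = δ ^ 2 * M ^ 2 := by ring

end H934X
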