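import Pool.Agent.H934R4.EX.E11
import Pool.Agent.H934R4.EX.E12
import Pool.Agent.H934R4.EX.E14
import Pool.Agent.H934R4.EX.X1
import Pool.Agent.H934R4.EX.X2
import Pool.Agent.H934R4.EX.X3
import Pool.Agent.H934R4.EX.X4
import Pool.Agent.H934R4.EX.X5
import Pool.Agent.H934R4.EX.X6
import Pool.Agent.H934R4.EX.X7
import Pool.Agent.H934R4.EX.X8
import Pool.Agent.H934R4.EX.X9
import Pool.Agent.H934R4.EX.X10
import Pool.Agent.H934R4.EX.X11
import Pool.Agent.H934R4.EX.X12
import Pool.Agent.H934R4.EX.X13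
import Pool.Agent.H934R4.EX.X14

set_option autoImplicit false

namespace H934X

theorem main : St_E14 := by
  have h1d : St_E1d := e1d e1a e1b e1c
  have h2 : St_E2 := e2 e1a e1b
  have h2b : St_E2b := e2b h2
  have h2c : St_E2c := e2c e1a
  have h3 : St_E3 := e3 e1a e1b
  have h4a : St_E4a := e4a e1c h1d
  have h4b : St_E4b := e4b e1c e1e h2b h2c h3 h4a
  have h5 : St_E5 := e5 e1e h2b h2c h4a h4b
  have h5b : St_E5b := e5b h4b h5
  have h7 : St_E7 := e7 e1c h4b
  have h8 : St_E8 := e8 h1d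
  have h9a : St_E9a := e9a h8
  have h9b : St_E9b := e9b h8 e1c
  exact e14 e10 (e11 e1c h5b e6 h7 h9a h9b e9c e10) e12 (e13 h4b h9a e10)

end H934X
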