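import Pool.Agent.H934R4.EX.Defs

/-!
Statements (as propositions, nothing is assumed) of the tasks of the project `exceptional times
under exclusion dynamics imply exceptional times under ordinary dynamical percolation`.
-/

set_option autoImplicit false

namespace H934X

open MeasureTheory ProbabilityTheory Filter Topology
open scoped ENNReal

/-! ### E1: basics -/

/-- E1a: closure of cylinder functions. -/
def St_E1a : Prop := ∀ (I : Type) (g : Gen I) (k : ℕ) (f : (I → Bool) → ℝ) (i : g.ι),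
  Cyl k f → Cyl k (f ∘ g.φ i)

/-- E1b: bound for the generator acting on functionals (this contains the summability). -/
def St_E1b : Prop := ∀ (I : Type) (g : Gen I) (k : ℕ) (a : ((I → Bool) → ℝ) → ℝ) (M : ℝ), 0 ≤ M →
  (∀ f, Cyl k f → |a f| ≤ M) → ∀ f, Cyl k f →
    Summable (fun i => g.r i * |a (f ∘ g.φ i) - a f|) ∧
      ∑' i, g.r i * |a (f ∘ g.φ i) - a f| ≤ 2 * M * (g.C * k) ∧ |g.A a f| ≤ 2 * M * (g.C * k)

/-- E1c: cylinder functions are measurable and continuous, so is `L f`, and `|L f| ≤ 2 C k`. -/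
def St_E1c : Prop := ∀ (I : Type) (g : Gen I) (k : ℕ) (f : (I → Bool) → ℝ), Cyl k f →
  Measurable f ∧ Continuous f ∧ Measurable (g.L f) ∧ Continuous (g.L f) ∧
    ∀ ω, |g.L f ω| ≤ 2 * (g.C * k)

/-- E1d: exchange of the sum over `i` and the expectation. -/
def St_E1d : Prop := ∀ (I : Type) (g : Gen I) (k : ℕ) (f : (I → Bool) → ℝ), Cyl k f →
  ∀ (Ω : Type) [MeasurableSpace Ω] (μ : Measure Ω) [IsProbabilityMeasure μ]
    (Z : Ω → I → Bool) (G : Ω → ℝ), Measurable Z → Measurable G → (∀ ω, |G ω| ≤ 1) →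
    ∫ ω, g.L f (Z ω) * G ω ∂μ = g.A (fun u => ∫ ω, u (Z ω) * G ω ∂μ) f

/-- E1e: two finite measures on `{0,1}^I` which agree on all cylinder functions are equal; the
same for measures on the product of `{0,1}^I` with itself. -/
def St_E1e : Prop := ∀ (I : Type) [Countable I],
  (∀ (μ ν : Measure (I → Bool)) [IsFiniteMeasure μ] [IsFiniteMeasure ν],
    (∀ k f, Cyl k f → ∫ ω, f ω ∂μ = ∫ ω, f ω ∂ν) → μ = ν) ∧
  (∀ (μ ν : Measure ((I → Bool) × (I → Bool))) [IsFiniteMeasure μ] [IsFiniteMeasure ν],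
    (∀ k f h, Cyl k f → Cyl k h → ∫ p, f p.1 * h p.2 ∂μ = ∫ p, f p.1 * h p.2 ∂ν) → μ = ν)

/-! ### E2: Picard iteration -/

def St_E2 : Prop := ∀ (I : Type) (g : Gen I) (k : ℕ) (T M : ℝ)
  (w : ℝ → ((I → Bool) → ℝ) → ℝ), 0 ≤ T → 0 ≤ M →
  (∀ f, Cyl k f → ∀ t ∈ Set.Icc 0 T, |w t f| ≤ M) →
  (∀ f, Cyl k f → ContinuousOn (fun t => w t f) (Set.Icc 0 T)) →
  (∀ f, Cyl k f → ∀ t ∈ Set.Icc 0 T, w t f = w 0 f + ∫ s in (0:ℝ)..t, g.A (w s) f) →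
  ∀ n f, Cyl k f → ∀ t ∈ Set.Icc 0 T,
    |w t f - ∑ j ∈ Finset.range n, t ^ j / j.factorial * (g.A^[j] (w 0)) f| ≤
      M * (2 * (g.C * k) * t) ^ n / n.factorial

/-- E2b: two solutions are equal if all iterates of the initial data are. -/
def St_E2b : Prop := ∀ (I : Type) (g : Gen I) (k : ℕ) (T M : ℝ)
  (w w' : ℝ → ((I → Bool) → ℝ) → ℝ), 0 ≤ T → 0 ≤ M →
  (∀ f, Cyl k f → ∀ t ∈ Set.Icc 0 T, |w t f| ≤ M) →
  (∀ f, Cyl k f → ContinuousOn (fun t => w t f) (Set.Icc 0 T)) →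
  (∀ f, Cyl k f → ∀ t ∈ Set.Icc 0 T, w t f = w 0 f + ∫ s in (0:ℝ)..t, g.A (w s) f) →
  (∀ f, Cyl k f → ∀ t ∈ Set.Icc 0 T, |w' t f| ≤ M) →
  (∀ f, Cyl k f → ContinuousOn (fun t => w' t f) (Set.Icc 0 T)) →
  (∀ f, Cyl k f → ∀ t ∈ Set.Icc 0 T, w' t f = w' 0 f + ∫ s in (0:ℝ)..t, g.A (w' s) f) →
  ∀ f f', Cyl k f → Cyl k f' → (∀ j, (g.A^[j] (w 0)) f = (g.A^[j] (w' 0)) f') →
    ∀ t ∈ Set.Icc 0 T, w t f = w' t f'

/-- E2c: iterates only depend on the values at cylinder functions. -/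
def St_E2c : Prop := ∀ (I : Type) (g : Gen I) (k : ℕ) (a a' : ((I → Bool) → ℝ) → ℝ),
  (∀ f, Cyl k f → a f = a' f) → ∀ j f, Cyl k f → (g.A^[j] a) f = (g.A^[j] a') f

/-! ### E3: symmetry of the iterates -/

def St_E3 : Prop := ∀ (I : Type) (g : Gen I) (k : ℕ) (f h : (I → Bool) → ℝ), Cyl k f → Cyl k h →
  ∀ j, (g.A^[j] (fun u => ∫ ω, u ω * h ω ∂(Pc I))) f =
    (g.A^[j] (fun u => ∫ ω, u ω * f ω ∂(Pc I))) h

/-! ### E4: the equation for the correlations; reversibility -/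

/-- E4a: the functions `t ↦ E[f(X_{s+t}) G]` satisfy the hypotheses of E2. -/
def St_E4a : Prop := ∀ (I : Type) (g : Gen I) (Ω : Type) [MeasurableSpace Ω] (μ : Measure Ω)
  [IsProbabilityMeasure μ] (X : ℝ → Ω → I → Bool), IsDyn g.L μ X → ∀ s : ℝ, 0 ≤ s →
  ∀ G : Ω → ℝ, Measurable[past X s] G → (∀ ω, |G ω| ≤ 1) → ∀ k : ℕ,
  (∀ f, Cyl k f → ∀ t : ℝ, |∫ ω, f (X (s + t) ω) * G ω ∂μ| ≤ 1) ∧
  (∀ f, Cyl k f → ∀ T : ℝ, 0 ≤ T →
    ContinuousOn (fun t => ∫ ω, f (X (s + t) ω) * G ω ∂μ) (Set.Icc 0 T)) ∧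
  (∀ f, Cyl k f → ∀ t : ℝ, 0 ≤ t → ∫ ω, f (X (s + t) ω) * G ω ∂μ =
    ∫ ω, f (X (s + 0) ω) * G ω ∂μ +
      ∫ u in (0:ℝ)..t, g.A (fun v => ∫ ω, v (X (s + u) ω) * G ω ∂μ) f)

/-- E4b: the law of `(X_0, X_t)` is symmetric. -/
def St_E4b : Prop := ∀ (I : Type) [Countable I] (g : Gen I) (Ω : Type) [MeasurableSpace Ω]
  (μ : Measure Ω) [IsProbabilityMeasure μ] (X : ℝ → Ω → I → Bool), IsDyn g.L μ X → ∀ t : ℝ,
  0 ≤ t → μ.map (fun ω => (X 0 ω, X t ω)) = μ.map (fun ω => (X t ω, X 0 ω)) ∧ μ.map (X t) = Pc I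

/-- E5: Markov property with the kernel `condDistrib (X t) (X 0) μ`. -/
def St_E5 : Prop := ∀ (I : Type) [Countable I] (g : Gen I) (Ω : Type) [MeasurableSpace Ω]
  (μ : Measure Ω) [IsProbabilityMeasure μ] (X : ℝ → Ω → I → Bool), IsDyn g.L μ X →
  ∀ s t : ℝ, 0 ≤ s → 0 ≤ t → ∀ B, MeasurableSet[past X s] B → ∀ D, MeasurableSet D →
    μ (B ∩ X (s + t) ⁻¹' D) = ∫⁻ ω in B, condDistrib (X t) (X 0) μ (X s ω) D ∂μ

/-- E5b: the skeleton is a reversible chain. -/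
def St_E5b : Prop := ∀ (I : Type) [Countable I] (g : Gen I) (Ω : Type) [MeasurableSpace Ω]
  (μ : Measure Ω) [IsProbabilityMeasure μ] (X : ℝ → Ω → I → Bool), IsDyn g.L μ X →
  ∀ j : ℕ, Rev (Pc I) (condDistrib (X (1 / 2 ^ j)) (X 0) μ) ∧
    Chain (Pc I) (condDistrib (X (1 / 2 ^ j)) (X 0) μ) μ (fun k => X ((k : ℝ) / 2 ^ j))
      (fun k => past X ((k : ℝ) / 2 ^ j)) ∧
    ∀ f : (I → Bool) → ℝ, Measurable f → (∀ ω, |f ω| ≤ 1) →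
      ∫ ω, f ω * (∫ η, f η ∂(condDistrib (X (1 / 2 ^ j)) (X 0) μ ω)) ∂(Pc I) =
        ∫ ω, f (X 0 ω) * f (X (1 / 2 ^ j) ω) ∂μ

/-! ### E6: potential theory of reversible chains -/

def St_E6 : Prop := ∀ (E : Type) [MeasurableSpace E] (m : Measure E) [IsProbabilityMeasure m]
  (κ : Kernel E E) [IsMarkovKernel κ], Rev m κ → ∀ (Ω : Type) [MeasurableSpace Ω] (μ : Measure Ω)
  [IsProbabilityMeasure μ] (Z : ℕ → Ω → E) (ℱ : ℕ → MeasurableSpace Ω), Chain m κ μ Z ℱ →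
  ∀ (O : Set E), MeasurableSet O → ∀ l : ℝ, 0 < l → l < 1 →
  (∀ f : E → ℝ, Measurable f → (∀ x, 0 ≤ f x ∧ f x ≤ 1) → (∀ x ∈ O, f x = 1) → ∀ n : ℕ,
    μ.real {ω | ∃ k ≤ n, Z k ω ∈ O} * l ^ n * (1 - l) ≤
      ∫ x, f x * (f x - l * ∫ y, f y ∂(κ x)) ∂m) ∧
  ∃ h : E → ℝ, Measurable h ∧ (∀ x, 0 ≤ h x ∧ h x ≤ 1) ∧ (∀ x ∈ O, h x = 1) ∧ ∀ n : ℕ,
    ∫ x, h x * (h x - l * ∫ y, h y ∂(κ x)) ∂m ≤
      (1 - l) * (μ.real {ω | ∃ k ≤ n, Z k ω ∈ O} + l ^ n)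

/-! ### E7: short times -/

def St_E7 : Prop := ∀ (I : Type) [Countable I] (g : Gen I) (Ω : Type) [MeasurableSpace Ω]
  (μ : Measure Ω) [IsProbabilityMeasure μ] (X : ℝ → Ω → I → Bool), IsDyn g.L μ X →
  ∀ (k : ℕ) (f : (I → Bool) → ℝ), Cyl k f → ∀ δ : ℝ, 0 ≤ δ →
    |∫ ω, f (X 0 ω) * (f (X 0 ω) - f (X δ ω)) ∂μ - δ * g.En f| ≤ δ ^ 2 * (2 * (g.C * k)) ^ 2

/-! ### E8: energies -/

def St_E8 : Prop := ∀ (I : Type) (g : Gen I) (k : ℕ) (f : (I → Bool) → ℝ), Cyl k f →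
  Summable (fun i => g.r i * ∫ ω, (f (g.φ i ω) - f ω) ^ 2 ∂(Pc I)) ∧
  g.En f = 1 / 2 * ∑' i, g.r i * ∫ ω, (f (g.φ i ω) - f ω) ^ 2 ∂(Pc I)

open Classical in
/-- E9a: the generator of ordinary dynamical percolation as a `Gen`. -/
def St_E9a : Prop := ∀ I : Type, Countable I → ∃ g : Gen I, g.ι = I ∧ g.C = 1 / 2 ∧
  (∀ f ω, g.L f ω = Lord f ω) ∧
  ∀ k f, Cyl k f → g.En f = 1 / 4 *
    ∑' x : I, ∫ ω, (f (Function.update ω x (!ω x)) - f ω) ^ 2 ∂(Pc I)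

open Classical in
/-- E9b: the generator of the exclusion dynamics as a `Gen`. -/
def St_E9b : Prop := ∀ I : Type, Countable I → ∀ (P : I → I → ℝ) (C : ℝ), (∀ x y, 0 ≤ P x y) →
  (∀ x y, P x y = P y x) → (∀ x, Summable (P x) ∧ ∑' y, P x y ≤ C) → 0 ≤ C →
  ∃ g : Gen I, g.C = C ∧ (∀ f ω, g.L f ω = Lex P f ω) ∧
  ∀ k f, Cyl k f →
    Summable (fun x : I => ∫ ω, (f (Function.update ω x (!ω x)) - f ω) ^ 2 ∂(Pc I)) ∧
    g.En f ≤ C * ∑' x : I, ∫ ω, (f (Function.update ω x (!ω x)) - f ω) ^ 2 ∂(Pc I)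

/-- E9c: the restriction of ordinary dynamical percolation to finitely many bits. -/
def St_E9c : Prop := ∀ (I : Type) [Countable I] (S : Finset I) (Ω : Type) [MeasurableSpace Ω]
  (μ : Measure Ω) [IsProbabilityMeasure μ] (Y : ℝ → Ω → I → Bool), IsDyn Lord μ Y →
    IsDyn (I := ↥S) Lord μ (fun t ω x => Y t ω x)

/-! ### E10: skeletons -/

def St_E10 : Prop := ∀ (I : Type) [Countable I] (Ω : Type) [MeasurableSpace Ω] (μ : Measure Ω)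
  [IsProbabilityMeasure μ] (L : ((I → Bool) → ℝ) → (I → Bool) → ℝ) (X : ℝ → Ω → I → Bool),
  IsDyn L μ X → ∀ (S : Finset I) (O : Set (I → Bool)), CylSet S O → ∀ T : ℕ,
    MeasurableSet O ∧ IsClopen O ∧ MeasurableSet (Hit X T O) ∧
    (∀ j n, MeasurableSet (HitD X j n O)) ∧
    Tendsto (fun j : ℕ => μ.real (HitD X j (T * 2 ^ j) O)) atTop (𝓝 (μ.real (Hit X T O))) ∧
    ∀ j : ℕ, μ.real (HitD X j (T * 2 ^ j) O) ≤ μ.real (Hit X T O)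

/-! ### E11: comparison of the hitting probabilities -/

def St_E11 : Prop := ∀ (I : Type) [Countable I] (P : I → I → ℝ) (C : ℝ), (∀ x y, 0 ≤ P x y) →
  (∀ x y, P x y = P y x) → (∀ x, Summable (P x) ∧ ∑' y, P x y ≤ C) → 0 ≤ C →
  ∀ (Ω Ω' : Type) [MeasurableSpace Ω] [MeasurableSpace Ω'] (μ : Measure Ω) (μ' : Measure Ω')
    [IsProbabilityMeasure μ] [IsProbabilityMeasure μ'] (X : ℝ → Ω → I → Bool)
    (Y : ℝ → Ω' → I → Bool), IsDyn (Lex P) μ X → IsDyn Lord μ' Y →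
  ∀ (S : Finset I) (O : Set (I → Bool)), CylSet S O → ∀ T T' : ℕ,
    μ.real (Hit X T O) ≤ Real.exp T * max 1 (4 * C) * (μ'.real (Hit Y T' O) + Real.exp (-T'))

/-! ### E12: a version of Choquet's theorem -/

def St_E12 : Prop := ∀ (E : Type) [TopologicalSpace E] (c : Set E → ℝ≥0∞), Monotone c →
  (∀ s : ℕ → Set E, Monotone s → c (⋃ n, s n) = ⨆ n, c (s n)) → ∀ A : Set E, AnalyticSet A →
  ∀ a, a < c A → ∃ K, IsCompact K ∧ K ⊆ A ∧ ∀ U, IsOpen U → K ⊆ U → a < c U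

/-! ### E13: from small neighbourhoods to the compact set -/

def St_E13 : Prop := ∀ (I : Type) [Countable I] (Ω : Type) [MeasurableSpace Ω] (μ : Measure Ω)
  [IsProbabilityMeasure μ] (Y : ℝ → Ω → I → Bool), IsDyn Lord μ Y →
  ∀ K : Set (I → Bool), IsCompact K → (Pc I) K = 0 → ∀ (T : ℕ) (c : ℝ≥0∞),
    (∀ S : Finset I, c ≤ μ (Hit Y T (Nb K S))) → c ≤ μ (Hit Y T K)

/-- E13a: a bit of a configuration in `O` is unlikely to change in a short time. -/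
def St_E13a : Prop := ∀ (I : Type) [Countable I] (Ω : Type) [MeasurableSpace Ω] (μ : Measure Ω)
  [IsProbabilityMeasure μ] (Y : ℝ → Ω → I → Bool), IsDyn Lord μ Y →
  ∀ O : Set (I → Bool), MeasurableSet O → ∀ (x : I) (s δ : ℝ), 0 ≤ s → 0 ≤ δ →
    μ {ω | Y s ω ∈ O ∧ Y (s + δ) ω x ≠ Y s ω x} ≤ ENNReal.ofReal δ * (Pc I) O

/-! ### E14: the theorem -/

def St_E14 : Prop := ∀ (I : Type) [Countable I] (P : I → I → ℝ) (C : ℝ), (∀ x y, 0 ≤ P x y) →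
  (∀ x y, P x y = P y x) → (∀ x, Summable (P x) ∧ ∑' y, P x y ≤ C) →
  ∀ (Ω Ω' : Type) [MeasurableSpace Ω] [MeasurableSpace Ω'] (μ : Measure Ω) (μ' : Measure Ω')
    [IsProbabilityMeasure μ] [IsProbabilityMeasure μ'] (X : ℝ → Ω → I → Bool)
    (Y : ℝ → Ω' → I → Bool), IsDyn (Lex P) μ X → IsDyn Lord μ' Y →
  ∀ A : Set (I → Bool), MeasurableSet A → (Pc I) A = 0 →
    0 < μ {ω | ∃ t : ℝ, 0 ≤ t ∧ X t ω ∈ A} → 0 < μ' {ω | ∃ t : ℝ, 0 ≤ t ∧ Y t ω ∈ A}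

end H934X
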