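import Pool.Agent.H934R4.EX.Props

/-!
# Task X13 (E10): skeletons
-/

set_option autoImplicit false

namespace H934X

open MeasureTheory ProbabilityTheory Filter Topology
open scoped ENNReal

theorem x13_cyl {I : Type} (S : Finset I) (O : Set (I → Bool)) (h : CylSet S O) :
    ∃ O' : Set (S → Bool), O = S.restrict ⁻¹' O' := by
  refine ⟨S.restrict '' O, ?_⟩
  ext ω
  constructor
  · intro hω
    exact ⟨ω, hω, rfl⟩
  · rintro ⟨ω', hω', he⟩
    refine (h ω' ω fun x hx => ?_).1 hω'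
    exact congrFun he ⟨x, hx⟩

theorem x13_hitD_meas {I Ω : Type} [MeasurableSpace Ω] (X : ℝ → Ω → I → Bool)
    (hX : ∀ t, Measurable (X t)) {O : Set (I → Bool)} (hO : MeasurableSet O) (j n : ℕ) :
    MeasurableSet (HitD X j n O) := by
  have : HitD X j n O = ⋃ k ∈ Finset.range (n + 1), X ((k : ℝ) / 2 ^ j) ⁻¹' O := by
    ext ω
    simp only [HitD, Set.mem_ofPred_eq, Set.mem_iUnion, Finset.mem_range, Set.mem_preimage,
      exists_prop, Nat.lt_succ_iff]
  rw [this]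
  exact Finset.measurableSet_biUnion _ fun k _ => hX _ hO

theorem x13_mono {I Ω : Type} (X : ℝ → Ω → I → Bool) (O : Set (I → Bool)) (T : ℕ) :
    Monotone fun j : ℕ => HitD X j (T * 2 ^ j) O := by
  refine monotone_nat_of_le_succ fun j => ?_
  rintro ω ⟨k, hk, hkO⟩
  refine ⟨2 * k, ?_, ?_⟩
  · rw [pow_succ]
    calc 2 * k ≤ 2 * (T * 2 ^ j) := Nat.mul_le_mul_left 2 hk
      _ = _ := by ring
  · have : (((2 * k : ℕ) : ℝ)) / 2 ^ (j + 1) = (k : ℝ) / 2 ^ j := by
      push_cast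
      rw [pow_succ]
      field_simp
    rw [this]
    exact hkO

theorem x13_sub {I Ω : Type} (X : ℝ → Ω → I → Bool) (O : Set (I → Bool)) (T j : ℕ) :
    HitD X j (T * 2 ^ j) O ⊆ Hit X T O := by
  rintro ω ⟨k, hk, hkO⟩
  refine ⟨(k : ℝ) / 2 ^ j, ⟨by positivity, ?_⟩, hkO⟩
  rw [div_le_iff₀ (by positivity)]
  exact_mod_cast hk

theorem x13_union {I Ω : Type} (X : ℝ → Ω → I → Bool) (S : Finset I) (O : Set (I → Bool))
    (hO : CylSet S O) (T : ℕ)
    (hr : ∀ (ω : Ω) (x : I) (t : ℝ), 0 ≤ t →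
      ∃ ε > 0, ∀ s ∈ Set.Ico t (t + ε), X s ω x = X t ω x) :
    Hit X T O = ⋃ j : ℕ, HitD X j (T * 2 ^ j) O := by
  refine Set.Subset.antisymm ?_ (Set.iUnion_subset fun j => x13_sub X O T j)
  rintro ω ⟨t, ⟨ht0, htT⟩, htO⟩
  rcases htT.lt_or_eq with hlt | heq
  swap
  · refine Set.mem_iUnion.2 ⟨0, T, by simp, ?_⟩
    have : (T : ℝ) / 2 ^ 0 = t := by rw [heq]; simp
    rw [this]
    exact htO
  have hev : ∀ᶠ s in 𝓝[≥] t, ∀ x ∈ S, X s ω x = X t ω x := by
    rw [Filter.eventually_all_finset]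
    intro x _
    obtain ⟨ε, hε, h⟩ := hr ω x t ht0
    exact mem_of_superset (Ico_mem_nhdsGE (by linarith)) h
  obtain ⟨u, hu, hsub⟩ := mem_nhdsGE_iff_exists_Ico_subset.1 hev
  have hu' : t < u := hu
  have hδ : 0 < min (u - t) (T - t) := lt_min (by linarith) (by linarith)
  obtain ⟨j, hj⟩ := exists_pow_lt_of_lt_one hδ (by norm_num : (1 / 2 : ℝ) < 1)
  have h2 : (0 : ℝ) < 2 ^ j := by positivity
  have hj1 : 1 / (2 : ℝ) ^ j < u - t := by
    have := hj.trans_le (min_le_left _ _)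
    rwa [one_div_pow] at this
  have hj2 : 1 / (2 : ℝ) ^ j < T - t := by
    have := hj.trans_le (min_le_right _ _)
    rwa [one_div_pow] at this
  set k := ⌈t * 2 ^ j⌉₊ with hk
  have hk1 : t ≤ (k : ℝ) / 2 ^ j := by
    rw [le_div_iff₀ h2]
    exact Nat.le_ceil _
  have hk2 : (k : ℝ) / 2 ^ j < t + 1 / 2 ^ j := by
    rw [div_lt_iff₀ h2, add_mul, one_div, inv_mul_cancel₀ h2.ne']
    exact Nat.ceil_lt_add_one (by positivity)
  refine Set.mem_iUnion.2 ⟨j, k, ?_, ?_⟩
  · have : (k : ℝ) / 2 ^ j < T := by linarith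
    rw [div_lt_iff₀ h2] at this
    exact_mod_cast this.le
  · refine (hO (X t ω) (X ((k : ℝ) / 2 ^ j) ω) fun x hx => ?_).1 htO
    exact (hsub ⟨hk1, by linarith⟩ x hx).symm

theorem e10 : St_E10 := by
  intro I _ Ω _ μ _ L X hX S O hO T
  obtain ⟨O', hO'⟩ := x13_cyl S O hO
  have hOm : MeasurableSet O := by
    rw [hO']
    exact (Finset.measurable_restrict S) (Set.toFinite O').measurableSet
  have hOc : IsClopen O := by
    rw [hO']
    exact (isClopen_discrete O').preimage (Finset.continuous_restrict S)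
  have hD : ∀ j n, MeasurableSet (HitD X j n O) := x13_hitD_meas X hX.meas hOm
  have hU := x13_union X S O hO T hX.right
  have hmono := x13_mono X O T
  refine ⟨hOm, hOc, ?_, hD, ?_, ?_⟩
  · rw [hU]
    exact MeasurableSet.iUnion fun j => hD _ _
  · have h1 := tendsto_measure_iUnion_atTop (μ := μ) hmono
    rw [← hU] at h1
    exact (ENNReal.tendsto_toReal (measure_ne_top μ _)).comp h1
  · intro j
    exact measureReal_mono (x13_sub X O T j)

end H934X
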